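import Mathlib
import Pool.Agent.Helper175.NS.Top
import Pool.Agent.Helper175.NS.Sub
import Pool.Agent.H904R2.Ball

set_option autoImplicit false

/-!
# The realization of a simplex is a ball
-/

namespace Pool.Agent.H933R3

open Finset Pool.Agent.Helper175.NS Pool.Agent.H904R2.BallAux

/-- the corner simplex in Euclidean space -/
def Corner (n : ℕ) : Set (EuclideanSpace ℝ (Fin n)) := (EuclideanSpace.equiv (Fin n) ℝ) ⁻¹' (S n)

theorem corner_ball (n : ℕ) :
    Nonempty (Corner n ≃ₜ Metric.closedBall (0 : EuclideanSpace ℝ (Fin n)) 1) := by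
  have hc : Convex ℝ (Corner n) :=
    (S_convex n).linear_preimage (EuclideanSpace.equiv (Fin n) ℝ).toLinearMap
  have hcl : IsClosed (Corner n) := (S_closed n).preimage (EuclideanSpace.equiv (Fin n) ℝ).continuous
  have hint : (interior (Corner n)).Nonempty := by
    have : interior (Corner n) = (EuclideanSpace.equiv (Fin n) ℝ) ⁻¹' interior (S n) :=
      ((EuclideanSpace.equiv (Fin n) ℝ).toHomeomorph.preimage_interior (S n)).symm
    rw [this]
    obtain ⟨x, hx⟩ := S_interior_nonempty n
    refine ⟨(EuclideanSpace.equiv (Fin n) ℝ).symm x, ?_⟩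
    show EuclideanSpace.equiv (Fin n) ℝ ((EuclideanSpace.equiv (Fin n) ℝ).symm x) ∈ interior (S n)
    rw [ContinuousLinearEquiv.apply_symm_apply]
    exact hx
  have hb : Bornology.IsBounded (Corner n) := by
    have h1 : Corner n = (EuclideanSpace.equiv (Fin n) ℝ).symm '' (S n) := by
      ext x
      constructor
      · intro hx
        exact ⟨EuclideanSpace.equiv (Fin n) ℝ x, hx, by simp⟩
      · rintro ⟨y, hy, rfl⟩
        show EuclideanSpace.equiv (Fin n) ℝ ((EuclideanSpace.equiv (Fin n) ℝ).symm y) ∈ S n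
        rw [ContinuousLinearEquiv.apply_symm_apply]
        exact hy
    rw [h1]
    exact (EuclideanSpace.equiv (Fin n) ℝ).symm.lipschitz.isBounded_image (S_bounded n)
  obtain ⟨h, -, h2, -⟩ := exists_homeomorph_image_interior_closure_frontier_eq_unitBall hc hint hb
  rw [hcl.closure_eq] at h2
  exact ⟨(h.image (Corner n)).trans (Homeomorph.setCongr h2)⟩

theorem std_corner (n : ℕ) :
    Nonempty (Sp ({univ} : Finset (Finset (Fin (n + 1)))) ≃ₜ Corner n) := by
  have hmem : ∀ x : Fin (n + 1) → ℝ, x ∈ Sp ({univ} : Finset (Finset (Fin (n + 1)))) ↔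
      (∀ i, 0 ≤ x i) ∧ ∑ i, x i = 1 := by
    intro x
    constructor
    · rintro ⟨h0, F, hF, -, h1⟩
      rw [mem_singleton] at hF
      subst hF
      exact ⟨h0, h1⟩
    · rintro ⟨h0, h1⟩
      exact ⟨h0, univ, mem_singleton_self _, fun v hv => absurd (mem_univ v) hv, h1⟩
  let a : (Fin (n + 1) → ℝ) → EuclideanSpace ℝ (Fin n) := fun x =>
    (EuclideanSpace.equiv (Fin n) ℝ).symm (fun j => x j.succ)
  let b : EuclideanSpace ℝ (Fin n) → (Fin (n + 1) → ℝ) := fun y =>
    Fin.cons (1 - ∑ j, (EuclideanSpace.equiv (Fin n) ℝ y) j) (EuclideanSpace.equiv (Fin n) ℝ y)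
  have ha : ∀ x ∈ Sp ({univ} : Finset (Finset (Fin (n + 1)))), a x ∈ Corner n := by
    intro x hx
    rw [hmem] at hx
    show EuclideanSpace.equiv (Fin n) ℝ ((EuclideanSpace.equiv (Fin n) ℝ).symm _) ∈ S n
    rw [ContinuousLinearEquiv.apply_symm_apply]
    refine ⟨fun j => hx.1 _, ?_⟩
    have h1 := hx.2
    rw [Fin.sum_univ_succ] at h1
    have := hx.1 0
    linarith
  have hb : ∀ y ∈ Corner n, b y ∈ Sp ({univ} : Finset (Finset (Fin (n + 1)))) := by
    intro y hy
    rw [hmem]
    obtain ⟨h0, h1⟩ := (hy : EuclideanSpace.equiv (Fin n) ℝ y ∈ S n)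
    constructor
    · intro i
      refine Fin.cases ?_ (fun j => ?_) i
      · simp only [b, Fin.cons_zero]; linarith
      · simp only [b, Fin.cons_succ]; exact h0 j
    · rw [Fin.sum_univ_succ]
      simp only [b, Fin.cons_zero, Fin.cons_succ]
      ring
  refine ⟨{ toFun := fun x => ⟨a x.1, ha x.1 x.2⟩
            invFun := fun y => ⟨b y.1, hb y.1 y.2⟩
            left_inv := ?_
            right_inv := ?_
            continuous_toFun := ?_
            continuous_invFun := ?_ }⟩
  · rintro ⟨x, hx⟩
    apply Subtype.ext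
    rw [hmem] at hx
    have h1 := hx.2
    rw [Fin.sum_univ_succ] at h1
    funext i
    refine Fin.cases ?_ (fun j => ?_) i
    · simp only [a, b, Fin.cons_zero, ContinuousLinearEquiv.apply_symm_apply]
      linarith
    · simp only [a, b, Fin.cons_succ, ContinuousLinearEquiv.apply_symm_apply]
  · rintro ⟨y, hy⟩
    apply Subtype.ext
    simp only [a, b, Fin.cons_succ]
    exact ContinuousLinearEquiv.symm_apply_apply _ _
  · apply Continuous.subtype_mk
    exact (EuclideanSpace.equiv (Fin n) ℝ).symm.continuous.comp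
      (continuous_pi fun j => (continuous_apply j.succ).comp continuous_subtype_val)
  · apply Continuous.subtype_mk
    apply continuous_pi
    intro i
    have hc : ∀ j, Continuous fun y : Corner n => (EuclideanSpace.equiv (Fin n) ℝ y.1) j := fun j =>
      (continuous_apply j).comp ((EuclideanSpace.equiv (Fin n) ℝ).continuous.comp
        continuous_subtype_val)
    refine Fin.cases ?_ (fun j => ?_) i
    · simp only [b, Fin.cons_zero]
      exact continuous_const.sub (continuous_finsetSum _ fun j _ => hc j)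
    · simp only [b, Fin.cons_succ]
      exact hc j

/-- the realization of an `n`-simplex is an `n`-ball -/
theorem simplex_ball {V : Type} [DecidableEq V] (F : Finset V) (n : ℕ) (hF : F.card = n + 1) :
    Nonempty (Sp ({F} : Finset (Finset V)) ≃ₜ
      Metric.closedBall (0 : EuclideanSpace ℝ (Fin n)) 1) := by
  obtain ⟨e1⟩ := corner_ball n
  obtain ⟨e2⟩ := std_corner n
  let f : Fin (n + 1) → V := fun i => ((F.equivFinOfCardEq hF).symm i : F)
  have hfinj : Function.Injective f := by
    intro i j h
    exact (F.equivFinOfCardEq hF).symm.injective (Subtype.ext h)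
  have himg : (univ : Finset (Fin (n + 1))).image f = F := by
    ext v
    rw [mem_image]
    constructor
    · rintro ⟨i, -, rfl⟩
      exact ((F.equivFinOfCardEq hF).symm i).2
    · intro hv
      exact ⟨F.equivFinOfCardEq hF ⟨v, hv⟩, mem_univ _, by simp [f]⟩
  obtain ⟨e3⟩ := relabel_homeo ({univ} : Finset (Finset (Fin (n + 1)))) f univ
    (fun F _ => subset_univ F) (hfinj.injOn)
  have h1 : ({univ} : Finset (Finset (Fin (n + 1)))).image (fun F => F.image f) = {F} := by
    rw [image_singleton, himg]
  rw [h1] at e3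
  exact ⟨(e3.trans e2).trans e1⟩

end Pool.Agent.H933R3
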