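import Mathlib

set_option autoImplicit false

/-!
# Definitions: simplicial complexes, balls, non-evasive complexes, local constructibility

Complexes are given by their finite set of faces, a `Finset (Finset V)` containing the empty
face.
-/

namespace Pool.Agent.H933R3

open Finset

variable {V : Type} [DecidableEq V]

/-- finite abstract simplicial complex (the empty set is a face) -/
def IsCx (K : Finset (Finset V)) : Prop := ∅ ∈ K ∧ ∀ σ ∈ K, ∀ τ : Finset V, τ ⊆ σ → τ ∈ K

/-- deletion of a vertex -/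
def del (K : Finset (Finset V)) (v : V) : Finset (Finset V) := K.filter (fun σ => v ∉ σ)

/-- link of a vertex -/
def link (K : Finset (Finset V)) (v : V) : Finset (Finset V) :=
  K.filter (fun σ => v ∉ σ ∧ insert v σ ∈ K)

/-- non-evasive complexes -/
inductive NonEvasive : Finset (Finset V) → Prop
  | point (v : V) : NonEvasive {∅, {v}}
  | step (K : Finset (Finset V)) (v : V) (hv : {v} ∈ K) (hd : NonEvasive (del K v))
      (hl : NonEvasive (link K v)) : NonEvasive K

/-- The geometric realization of a complex with vertices in `Fin n`, in barycentric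
coordinates. -/
def realization {n : ℕ} (K : Finset (Finset (Fin n))) : Set (Fin n → ℝ) :=
  {x | (∀ i, 0 ≤ x i) ∧ ∑ i, x i = 1 ∧ ∃ σ ∈ K, ∀ i, i ∉ σ → x i = 0}

/-- `K` is a triangulated `d`-ball. -/
def IsBall (d : ℕ) {n : ℕ} (K : Finset (Finset (Fin n))) : Prop :=
  Nonempty (realization K ≃ₜ Metric.closedBall (0 : EuclideanSpace ℝ (Fin d)) 1)

/-- a facet is a maximal face -/
def IsFacet (K : Finset (Finset V)) (F : Finset V) : Prop := F ∈ K ∧ ∀ G ∈ K, F ⊆ G → G = F

/-- Let `T` be the complex obtained from the disjoint union of the simplices in `𝓕` by gluing,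
for every `R ∈ G`, the simplices of `𝓕` containing `R` along `R`.  `SameFace 𝓕 G A F F'` says that
the face `A` of the simplex `F` and the face `A` of the simplex `F'` are the same face of `T`. -/
def SameFace (𝓕 G : Finset (Finset V)) (A F F' : Finset V) : Prop :=
  Relation.ReflTransGen
    (fun X Y => X ∈ 𝓕 ∧ Y ∈ 𝓕 ∧ ∃ R ∈ G, A ⊆ R ∧ R ⊆ X ∧ R ⊆ Y) F F'

/-- The intermediate complexes of a local construction of `K` in dimension `d`: `𝓕` is the set of
the `d`-simplices used so far (each is a facet of `K`), `G` the set of the `(d-1)`-faces along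
which two of them have been glued. -/
inductive LCStage (d : ℕ) (K : Finset (Finset V)) :
    Finset (Finset V) → Finset (Finset V) → Prop
  /-- a single `d`-simplex -/
  | start (F : Finset V) (hF : IsFacet K F) : LCStage d K {F} ∅
  /-- attach a new `d`-simplex `F'` along a boundary `(d-1)`-face `R` -/
  | attach (𝓕 G : Finset (Finset V)) (F F' R : Finset V) (h : LCStage d K 𝓕 G) (hF : F ∈ 𝓕)
      (hF' : IsFacet K F') (hn : F' ∉ 𝓕) (hR : R.card = d) (h1 : R ⊆ F) (h2 : R ⊆ F')
      (hG : R ∉ G) : LCStage d K (insert F' 𝓕) (insert R G)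
  /-- identify two distinct boundary `(d-1)`-faces, the copies of `R` in `F` and in `F'`, that
  share a `(d-2)`-face `A` -/
  | glue (𝓕 G : Finset (Finset V)) (F F' R A : Finset V) (h : LCStage d K 𝓕 G) (hF : F ∈ 𝓕)
      (hF' : F' ∈ 𝓕) (hne : F ≠ F') (hR : R.card = d) (h1 : R ⊆ F) (h2 : R ⊆ F') (hG : R ∉ G)
      (hA : A.card + 1 = d) (hAR : A ⊆ R) (hs : SameFace 𝓕 G A F F') :
      LCStage d K 𝓕 (insert R G)

/-- every `(d-1)`-face lies in at most two facets -/
def AtMostTwo (d : ℕ) (K : Finset (Finset V)) : Prop :=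
  ∀ R : Finset V, R.card = d → ∀ X Y Z, IsFacet K X → IsFacet K Y → IsFacet K Z →
    R ⊆ X → R ⊆ Y → R ⊆ Z → X = Y ∨ X = Z ∨ Y = Z

/-- `K` is a locally constructible `d`-dimensional pseudomanifold. -/
def IsLC (d : ℕ) (K : Finset (Finset V)) : Prop :=
  (∀ F, IsFacet K F → F.card = d + 1) ∧ AtMostTwo d K ∧
    ∃ 𝓕 G : Finset (Finset V), LCStage d K 𝓕 G ∧ (∀ F, IsFacet K F → F ∈ 𝓕) ∧
      ∀ A ∈ K, ∀ F ∈ 𝓕, ∀ F' ∈ 𝓕, A ⊆ F → A ⊆ F' → SameFace 𝓕 G A F F'

end Pool.Agent.H933R3
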