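import Mathlib
import Pool.Agent.H933R3.Defs

set_option autoImplicit false

/-!
# Non-evasive complexes and extension of flat sections

If `K` is non-evasive and `T` is a set of pairwise adjacent vertices of `K`, then every flat
section of a local system given on the (combinatorial) frontier of a neighbourhood of `T`
extends to `K` minus `T`.
-/

namespace Pool.Agent.H933R3

open Finset

variable {V : Type} [DecidableEq V]

theorem mem_del {K : Finset (Finset V)} {v : V} {σ : Finset V} : σ ∈ del K v ↔ σ ∈ K ∧ v ∉ σ := by
  simp [del]

theorem mem_link {K : Finset (Finset V)} (hK : IsCx K) {v : V} {σ : Finset V} :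
    σ ∈ link K v ↔ v ∉ σ ∧ insert v σ ∈ K := by
  simp only [link, mem_filter]
  constructor
  · exact fun h => h.2
  · exact fun h => ⟨hK.2 _ h.2 _ (subset_insert _ _), h⟩

theorem IsCx.del {K : Finset (Finset V)} (hK : IsCx K) (v : V) : IsCx (del K v) := by
  refine ⟨mem_del.2 ⟨hK.1, by simp⟩, fun σ hσ τ hτ => ?_⟩
  rw [mem_del] at hσ ⊢
  exact ⟨hK.2 _ hσ.1 _ hτ, fun h => hσ.2 (hτ h)⟩

theorem IsCx.link {K : Finset (Finset V)} (hK : IsCx K) {v : V} (hv : {v} ∈ K) :
    IsCx (link K v) := by
  refine ⟨(mem_link hK).2 ⟨by simp, by simpa using hv⟩, fun σ hσ τ hτ => ?_⟩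
  rw [mem_link hK] at hσ ⊢
  exact ⟨fun h => hσ.1 (hτ h), hK.2 _ hσ.2 _ (insert_subset_insert _ hτ)⟩

/-- connectedness of the 1-skeleton -/
def Conn (L : Finset (Finset V)) : Prop :=
  (∃ x, {x} ∈ L) ∧ ∀ P : V → Prop, (∀ x y, {x, y} ∈ L → P x → P y) →
    ∀ x y, {x} ∈ L → {y} ∈ L → P x → P y

/-- a local system on `L` minus `T` together with a flat section near `T` -/
structure LS {α : Type} (L : Finset (Finset V)) (T : Finset V) (ψ : V → V → α → α)
    (col : V → V → α) : Prop where
  refl : ∀ u, u ∉ T → {u} ∈ L → ∀ c, ψ u u c = c
  comp : ∀ u v w, u ∉ T → v ∉ T → w ∉ T → {u, v, w} ∈ L → ∀ c, ψ v w (ψ u v c) = ψ u w c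
  cf : ∀ t ∈ T, ∀ u v, u ∉ T → v ∉ T → {t, u, v} ∈ L → ψ u v (col t u) = col t v
  ce : ∀ t ∈ T, ∀ t' ∈ T, ∀ u, u ∉ T → {t, t', u} ∈ L → col t u = col t' u

/-- `g` is a flat section on `L` minus `T` -/
def FlatOn {α : Type} (L : Finset (Finset V)) (T : Finset V) (ψ : V → V → α → α)
    (g : V → α) : Prop :=
  ∀ u v, u ∉ T → v ∉ T → {u, v} ∈ L → g v = ψ u v (g u)

/-- `g` extends the section given near `T` -/
def Extends {α : Type} (L : Finset (Finset V)) (T : Finset V) (col : V → V → α)
    (g : V → α) : Prop :=
  ∀ t ∈ T, ∀ u, u ∉ T → {t, u} ∈ L → g u = col t u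

theorem mem_link' {K : Finset (Finset V)} (hK : IsCx K) {v x : V} :
    {x} ∈ link K v ↔ v ≠ x ∧ {v, x} ∈ K := by
  rw [mem_link hK]; simp

theorem mem_link2 {K : Finset (Finset V)} (hK : IsCx K) {v x y : V} :
    {x, y} ∈ link K v ↔ v ≠ x ∧ v ≠ y ∧ {v, x, y} ∈ K := by
  rw [mem_link hK]; simp [and_assoc]

theorem IsCx.sub2 {K : Finset (Finset V)} (hK : IsCx K) {x y z : V} (h : {x, y, z} ∈ K) :
    {x, y} ∈ K ∧ {x, z} ∈ K ∧ {y, z} ∈ K ∧ {x} ∈ K ∧ {y} ∈ K ∧ {z} ∈ K := by
  refine ⟨?_, ?_, ?_, ?_, ?_, ?_⟩ <;> exact hK.2 _ h _ (by intro a; simp; tauto)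

theorem nonEvasive_sections {L : Finset (Finset V)} (h : NonEvasive L) (hL : IsCx L) :
    Conn L ∧ ∀ (T : Finset V) (α : Type) (ψ : V → V → α → α) (col : V → V → α),
      LS L T ψ col → (∀ t ∈ T, ∀ t' ∈ T, {t, t'} ∈ L) →
      (T = ∅ → ∀ x c, {x} ∈ L → ∃ g, FlatOn L T ψ g ∧ g x = c) ∧
      (T.Nonempty → ∃ g, FlatOn L T ψ g ∧ Extends L T col g) := by
  induction h with
  | point v =>
    have hv : ∀ x : V, ({x} : Finset V) ∈ ({∅, {v}} : Finset (Finset V)) → x = v := by
      intro x hx
      simpa using hx
    refine ⟨⟨⟨v, by simp⟩, ?_⟩, ?_⟩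
    · intro P _ x y hx hy hP
      rw [hv x hx] at hP
      rw [hv y hy]
      exact hP
    · intro T α ψ col hLS hcl
      refine ⟨?_, ?_⟩
      · rintro rfl x c hx
        refine ⟨fun _ => c, ?_, rfl⟩
        intro u w _ _ huw
        have hu : u = v := hv u (hL.2 _ huw _ (by simp))
        have hw : w = v := hv w (hL.2 _ huw _ (by simp))
        subst hu
        subst hw
        exact (hLS.refl w (by simp) (by simp) c).symm
      · rintro ⟨t, ht⟩
        have htv : t = v := hv t (by simpa using hcl t ht t ht)
        subst htv
        refine ⟨fun u => col t u, ?_, ?_⟩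
        · intro u w hu _ huw
          exact absurd ht ((hv u (hL.2 _ huw _ (by simp))) ▸ hu)
        · intro t' _ u hu htu
          exact absurd ht ((hv u (hL.2 _ htu _ (by simp))) ▸ hu)
  | step K v hv _ _ ihd ihl =>
    obtain ⟨⟨⟨a, ha⟩, hconn⟩, hsec⟩ := ihd (hL.del v)
    obtain ⟨⟨⟨x0, hx0⟩, hconnl⟩, -⟩ := ihl (hL.link hv)
    have hx0' := (mem_link' hL).1 hx0
    have hx0K : {x0} ∈ K := hL.2 _ hx0'.2 _ (by simp)
    refine ⟨⟨⟨a, (mem_del.1 ha).1⟩, ?_⟩, ?_⟩
    · -- connectedness
      intro P hP
      have hsymm : ∀ x y, {x, y} ∈ K → P y → P x := by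
        intro x y hxy
        exact hP y x (by rwa [pair_comm])
      have key : ∀ x y, {x} ∈ K → {y} ∈ K → x ≠ v → y ≠ v → P x → P y := by
        intro x y hx hy hxv hyv
        refine hconn P ?_ x y (mem_del.2 ⟨hx, by simpa using hxv.symm⟩)
          (mem_del.2 ⟨hy, by simpa using hyv.symm⟩)
        intro x' y' h
        exact hP x' y' (mem_del.1 h).1
      intro x y hx hy hPx
      by_cases hxv : x = v
      · subst hxv
        have h1 : P x0 := hP x x0 hx0'.2 hPx
        by_cases hyv : y = x
        · rwa [hyv]
        · exact key x0 y hx0K hy hx0'.1.symm hyv h1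
      · by_cases hyv : y = v
        · subst hyv
          exact hsymm y x0 hx0'.2 (key x x0 hx hx0K hxv hx0'.1.symm hPx)
        · exact key x y hx hy hxv hyv hPx
    · intro T α ψ col hLS hcl
      by_cases hvT : v ∈ T
      · -- the removed vertex is in `T`
        have hdelLS : LS (del K v) (T.erase v) ψ col := by
          have aux : ∀ u, u ∉ T.erase v → u ≠ v → u ∉ T := fun u h1 h2 h3 =>
            h1 (mem_erase.2 ⟨h2, h3⟩)
          refine ⟨?_, ?_, ?_, ?_⟩
          · intro u hu huK c
            rw [mem_del] at huK
            exact hLS.refl u (aux u hu (by rintro rfl; exact huK.2 (by simp))) huK.1 c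
          · intro u x w hu hx hw huK c
            rw [mem_del] at huK
            exact hLS.comp u x w (aux u hu (by rintro rfl; exact huK.2 (by simp)))
              (aux x hx (by rintro rfl; exact huK.2 (by simp)))
              (aux w hw (by rintro rfl; exact huK.2 (by simp))) huK.1 c
          · intro t ht u w hu hw htK
            rw [mem_del] at htK
            exact hLS.cf t (mem_of_mem_erase ht) u w
              (aux u hu (by rintro rfl; exact htK.2 (by simp)))
              (aux w hw (by rintro rfl; exact htK.2 (by simp))) htK.1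
          · intro t ht t' ht' u hu htK
            rw [mem_del] at htK
            exact hLS.ce t (mem_of_mem_erase ht) t' (mem_of_mem_erase ht') u
              (aux u hu (by rintro rfl; exact htK.2 (by simp))) htK.1
        have hcl' : ∀ t ∈ T.erase v, ∀ t' ∈ T.erase v, {t, t'} ∈ del K v := by
          intro t ht t' ht'
          rw [mem_del]
          refine ⟨hcl t (mem_of_mem_erase ht) t' (mem_of_mem_erase ht'), ?_⟩
          simp only [mem_insert, mem_singleton, not_or]
          exact ⟨(ne_of_mem_erase ht).symm, (ne_of_mem_erase ht').symm⟩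
        refine ⟨fun h => by simp [h] at hvT, fun _ => ?_⟩
        have hflat : ∀ g : V → α, FlatOn (del K v) (T.erase v) ψ g → FlatOn K T ψ g := by
          intro g hg u w hu hw huw
          refine hg u w (fun h => hu (mem_of_mem_erase h)) (fun h => hw (mem_of_mem_erase h)) ?_
          rw [mem_del]
          refine ⟨huw, ?_⟩
          simp only [mem_insert, mem_singleton, not_or]
          exact ⟨fun h => hu (h ▸ hvT), fun h => hw (h ▸ hvT)⟩
        rcases (T.erase v).eq_empty_or_nonempty with hT | hT
        · obtain ⟨g, hg1, hg2⟩ := (hsec (T.erase v) α ψ col hdelLS hcl').1 hT x0 (col v x0)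
            (mem_del.2 ⟨hx0K, by simpa using hx0'.1⟩)
          refine ⟨g, hflat g hg1, ?_⟩
          intro t ht u hu htu
          have htv : t = v := by
            by_contra hne
            have : t ∈ T.erase v := mem_erase.2 ⟨hne, ht⟩
            rw [hT] at this
            simp at this
          subst htv
          have hut : t ≠ u := fun h => hu (h ▸ ht)
          refine hconnl (fun y => g y = col t y) ?_ x0 u hx0 ((mem_link' hL).2 ⟨hut, htu⟩) hg2
          intro x y hxy hx
          rw [mem_link2 hL] at hxy
          have hne : ∀ z, t ≠ z → z ∉ T := by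
            intro z hz hzT
            have : z ∈ T.erase t := mem_erase.2 ⟨hz.symm, hzT⟩
            rw [hT] at this
            simp at this
          have h1 := hflat g hg1 x y (hne x hxy.1) (hne y hxy.2.1) (hL.sub2 hxy.2.2).2.2.1
          rw [h1]
          show ψ x y (g x) = col t y
          rw [show g x = col t x from hx]
          exact hLS.cf t ht x y (hne x hxy.1) (hne y hxy.2.1) hxy.2.2
        · obtain ⟨g, hg1, hg2⟩ := (hsec (T.erase v) α ψ col hdelLS hcl').2 hT
          refine ⟨g, hflat g hg1, ?_⟩
          intro t ht u hu htu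
          have huv : v ≠ u := fun h => hu (h ▸ hvT)
          by_cases htv : t = v
          · subst htv
            obtain ⟨t0, ht0⟩ := hT
            have ht0l : {t0} ∈ link K t := (mem_link' hL).2 ⟨(ne_of_mem_erase ht0).symm,
              hcl t ht t0 (mem_of_mem_erase ht0)⟩
            have := hconnl (fun y => y ∈ T.erase t ∨ g y = col t y) ?_ t0 u ht0l
              ((mem_link' hL).2 ⟨huv, htu⟩) (Or.inl ht0)
            · rcases this with h1 | h1
              · exact absurd (mem_of_mem_erase h1) hu
              · exact h1
            · intro x y hxy hx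
              rw [mem_link2 hL] at hxy
              obtain ⟨h1, h2, h3⟩ := hxy
              by_cases hy : y ∈ T.erase t
              · exact Or.inl hy
              · right
                have hyT : y ∉ T := fun h => hy (mem_erase.2 ⟨h2.symm, h⟩)
                by_cases hxT : x ∈ T.erase t
                · rw [hg2 x hxT y hy (mem_del.2 ⟨(hL.sub2 h3).2.2.1, by simp [h1, h2]⟩)]
                  refine (hLS.ce t ht x (mem_of_mem_erase hxT) y hyT h3).symm
                · have hxT' : x ∉ T := fun h => hxT (mem_erase.2 ⟨h1.symm, h⟩)
                  rcases hx with hx | hx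
                  · exact absurd hx hxT
                  · rw [hflat g hg1 x y hxT' hyT (hL.sub2 h3).2.2.1, hx]
                    exact hLS.cf t ht x y hxT' hyT h3
          · refine hg2 t (mem_erase.2 ⟨htv, ht⟩) u (fun h => hu (mem_of_mem_erase h)) ?_
            rw [mem_del]
            refine ⟨htu, ?_⟩
            simp only [mem_insert, mem_singleton, not_or]
            exact ⟨fun h => htv h.symm, huv⟩
      · -- the removed vertex is not in `T`
        have hdelLS : LS (del K v) T ψ col :=
          ⟨fun u hu h => hLS.refl u hu (mem_del.1 h).1,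
            fun u x w hu hx hw h => hLS.comp u x w hu hx hw (mem_del.1 h).1,
            fun t ht u w hu hw h => hLS.cf t ht u w hu hw (mem_del.1 h).1,
            fun t ht t' ht' u hu h => hLS.ce t ht t' ht' u hu (mem_del.1 h).1⟩
        have hcl' : ∀ t ∈ T, ∀ t' ∈ T, {t, t'} ∈ del K v := by
          intro t ht t' ht'
          rw [mem_del]
          refine ⟨hcl t ht t' ht', ?_⟩
          simp only [mem_insert, mem_singleton, not_or]
          exact ⟨fun h => hvT (h ▸ ht), fun h => hvT (h ▸ ht')⟩
        -- the common value at `v`
        let φ : (V → α) → V → α := fun g y => if y ∈ T then col y v else ψ y v (g y)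
        have hφ : ∀ g : V → α, FlatOn (del K v) T ψ g → Extends (del K v) T col g →
            ∀ x, {x} ∈ link K v → φ g x = φ g x0 := by
          intro g hg1 hg2 x hx
          refine hconnl (fun y => φ g y = φ g x0) ?_ x0 x hx0 hx rfl
          intro x y hxy hx
          rw [mem_link2 hL] at hxy
          obtain ⟨h1, h2, h3⟩ := hxy
          have h4 : {x, y} ∈ del K v := mem_del.2 ⟨(hL.sub2 h3).2.2.1, by simp [h1, h2]⟩
          have h5 : {x, y, v} ∈ K := by
            have : ({x, y, v} : Finset V) = {v, x, y} := by ext a; simp only [mem_insert, mem_singleton]; tauto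
            rw [this]; exact h3
          have h6 : {y, x, v} ∈ K := by
            have : ({y, x, v} : Finset V) = {v, x, y} := by ext a; simp only [mem_insert, mem_singleton]; tauto
            rw [this]; exact h3
          have h7 : {y, x} ∈ del K v := by rwa [pair_comm]
          show φ g y = φ g x0
          rw [← show φ g x = φ g x0 from hx]
          show (if y ∈ T then col y v else ψ y v (g y)) = (if x ∈ T then col x v else ψ x v (g x))
          by_cases hxT : x ∈ T <;> by_cases hyT : y ∈ T
          · rw [if_pos hxT, if_pos hyT]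
            exact hLS.ce y hyT x hxT v hvT h6
          · rw [if_pos hxT, if_neg hyT, hg2 x hxT y hyT h4]
            exact hLS.cf x hxT y v hyT hvT h5
          · rw [if_neg hxT, if_pos hyT, hg2 y hyT x hxT h7]
            exact (hLS.cf y hyT x v hxT hvT h6).symm
          · rw [if_neg hxT, if_neg hyT, hg1 x y hxT hyT h4]
            exact hLS.comp x y v hxT hyT hvT h5 _
        have hext : ∀ g : V → α, FlatOn (del K v) T ψ g → Extends (del K v) T col g →
            FlatOn K T ψ (Function.update g v (φ g x0)) ∧
              Extends K T col (Function.update g v (φ g x0)) := by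
          intro g hg1 hg2
          have hval := hφ g hg1 hg2
          refine ⟨?_, ?_⟩
          · intro u w hu hw huw
            by_cases huv : u = v
            · by_cases hwv : w = v
              · subst huv
                subst hwv
                exact (hLS.refl w hvT hv _).symm
              · subst huv
                rw [Function.update_self, Function.update_of_ne hwv]
                have h1 := hval w ((mem_link' hL).2 ⟨fun h => hwv h.symm, huw⟩)
                rw [← h1]
                show g w = ψ u w (if w ∈ T then col w u else ψ w u (g w))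
                rw [if_neg hw]
                have h2 : {w, u, w} ∈ K := by
                  have : ({w, u, w} : Finset V) = {u, w} := by ext a; simp only [mem_insert, mem_singleton]; tauto
                  rw [this]; exact huw
                rw [hLS.comp w u w hw hu hw h2, hLS.refl w hw (hL.2 _ huw _ (by simp))]
            · by_cases hwv : w = v
              · subst hwv
                rw [Function.update_self, Function.update_of_ne huv]
                have h1 := hval u ((mem_link' hL).2 ⟨fun h => huv h.symm, by rwa [pair_comm]⟩)
                rw [← h1]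
                show (if u ∈ T then col u w else ψ u w (g u)) = ψ u w (g u)
                rw [if_neg hu]
              · rw [Function.update_of_ne hwv, Function.update_of_ne huv]
                refine hg1 u w hu hw (mem_del.2 ⟨huw, ?_⟩)
                simp only [mem_insert, mem_singleton, not_or]
                exact ⟨fun h => huv h.symm, fun h => hwv h.symm⟩
          · intro t ht u hu htu
            have htv : t ≠ v := fun h => hvT (h ▸ ht)
            by_cases huv : u = v
            · subst huv
              rw [Function.update_self]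
              have h1 := hval t ((mem_link' hL).2 ⟨htv.symm, by rwa [pair_comm]⟩)
              rw [← h1]
              show (if t ∈ T then col t u else ψ t u (g t)) = col t u
              rw [if_pos ht]
            · rw [Function.update_of_ne huv]
              refine hg2 t ht u hu (mem_del.2 ⟨htu, ?_⟩)
              simp only [mem_insert, mem_singleton, not_or]
              exact ⟨htv.symm, fun h => huv h.symm⟩
        obtain ⟨hs1, hs2⟩ := hsec T α ψ col hdelLS hcl'
        refine ⟨?_, ?_⟩
        · rintro rfl x c hx
          have hEx : ∀ g : V → α, Extends (del K v) ∅ col g := by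
            intro g t ht
            simp at ht
          by_cases hxv : x = v
          · subst hxv
            obtain ⟨g, hg1, hg2⟩ := hs1 rfl x0 (ψ x x0 c)
              (mem_del.2 ⟨hx0K, by simpa using hx0'.1⟩)
            refine ⟨_, (hext g hg1 (hEx g)).1, ?_⟩
            rw [Function.update_self]
            show (if x0 ∈ (∅ : Finset V) then col x0 x else ψ x0 x (g x0)) = c
            rw [if_neg (by simp), hg2]
            have h2 : {x, x0, x} ∈ K := by
              have : ({x, x0, x} : Finset V) = {x, x0} := by ext a; simp only [mem_insert, mem_singleton]; tauto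
              rw [this]; exact hx0'.2
            rw [hLS.comp x x0 x (by simp) (by simp) (by simp) h2, hLS.refl x (by simp) hv]
          · obtain ⟨g, hg1, hg2⟩ := hs1 rfl x c (mem_del.2 ⟨hx, by simpa using Ne.symm hxv⟩)
            refine ⟨_, (hext g hg1 (hEx g)).1, ?_⟩
            rw [Function.update_of_ne hxv]
            exact hg2
        · intro hT
          obtain ⟨g, hg1, hg2⟩ := hs2 hT
          exact ⟨_, hext g hg1 hg2⟩

end Pool.Agent.H933R3
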