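import Mathlib
import Pool.Agent.H933R3.Evas

set_option autoImplicit false

/-!
# Bit masks for families of subsets of `Fin n`, and a checker for collapses
-/

namespace Pool.Agent.H933R3

open Finset

/-- the bit mask of a subset of `Fin n` -/
def enc {n : ℕ} (σ : Finset (Fin n)) : ℕ := ∑ i ∈ σ.map Fin.valEmbedding, 2 ^ i

theorem testBit_enc' {n : ℕ} (σ : Finset (Fin n)) (k : ℕ) :
    (enc σ).testBit k = true ↔ ∃ i ∈ σ, (i : ℕ) = k := by
  rw [← Nat.mem_bitIndices, ← List.mem_toFinset, enc, Finset.toFinset_bitIndices_sum_two_pow,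
    mem_map]
  rfl

theorem testBit_enc {n : ℕ} (σ : Finset (Fin n)) (i : Fin n) :
    (enc σ).testBit i = true ↔ i ∈ σ := by
  rw [testBit_enc']
  constructor
  · rintro ⟨j, hj, h⟩
    exact (Fin.ext h : j = i) ▸ hj
  · exact fun h => ⟨i, h, rfl⟩

theorem testBit_enc_ge {n : ℕ} (σ : Finset (Fin n)) {k : ℕ} (hk : n ≤ k) :
    (enc σ).testBit k = false := by
  rw [← Bool.not_eq_true, testBit_enc']
  rintro ⟨i, _, h⟩
  have := i.2
  omega

theorem enc_injective {n : ℕ} : Function.Injective (enc (n := n)) := by
  intro σ τ h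
  ext i
  rw [← testBit_enc, h, testBit_enc]

theorem enc_insert {n : ℕ} (σ : Finset (Fin n)) (x : Fin n) :
    enc (insert x σ) = enc σ ||| 2 ^ (x : ℕ) := by
  apply Nat.eq_of_testBit_eq
  intro k
  rw [Nat.testBit_lor, Nat.testBit_two_pow]
  rcases Nat.lt_or_ge k n with hk | hk
  · have h1 := testBit_enc (insert x σ) ⟨k, hk⟩
    have h2 := testBit_enc σ ⟨k, hk⟩
    simp only [mem_insert] at h1
    rw [Bool.eq_iff_iff, h1, Bool.or_eq_true, decide_eq_true_eq, h2, Fin.ext_iff]
    tauto
  · rw [testBit_enc_ge _ hk, testBit_enc_ge _ hk]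
    have := x.2
    simp
    omega

theorem enc_lt {n : ℕ} (σ : Finset (Fin n)) : enc σ < 2 ^ n := by
  apply Nat.lt_pow_two_of_testBit
  intro i hi
  exact testBit_enc_ge σ hi

/-- the subset of `Fin n` with a given mask -/
def decF (n m : ℕ) : Finset (Fin n) := univ.filter (fun i => m.testBit i = true)

theorem mem_decF {n m : ℕ} {i : Fin n} : i ∈ decF n m ↔ m.testBit i = true := by
  simp [decF]

theorem enc_decF {n m : ℕ} (hm : m < 2 ^ n) : enc (decF n m) = m := by
  apply Nat.eq_of_testBit_eq
  intro k
  rcases Nat.lt_or_ge k n with hk | hk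
  · have h1 := testBit_enc (decF n m) ⟨k, hk⟩
    rw [mem_decF] at h1
    rw [Bool.eq_iff_iff]
    exact h1
  · rw [testBit_enc_ge _ hk, Nat.testBit_eq_false_of_lt
      (hm.trans_le (Nat.pow_le_pow_right (by norm_num) hk))]

theorem decF_enc {n : ℕ} (σ : Finset (Fin n)) : decF n (enc σ) = σ := by
  ext i
  rw [mem_decF, testBit_enc]

theorem subset_decF {n : ℕ} (σ : Finset (Fin n)) (m : ℕ) :
    σ ⊆ decF n m ↔ enc σ &&& m = enc σ := by
  constructor
  · intro h
    apply Nat.eq_of_testBit_eq
    intro k
    rw [Nat.testBit_land]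
    rcases Nat.lt_or_ge k n with hk | hk
    · by_cases h1 : (enc σ).testBit k = true
      · have h2 := h ((testBit_enc σ ⟨k, hk⟩).1 h1)
        rw [mem_decF] at h2
        simp only [h1, Bool.true_and]
        exact h2
      · rw [Bool.not_eq_true] at h1
        rw [h1, Bool.false_and]
    · rw [testBit_enc_ge _ hk, Bool.false_and]
  · intro h i hi
    rw [mem_decF]
    have h1 := (testBit_enc σ i).2 hi
    rw [← h, Nat.testBit_land, Bool.and_eq_true] at h1
    exact h1.2

/-- the family of subsets of `Fin n` whose masks are the positions of the ones of `N` -/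
def fam (n N : ℕ) : Finset (Finset (Fin n)) := univ.filter (fun σ => N.testBit (enc σ) = true)

theorem mem_fam {n N : ℕ} {σ : Finset (Fin n)} : σ ∈ fam n N ↔ N.testBit (enc σ) = true := by
  simp [fam]

/-- the number whose ones are at the positions listed in `l` -/
def bitset : List ℕ → ℕ
  | [] => 0
  | m :: l => bitset l ||| 2 ^ m

theorem testBit_bitset (l : List ℕ) (k : ℕ) : (bitset l).testBit k = true ↔ k ∈ l := by
  induction l with
  | nil => simp [bitset]
  | cons m l ih =>
    rw [bitset, Nat.testBit_lor, Nat.testBit_two_pow, Bool.or_eq_true, ih, List.mem_cons,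
      decide_eq_true_eq]
    constructor
    · rintro (h | h)
      · exact Or.inr h
      · exact Or.inl h.symm
    · rintro (h | h)
      · exact Or.inr h.symm
      · exact Or.inl h

/-- all submasks of `m` using only the bits below `n` -/
def subs (m : ℕ) : ℕ → List ℕ
  | 0 => [0]
  | n + 1 => if m.testBit n then subs m n ++ (subs m n).map (fun s => s ||| 2 ^ n) else subs m n

theorem mem_subs (m : ℕ) (n : ℕ) (s : ℕ) : s ∈ subs m n ↔ s < 2 ^ n ∧ s &&& m = s := by
  induction n generalizing s with
  | zero =>
    simp only [subs, List.mem_singleton, pow_zero, Nat.lt_one_iff]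
    constructor
    · rintro rfl; simp
    · exact fun h => h.1
  | succ n ih =>
    have hlt : ∀ s, s < 2 ^ n → s < 2 ^ (n + 1) := fun s h =>
      h.trans (Nat.pow_lt_pow_right (by norm_num) (by omega))
    rw [subs]
    split_ifs with h
    · rw [List.mem_append, List.mem_map]
      constructor
      · rintro (h1 | ⟨s', h1, rfl⟩)
        · rw [ih] at h1
          exact ⟨hlt _ h1.1, h1.2⟩
        · rw [ih] at h1
          refine ⟨Nat.or_lt_two_pow (hlt _ h1.1) (Nat.pow_lt_pow_right (by norm_num) (by omega)), ?_⟩
          rw [Nat.and_or_distrib_right, h1.2]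
          congr 1
          apply Nat.eq_of_testBit_eq
          intro k
          rw [Nat.testBit_land, Nat.testBit_two_pow]
          by_cases hk : n = k
          · subst hk; simp [h]
          · simp [hk]
      · rintro ⟨h1, h2⟩
        by_cases hs : s.testBit n = true
        · right
          refine ⟨s ^^^ 2 ^ n, ?_, ?_⟩
          · rw [ih]
            constructor
            · apply Nat.lt_pow_two_of_testBit
              intro i hi
              rw [Nat.testBit_xor, Nat.testBit_two_pow]
              rcases Nat.eq_or_lt_of_le hi with hi | hi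
              · subst hi; simp [hs]
              · rw [Nat.testBit_eq_false_of_lt
                  (h1.trans_le (Nat.pow_le_pow_right (by norm_num) hi))]
                simp; omega
            · apply Nat.eq_of_testBit_eq
              intro k
              have h3 := congrArg (fun z => Nat.testBit z k) h2
              simp only [Nat.testBit_land] at h3
              rw [Nat.testBit_land, Nat.testBit_xor, Nat.testBit_two_pow]
              by_cases hk : n = k
              · subst hk; simp [hs]
              · simpa [hk] using h3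
          · apply Nat.eq_of_testBit_eq
            intro k
            rw [Nat.testBit_lor, Nat.testBit_xor, Nat.testBit_two_pow]
            by_cases hk : n = k
            · subst hk; simp [hs]
            · simp [hk]
        · left
          rw [ih]
          refine ⟨?_, h2⟩
          apply Nat.lt_pow_two_of_testBit
          intro i hi
          rcases Nat.eq_or_lt_of_le hi with hi | hi
          · subst hi; simpa using hs
          · exact Nat.testBit_eq_false_of_lt
              (h1.trans_le (Nat.pow_le_pow_right (by norm_num) hi))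
    · rw [ih]
      constructor
      · exact fun h1 => ⟨hlt _ h1.1, h1.2⟩
      · rintro ⟨h1, h2⟩
        refine ⟨?_, h2⟩
        have hs : s.testBit n = false := by
          have h3 := congrArg (fun z => Nat.testBit z n) h2
          simp only [Nat.testBit_land] at h3
          rw [Bool.not_eq_true] at h
          rw [h, Bool.and_false] at h3
          exact h3.symm
        apply Nat.lt_pow_two_of_testBit
        intro i hi
        rcases Nat.eq_or_lt_of_le hi with hi | hi
        · subst hi; exact hs
        · exact Nat.testBit_eq_false_of_lt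
            (h1.trans_le (Nat.pow_le_pow_right (by norm_num) hi))

/-- the complex on `Fin n` generated by the facets with the masks in `l` -/
def cx (n : ℕ) (l : List ℕ) : Finset (Finset (Fin n)) :=
  univ.filter (fun σ => ∃ m ∈ l, σ ⊆ decF n m)

theorem mem_cx {n : ℕ} {l : List ℕ} {σ : Finset (Fin n)} :
    σ ∈ cx n l ↔ ∃ m ∈ l, σ ⊆ decF n m := by
  simp [cx]

theorem isCx_cx {n : ℕ} {l : List ℕ} (hl : l ≠ []) : IsCx (cx n l) := by
  constructor
  · obtain ⟨m, hm⟩ := List.exists_mem_of_ne_nil l hl
    exact mem_cx.2 ⟨m, hm, by simp⟩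
  · intro σ hσ τ hτ
    obtain ⟨m, hm, h⟩ := mem_cx.1 hσ
    exact mem_cx.2 ⟨m, hm, hτ.trans h⟩

/-- masks of all faces of the complex generated by `l` -/
def faceMasks (n : ℕ) (l : List ℕ) : List ℕ := l.flatMap (fun m => subs m n)

theorem cx_eq_fam (n : ℕ) (l : List ℕ) : cx n l = fam n (bitset (faceMasks n l)) := by
  ext σ
  rw [mem_cx, mem_fam, testBit_bitset, faceMasks, List.mem_flatMap]
  constructor
  · rintro ⟨m, hm, h⟩
    exact ⟨m, hm, (mem_subs _ _ _).2 ⟨enc_lt σ, (subset_decF σ m).1 h⟩⟩
  · rintro ⟨m, hm, h⟩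
    exact ⟨m, hm, (subset_decF σ m).2 ((mem_subs _ _ _).1 h).2⟩

/-! ### Collapses -/

/-- collapsible complexes -/
inductive Collapsible {V : Type} [DecidableEq V] : Finset (Finset V) → Prop
  | point (v : V) : Collapsible {∅, {v}}
  | step (L : Finset (Finset V)) (σ τ : Finset V) (hσ : σ ∈ L) (hτ : τ ∈ L) (hστ : σ ⊂ τ)
      (hc : τ.card = σ.card + 1) (hf : ∀ ρ ∈ L, σ ⊆ ρ → ρ = σ ∨ ρ = τ)
      (h : Collapsible ((L.erase σ).erase τ)) : Collapsible L

/-- the face with mask `s` is free in the face obtained by adding `x` -/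
def stepB (n N : ℕ) (p : ℕ × ℕ) : Bool :=
  decide (0 < p.1) && decide (p.1 < 2 ^ n) && decide (p.2 < n) && N.testBit p.1 && !(p.1.testBit p.2) &&
    N.testBit (p.1 ||| 2 ^ p.2) &&
    (List.range n).all (fun y => y == p.2 || p.1.testBit y || !(N.testBit (p.1 ||| 2 ^ y)))

def nextB (N : ℕ) (p : ℕ × ℕ) : ℕ := N ^^^ 2 ^ p.1 ^^^ 2 ^ (p.1 ||| 2 ^ p.2)

def collB (n : ℕ) (v : ℕ) : ℕ → List (ℕ × ℕ) → Bool
  | N, [] => decide (v < n) && (N == 1 ^^^ 2 ^ 2 ^ v)
  | N, p :: l => stepB n N p && collB n v (nextB N p) l

theorem fam_next {n N s t : ℕ} (hs : s < 2 ^ n) (ht : t < 2 ^ n) (hst : s ≠ t)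
    (hNs : N.testBit s = true) (hNt : N.testBit t = true) :
    fam n (N ^^^ 2 ^ s ^^^ 2 ^ t) = ((fam n N).erase (decF n s)).erase (decF n t) := by
  ext σ
  rw [mem_fam, mem_erase, mem_erase, mem_fam, Nat.testBit_xor, Nat.testBit_xor,
    Nat.testBit_two_pow, Nat.testBit_two_pow]
  have e1 : σ ≠ decF n s ↔ s ≠ enc σ := by
    rw [Ne, Ne, not_iff_not]
    constructor
    · rintro rfl; exact (enc_decF hs).symm
    · rintro rfl; exact (decF_enc σ).symm
  have e2 : σ ≠ decF n t ↔ t ≠ enc σ := by
    rw [Ne, Ne, not_iff_not]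
    constructor
    · rintro rfl; exact (enc_decF ht).symm
    · rintro rfl; exact (decF_enc σ).symm
  rw [e1, e2]
  by_cases h1 : s = enc σ
  · have h2 : t ≠ enc σ := fun h => hst (h1.trans h.symm)
    simp [← h1, hNs, hst.symm]
  · by_cases h2 : t = enc σ
    · simp [← h2, hNt, hst]
    · simp [h1, h2]

theorem collB_sound (n v : ℕ) (l : List (ℕ × ℕ)) : ∀ N : ℕ, IsCx (fam n N) →
    collB n v N l = true → Collapsible (fam n N) := by
  induction l with
  | nil =>
    intro N _ h
    rw [collB, Bool.and_eq_true, decide_eq_true_eq, beq_iff_eq] at h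
    obtain ⟨hv, rfl⟩ := h
    have : fam n (1 ^^^ 2 ^ 2 ^ v) = {∅, {(⟨v, hv⟩ : Fin n)}} := by
      have h0 : enc (∅ : Finset (Fin n)) = 0 := by simp [enc]
      have h1 : enc ({(⟨v, hv⟩ : Fin n)} : Finset (Fin n)) = 2 ^ v := by simp [enc]
      ext σ
      rw [mem_fam, mem_insert, mem_singleton, Nat.testBit_xor, Nat.testBit_two_pow]
      have e1 : σ = ∅ ↔ enc σ = 0 := by
        rw [← h0]; exact enc_injective.eq_iff.symm
      have e2 : σ = {(⟨v, hv⟩ : Fin n)} ↔ enc σ = 2 ^ v := by
        rw [← h1]; exact enc_injective.eq_iff.symm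
      rw [e1, e2]
      have h3 : (1 : ℕ).testBit (enc σ) = decide (enc σ = 0) := by
        rcases Nat.eq_zero_or_pos (enc σ) with h | h
        · rw [h]; rfl
        · have h4 : (1 : ℕ).testBit (enc σ) = false := by
            apply Nat.testBit_eq_false_of_lt
            exact Nat.one_lt_two_pow (by omega)
          rw [h4]
          simp
          omega
      rw [h3]
      by_cases h4 : enc σ = 0
      · have : ¬ (2 ^ v = enc σ) := by
          rw [h4]
          positivity
        simp [h4]
      · simp [h4, eq_comm]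
    rw [this]
    exact Collapsible.point _
  | cons p l ih =>
    intro N hN h
    obtain ⟨s, x⟩ := p
    rw [collB, Bool.and_eq_true] at h
    obtain ⟨h1, h2⟩ := h
    simp only [stepB, Bool.and_eq_true, decide_eq_true_eq, List.all_eq_true, List.mem_range,
      Bool.or_eq_true, beq_iff_eq, Bool.not_eq_true'] at h1
    obtain ⟨⟨⟨⟨⟨⟨hs0, hs⟩, hx⟩, hNs⟩, hsx⟩, hNt⟩, hfree⟩ := h1
    set t := s ||| 2 ^ x with ht
    have htlt : t < 2 ^ n := Nat.or_lt_two_pow hs (Nat.pow_lt_pow_right (by norm_num) hx)
    have hst : s ≠ t := by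
      intro h
      have : t.testBit x = true := by rw [ht]; simp
      rw [← h, hsx] at this
      exact absurd this (by decide)
    have hxs : (⟨x, hx⟩ : Fin n) ∉ decF n s := by
      rw [mem_decF]; simp [hsx]
    have htd : decF n t = insert ⟨x, hx⟩ (decF n s) := by
      apply enc_injective
      rw [enc_decF htlt, enc_insert, enc_decF hs]
    have hfr : ∀ ρ ∈ fam n N, decF n s ⊆ ρ → ρ = decF n s ∨ ρ = decF n t := by
      intro ρ hρ hsρ
      -- every vertex of `ρ` outside `s` is `x`
      have key : ∀ y ∈ ρ, y ∉ decF n s → y = ⟨x, hx⟩ := by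
        intro y hy hys
        have h3 : insert y (decF n s) ∈ fam n N :=
          hN.2 ρ hρ _ (insert_subset hy hsρ)
        rw [mem_fam, enc_insert, enc_decF hs] at h3
        rw [mem_decF, Bool.not_eq_true] at hys
        rcases hfree y y.2 with (h4 | h4) | h4
        · exact Fin.ext h4
        · rw [hys] at h4; exact absurd h4 (by decide)
        · rw [h4] at h3; exact absurd h3 (by decide)
      by_cases hxρ : (⟨x, hx⟩ : Fin n) ∈ ρ
      · right
        rw [htd]
        apply Subset.antisymm
        · intro y hy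
          by_cases hys : y ∈ decF n s
          · exact mem_insert_of_mem hys
          · rw [key y hy hys]; exact mem_insert_self _ _
        · exact insert_subset hxρ hsρ
      · left
        apply Subset.antisymm _ hsρ
        intro y hy
        by_contra hys
        exact hxρ (key y hy hys ▸ hy)
    have hfam := fam_next hs htlt hst hNs hNt
    refine Collapsible.step (fam n N) (decF n s) (decF n t) ?_ ?_ ?_ ?_ hfr ?_
    · rw [mem_fam, enc_decF hs]; exact hNs
    · rw [mem_fam, enc_decF htlt]; exact hNt
    · rw [htd]; exact ssubset_insert hxs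
    · rw [htd, card_insert_of_notMem hxs]
    · rw [← hfam]
      refine ih _ ?_ h2
      show IsCx (fam n (N ^^^ 2 ^ s ^^^ 2 ^ t))
      rw [hfam]
      constructor
      · rw [mem_erase, mem_erase]
        refine ⟨?_, ?_, hN.1⟩
        · rw [htd]
          exact (insert_ne_empty _ _).symm
        · -- the empty face is not removed
          intro h0
          have h3 := enc_decF hs
          rw [← h0] at h3
          simp [enc] at h3
          omega
      · intro σ hσ τ hτ
        rw [mem_erase, mem_erase] at hσ ⊢
        refine ⟨?_, ?_, hN.2 σ hσ.2.2 τ hτ⟩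
        · rintro rfl
          have h5 : decF n s ⊆ σ := by
            refine Subset.trans ?_ hτ
            rw [htd]; exact subset_insert _ _
          rcases hfr σ hσ.2.2 h5 with h6 | h6
          · exact hσ.2.1 h6
          · exact hσ.1 h6
        · rintro rfl
          rcases hfr σ hσ.2.2 hτ with h6 | h6
          · exact hσ.2.1 h6
          · exact hσ.1 h6

end Pool.Agent.H933R3
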