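import Mathlib
import Pool.Agent.Helper175.NS.Sub
import Pool.Agent.H933R3.Bits
import Pool.Agent.H933R3.Ball

set_option autoImplicit false

/-!
# Certified homeomorphisms between realizations of complexes
-/

namespace Pool.Agent.H933R3

open Finset Pool.Agent.Helper175.NS

/-- facets given by masks -/
def FS (n : ℕ) (l : List ℕ) : Finset (Finset (Fin n)) := (l.map (decF n)).toFinset

theorem mem_FS {n : ℕ} {l : List ℕ} {F : Finset (Fin n)} : F ∈ FS n l ↔ ∃ m ∈ l, decF n m = F := by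
  rw [FS, List.mem_toFinset, List.mem_map]

theorem realization_cx (n : ℕ) (l : List ℕ) : realization (cx n l) = Sp (FS n l) := by
  ext x
  constructor
  · rintro ⟨h0, h1, σ, hσ, h2⟩
    obtain ⟨m, hm, h3⟩ := mem_cx.1 hσ
    refine ⟨h0, decF n m, mem_FS.2 ⟨m, hm, rfl⟩, fun i hi => h2 i (fun h => hi (h3 h)), ?_⟩
    rw [← h1]
    exact sum_subset (subset_univ _) (fun i _ hi => h2 i (fun h => hi (h3 h)))
  · rintro ⟨h0, F, hF, h1, h2⟩
    obtain ⟨m, hm, rfl⟩ := mem_FS.1 hF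
    refine ⟨h0, ?_, decF n m, mem_cx.2 ⟨m, hm, Subset.refl _⟩, h1⟩
    rw [← h2]
    exact (sum_subset (subset_univ _) (fun i _ hi => h1 i hi)).symm

/-- the indices of the ones of `m` -/
def bitsN (n m : ℕ) : List ℕ := (List.range n).filter (fun i => m.testBit i)

theorem mem_bitsN {n m i : ℕ} : i ∈ bitsN n m ↔ i < n ∧ m.testBit i = true := by
  rw [bitsN, List.mem_filter, List.mem_range]

/-- stellar subdivision at `ρ` with the new vertex `15` -/
def starN (l : List ℕ) (ρ : ℕ) : List ℕ :=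
  l.flatMap (fun m => if m &&& ρ = ρ then (bitsN 16 ρ).map (fun z => (m ^^^ 2 ^ z) ||| 2 ^ 15)
    else [m])

theorem decF_swap {m : ℕ} {z v : Fin 16} (hz : z ∈ decF 16 m) (hzv : z ≠ v) :
    decF 16 ((m ^^^ 2 ^ (z : ℕ)) ||| 2 ^ (v : ℕ)) = insert v ((decF 16 m).erase z) := by
  rw [mem_decF] at hz
  ext n
  rw [mem_insert, mem_erase, mem_decF, mem_decF, Nat.testBit_lor, Nat.testBit_xor,
    Nat.testBit_two_pow, Nat.testBit_two_pow]
  by_cases h1 : n = v
  · subst h1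
    simp
  · by_cases h2 : n = z
    · subst h2
      have h3 : ¬ (v : ℕ) = (n : ℕ) := fun h => hzv (Fin.ext h.symm)
      simp [hz, h1, h3]
    · have h3 : ¬ (v : ℕ) = (n : ℕ) := fun h => h1 (Fin.ext h.symm)
      have h4 : ¬ (z : ℕ) = (n : ℕ) := fun h => h2 (Fin.ext h.symm)
      simp [h1, h2, h3, h4]

theorem land_iff {m ρ : ℕ} (hρ : ρ < 2 ^ 16) : m &&& ρ = ρ ↔ decF 16 ρ ⊆ decF 16 m := by
  rw [subset_decF, enc_decF hρ, Nat.land_comm]

theorem FS_starN (l : List ℕ) (ρ : ℕ) (hρ : ρ < 2 ^ 15) :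
    FS 16 (starN l ρ) = star (FS 16 l) (decF 16 ρ) 15 := by
  have hρ' : ρ < 2 ^ 16 := hρ.trans (by norm_num)
  have h15 : (15 : Fin 16) ∉ decF 16 ρ := by
    rw [mem_decF]
    intro h
    rw [Nat.testBit_eq_false_of_lt (by exact hρ)] at h
    exact absurd h (by decide)
  ext A
  rw [mem_FS, mem_star]
  constructor
  · rintro ⟨m', hm', rfl⟩
    rw [starN, List.mem_flatMap] at hm'
    obtain ⟨m, hm, h1⟩ := hm'
    split_ifs at h1 with h2
    · rw [List.mem_map] at h1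
      obtain ⟨z, hz, rfl⟩ := h1
      rw [mem_bitsN] at hz
      have h3 := (land_iff hρ').1 h2
      have hzρ : (⟨z, hz.1⟩ : Fin 16) ∈ decF 16 ρ := by rw [mem_decF]; exact hz.2
      right
      refine ⟨decF 16 m, mem_FS.2 ⟨m, hm, rfl⟩, h3, ⟨z, hz.1⟩, hzρ, ?_⟩
      have := decF_swap (m := m) (z := ⟨z, hz.1⟩) (v := 15) (h3 hzρ)
        (fun h => h15 (by rw [← h]; exact hzρ))
      rw [← this]
      rfl
    · rw [List.mem_singleton] at h1
      subst h1
      left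
      exact ⟨mem_FS.2 ⟨m', hm, rfl⟩, fun h => h2 ((land_iff hρ').2 h)⟩
  · rintro (⟨h1, h2⟩ | ⟨F, h1, h2, z, hz, rfl⟩)
    · obtain ⟨m, hm, rfl⟩ := mem_FS.1 h1
      refine ⟨m, ?_, rfl⟩
      rw [starN, List.mem_flatMap]
      refine ⟨m, hm, ?_⟩
      rw [if_neg (fun h => h2 ((land_iff hρ').1 h))]
      exact List.mem_singleton_self _
    · obtain ⟨m, hm, rfl⟩ := mem_FS.1 h1
      refine ⟨(m ^^^ 2 ^ (z : ℕ)) ||| 2 ^ 15, ?_, ?_⟩
      · rw [starN, List.mem_flatMap]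
        refine ⟨m, hm, ?_⟩
        rw [if_pos ((land_iff hρ').2 h2), List.mem_map]
        exact ⟨z, mem_bitsN.2 ⟨z.2, mem_decF.1 hz⟩, rfl⟩
      · exact decF_swap (v := 15) (h2 hz) (fun h => h15 (by rw [← h]; exact hz))

def sameN (l l' : List ℕ) : Bool :=
  l.all (fun m => l'.contains m) && l'.all (fun m => l.contains m)

theorem FS_of_sameN {n : ℕ} {l l' : List ℕ} (h : sameN l l' = true) : FS n l = FS n l' := by
  rw [sameN, Bool.and_eq_true, List.all_eq_true, List.all_eq_true] at h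
  ext A
  rw [mem_FS, mem_FS]
  constructor
  · rintro ⟨m, hm, rfl⟩
    exact ⟨m, by simpa using h.1 m hm, rfl⟩
  · rintro ⟨m, hm, rfl⟩
    exact ⟨m, by simpa using h.2 m hm, rfl⟩

/-- replace `ρ * ∂ρ' * Θ` by `∂ρ * ρ' * Θ` -/
def exch (l : List ℕ) (ρ ρ' : ℕ) : List ℕ :=
  l.filter (fun m => !(decide (m &&& ρ = ρ))) ++
    (l.filter (fun m => decide (m &&& ρ = ρ) && !(m.testBit ((bitsN 16 ρ').headD 0)))).flatMap
      (fun m => (bitsN 16 ρ).map (fun a => (m ||| ρ') ^^^ 2 ^ a))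

def okN (l l' : List ℕ) (ρ ρ' : ℕ) : Bool :=
  sameN (starN l ρ) (starN l' ρ') && l'.all (fun m => decide (m < 2 ^ 15)) &&
    decide (ρ < 2 ^ 15) && decide (ρ' < 2 ^ 15) && decide (0 < ρ) && decide (0 < ρ')

def chainN : List ℕ → List (ℕ × ℕ) → List ℕ → Bool
  | l, [], t => sameN l t
  | l, r :: ms, t => okN l (exch l r.1 r.2) r.1 r.2 && chainN (exch l r.1 r.2) ms t

theorem decF_nonempty {ρ : ℕ} (h0 : 0 < ρ) (h : ρ < 2 ^ 16) : (decF 16 ρ).Nonempty := by
  rw [nonempty_iff_ne_empty]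
  intro he
  have := enc_decF h
  rw [he] at this
  simp [enc] at this
  omega

theorem chain_homeoN (ms : List (ℕ × ℕ)) :
    ∀ (l t : List ℕ), (∀ m ∈ l, m < 2 ^ 15) → chainN l ms t = true →
      Nonempty (Sp (FS 16 l) ≃ₜ Sp (FS 16 t)) := by
  induction ms with
  | nil =>
    intro l t _ h
    rw [chainN] at h
    rw [FS_of_sameN h]
    exact ⟨Homeomorph.refl _⟩
  | cons r ms ih =>
    intro l t hl h
    rw [chainN, Bool.and_eq_true] at h
    obtain ⟨h1, h2⟩ := h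
    simp only [okN, Bool.and_eq_true, decide_eq_true_eq, List.all_eq_true] at h1
    obtain ⟨⟨⟨⟨⟨h3, h4⟩, h5⟩, h6⟩, h7⟩, h8⟩ := h1
    obtain ⟨e1⟩ := ih (exch l r.1 r.2) t h4 h2
    have hlt : (2 : ℕ) ^ 15 < 2 ^ 16 := by norm_num
    have hnot : ∀ m, m < 2 ^ 15 → (15 : Fin 16) ∉ decF 16 m := by
      intro m hm h
      rw [mem_decF, Nat.testBit_eq_false_of_lt (by exact hm)] at h
      exact absurd h (by decide)
    have h15 : ∀ l' : List ℕ, (∀ m ∈ l', m < 2 ^ 15) → ∀ β ∈ FS 16 l', (15 : Fin 16) ∉ β := by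
      intro l' hl' β hβ
      obtain ⟨m, hm, rfl⟩ := mem_FS.1 hβ
      exact hnot m (hl' m hm)
    obtain ⟨e2⟩ := star_homeo (FS 16 l) (decF 16 r.1) 15 (decF_nonempty h7 (h5.trans hlt))
      (h15 l hl) (hnot _ h5)
    obtain ⟨e3⟩ := star_homeo (FS 16 (exch l r.1 r.2)) (decF 16 r.2) 15
      (decF_nonempty h8 (h6.trans hlt)) (h15 _ h4) (hnot _ h6)
    rw [← FS_starN _ _ h5] at e2
    rw [← FS_starN _ _ h6, ← FS_of_sameN h3] at e3
    exact ⟨(e2.symm.trans e3).trans e1⟩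

theorem FS_image {n : ℕ} (hn : n ≤ 16) {l : List ℕ} (hl : ∀ m ∈ l, m < 2 ^ n) :
    (FS n l).image (fun F => F.image (Fin.castLE hn)) = FS 16 l := by
  have key : ∀ m ∈ l, (decF n m).image (Fin.castLE hn) = decF 16 m := by
    intro m hm
    ext k
    rw [mem_image, mem_decF]
    constructor
    · rintro ⟨i, hi, rfl⟩
      rw [mem_decF] at hi
      exact hi
    · intro hk
      have hkn : (k : ℕ) < n := by
        by_contra hcon
        rw [Nat.testBit_eq_false_of_lt ((hl m hm).trans_le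
          (Nat.pow_le_pow_right (by norm_num) (by omega)))] at hk
        exact absurd hk (by decide)
      exact ⟨⟨k, hkn⟩, by rw [mem_decF]; exact hk, rfl⟩
  ext A
  rw [mem_image, mem_FS]
  constructor
  · rintro ⟨F, hF, rfl⟩
    obtain ⟨m, hm, rfl⟩ := mem_FS.1 hF
    exact ⟨m, hm, (key m hm).symm⟩
  · rintro ⟨m, hm, rfl⟩
    exact ⟨decF n m, mem_FS.2 ⟨m, hm, rfl⟩, key m hm⟩

/-- a complex that can be transformed into a single simplex is a ball -/
theorem isBall_of_chain {n d : ℕ} (hn : n ≤ 15) {l : List ℕ} (hl : ∀ m ∈ l, m < 2 ^ n)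
    {ms : List (ℕ × ℕ)} {m0 : ℕ} (h : chainN l ms [m0] = true) (hc : (decF 16 m0).card = d + 1) :
    IsBall d (cx n l) := by
  have hn' : n ≤ 16 := by omega
  obtain ⟨e1⟩ := relabel_homeo (FS n l) (Fin.castLE hn') univ (fun F _ => subset_univ F)
    (Fin.castLE_injective hn').injOn
  rw [FS_image hn' hl] at e1
  obtain ⟨e2⟩ := chain_homeoN ms l [m0]
    (fun m hm => (hl m hm).trans_le (Nat.pow_le_pow_right (by norm_num) hn)) h
  obtain ⟨e3⟩ := simplex_ball (decF 16 m0) d hc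
  have h1 : FS 16 [m0] = {decF 16 m0} := by
    ext A
    rw [mem_FS]
    simp [eq_comm]
  rw [h1] at e2
  unfold IsBall
  rw [realization_cx]
  exact ⟨(e1.symm.trans e2).trans e3⟩

end Pool.Agent.H933R3
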