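import Mathlib
import Pool.Agent.Helper175.NS.Local
import Pool.Agent.H933R3.Bits

set_option autoImplicit false

/-!
# An evasive 3-ball with a knotted triangle, and evasiveness of suspensions
-/

namespace Pool.Agent.H933R3

open Finset Pool.Agent.Helper175.NS

theorem Bm_small : ∀ m ∈ Bm, m < 8192 := by decide

theorem mem_dec_of {n m : ℕ} (hm : m ∈ Bm) {u : Fin n} (hu : u ∈ decF n m) : (u : ℕ) ∈ dec m := by
  rw [mem_decF] at hu
  rw [mem_dec]
  refine ⟨?_, hu⟩
  by_contra h
  have h1 := Bm_small m hm
  rw [Nat.testBit_eq_false_of_lt] at hu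
  · exact absurd hu (by decide)
  · calc m < 2 ^ 13 := by norm_num; exact h1
      _ ≤ 2 ^ (u : ℕ) := Nat.pow_le_pow_right (by norm_num) (by omega)

/-- the three vertices of the knotted triangle -/
def TT (n : ℕ) : Finset (Fin n) := univ.filter (fun i => KK (i : ℕ))

theorem mem_TT {n : ℕ} {i : Fin n} : i ∈ TT n ↔ KK (i : ℕ) := by simp [TT]

theorem edge_mem {n : ℕ} {a b : Fin n} (m : ℕ) (hm : m ∈ Bm) (ha : m.testBit a = true)
    (hb : m.testBit b = true) : {a, b} ∈ cx n Bm := by
  refine mem_cx.2 ⟨m, hm, ?_⟩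
  intro x hx
  rw [mem_insert, mem_singleton] at hx
  rw [mem_decF]
  rcases hx with rfl | rfl <;> assumption

theorem evasive_B (n : ℕ) (hn : 13 ≤ n) : ¬ NonEvasive (cx n Bm) := by
  intro h
  have hcx : IsCx (cx n Bm) := isCx_cx (by decide)
  obtain ⟨-, hs⟩ := nonEvasive_sections h hcx
  have good : ∀ σ ∈ cx n Bm, ∃ m ∈ Bm, ∀ x ∈ σ, (x : ℕ) ∈ dec m := by
    intro σ hσ
    obtain ⟨m, hm, hσm⟩ := mem_cx.1 hσ
    exact ⟨m, hm, fun x hx => mem_dec_of hm (hσm hx)⟩
  have hLS : LS (cx n Bm) (TT n) (fun u v => psi (u : ℕ) (v : ℕ))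
      (fun t u => col (t : ℕ) (u : ℕ)) := by
    refine ⟨?_, ?_, ?_, ?_⟩
    · intro u hu huL c
      obtain ⟨m, hm, hx⟩ := good _ huL
      exact (good_dec hm).refl u (hx u (by simp)) (fun h => hu (mem_TT.2 h)) c
    · intro u v w hu hv hw hL c
      obtain ⟨m, hm, hx⟩ := good _ hL
      exact (good_dec hm).coc u (hx u (by simp)) v (hx v (by simp)) w (hx w (by simp))
        (fun h => hu (mem_TT.2 h)) (fun h => hv (mem_TT.2 h)) (fun h => hw (mem_TT.2 h)) c
    · intro t ht u v hu hv hL
      obtain ⟨m, hm, hx⟩ := good _ hL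
      exact (good_dec hm).colf t (hx t (by simp)) (mem_TT.1 ht) u (hx u (by simp)) v
        (hx v (by simp)) (fun h => hu (mem_TT.2 h)) (fun h => hv (mem_TT.2 h))
    · intro t ht t' ht' u hu hL
      obtain ⟨m, hm, hx⟩ := good _ hL
      exact (good_dec hm).cole t (hx t (by simp)) t' (hx t' (by simp)) (mem_TT.1 ht)
        (mem_TT.1 ht') u (hx u (by simp)) (fun h => hu (mem_TT.2 h))
  have hcl : ∀ t ∈ TT n, ∀ t' ∈ TT n, {t, t'} ∈ cx n Bm := by
    intro t ht t' ht'
    rw [mem_TT] at ht ht'
    unfold KK at ht ht'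
    rcases ht with h1 | h1 | h1 <;> rcases ht' with h2 | h2 | h2
    · exact edge_mem 3152 (by decide) (by rw [h1]; decide) (by rw [h2]; decide)
    · exact edge_mem 3152 (by decide) (by rw [h1]; decide) (by rw [h2]; decide)
    · exact edge_mem 5130 (by decide) (by rw [h1]; decide) (by rw [h2]; decide)
    · exact edge_mem 3152 (by decide) (by rw [h1]; decide) (by rw [h2]; decide)
    · exact edge_mem 3152 (by decide) (by rw [h1]; decide) (by rw [h2]; decide)
    · exact edge_mem 6149 (by decide) (by rw [h1]; decide) (by rw [h2]; decide)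
    · exact edge_mem 5130 (by decide) (by rw [h1]; decide) (by rw [h2]; decide)
    · exact edge_mem 6149 (by decide) (by rw [h1]; decide) (by rw [h2]; decide)
    · exact edge_mem 6149 (by decide) (by rw [h1]; decide) (by rw [h2]; decide)
  obtain ⟨g, hg1, -⟩ := (hs (TT n) (Fin 3) _ _ hLS hcl).2
    ⟨⟨10, by omega⟩, mem_TT.2 (Or.inl rfl)⟩
  have key : ∀ (m : ℕ) (_ : m ∈ Bm) (u v : ℕ) (hu : u < n) (hv : v < n),
      m.testBit u = true → m.testBit v = true → ¬ KK u → ¬ KK v →
      g ⟨v, hv⟩ = psi u v (g ⟨u, hu⟩) := by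
    intro m hm u v hu hv h1 h2 h3 h4
    exact hg1 ⟨u, hu⟩ ⟨v, hv⟩ (fun h => h3 (mem_TT.1 h)) (fun h => h4 (mem_TT.1 h))
      (edge_mem m hm h1 h2)
  have h1 := key 23 (by decide) 0 1 (by omega) (by omega) (by decide) (by decide) (by decide)
    (by decide)
  have h2 := key 23 (by decide) 0 2 (by omega) (by omega) (by decide) (by decide) (by decide)
    (by decide)
  have h3 := key 1068 (by decide) 2 5 (by omega) (by omega) (by decide) (by decide) (by decide)
    (by decide)
  have h5 := key 2242 (by decide) 1 7 (by omega) (by omega) (by decide) (by decide) (by decide)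
    (by decide)
  have h6 := key 1073 (by decide) 0 5 (by omega) (by omega) (by decide) (by decide) (by decide)
    (by decide)
  have h7 := key 1185 (by decide) 5 7 (by omega) (by omega) (by decide) (by decide) (by decide)
    (by decide)
  generalize g ⟨0, _⟩ = a0 at *
  generalize g ⟨1, _⟩ = a1 at *
  generalize g ⟨2, _⟩ = a2 at *
  generalize g ⟨5, _⟩ = a5 at *
  generalize g ⟨7, _⟩ = a7 at *
  clear key hg1 hcl hLS good hs hcx h
  revert a0 a1 a2 a5 a7
  decide

/-! ### Suspensions -/

/-- `L` is the suspension of `K` with the suspension points `a`, `b` -/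
def IsSusp {V : Type} [DecidableEq V] (a b : V) (K L : Finset (Finset V)) : Prop :=
  ∀ σ, σ ∈ L ↔ ¬ (a ∈ σ ∧ b ∈ σ) ∧ (σ.erase a).erase b ∈ K

theorem nonEvasive_of_susp {V : Type} [DecidableEq V] {a b : V} (hab : a ≠ b)
    {L : Finset (Finset V)} (h : NonEvasive L) : ∀ K : Finset (Finset V), IsCx K →
    (∀ σ ∈ K, a ∉ σ ∧ b ∉ σ) → IsSusp a b K L → NonEvasive K := by
  induction h with
  | point v =>
    intro K hK hKab hL
    exfalso
    have h1 : {a} ∈ ({∅, {v}} : Finset (Finset V)) := by
      rw [hL]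
      refine ⟨by simp [hab.symm], ?_⟩
      have : (({a} : Finset V).erase a).erase b = ∅ := by simp
      rw [this]; exact hK.1
    have h2 : {b} ∈ ({∅, {v}} : Finset (Finset V)) := by
      rw [hL]
      refine ⟨by simp [hab], ?_⟩
      have : (({b} : Finset V).erase a).erase b = ∅ := by
        ext x
        simp only [mem_erase, mem_singleton, notMem_empty, iff_false]
        tauto
      rw [this]; exact hK.1
    have h3 : a = v := by simpa using h1
    have h4 : b = v := by simpa using h2
    exact hab (h3.trans h4.symm)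
  | step L v hv hd hl ihd ihl =>
    intro K hK hKab hL
    have hcl : ∀ σ : Finset V, a ∉ σ → b ∉ σ → (σ.erase a).erase b = σ := by
      intro σ h1 h2
      rw [erase_eq_of_notMem h1, erase_eq_of_notMem h2]
    have hLcx : IsCx L := by
      constructor
      · rw [hL]
        simpa using hK.1
      · intro σ hσ τ hτ
        rw [hL] at hσ ⊢
        exact ⟨fun h => hσ.1 ⟨hτ h.1, hτ h.2⟩,
          hK.2 _ hσ.2 _ (erase_subset_erase _ (erase_subset_erase _ hτ))⟩
    by_cases hva : v = a
    · subst hva
      have : link L v = K := by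
        ext σ
        rw [mem_link hLcx, hL]
        constructor
        · rintro ⟨h1, h2, h3⟩
          have h4 : b ∉ σ := fun h => h2 ⟨mem_insert_self _ _, mem_insert_of_mem h⟩
          rwa [erase_insert h1, erase_eq_of_notMem h4] at h3
        · intro h1
          obtain ⟨h2, h3⟩ := hKab σ h1
          refine ⟨h2, ?_, ?_⟩
          · rintro ⟨-, h4⟩
            rw [mem_insert] at h4
            rcases h4 with h4 | h4
            · exact hab h4.symm
            · exact h3 h4
          · rwa [erase_insert h2, erase_eq_of_notMem h3]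
      rwa [this] at hl
    by_cases hvb : v = b
    · subst hvb
      have : link L v = K := by
        ext σ
        rw [mem_link hLcx, hL]
        constructor
        · rintro ⟨h1, h2, h3⟩
          have h4 : a ∉ σ := fun h => h2 ⟨mem_insert_of_mem h, mem_insert_self _ _⟩
          rwa [erase_right_comm, erase_insert h1, erase_eq_of_notMem h4] at h3
        · intro h1
          obtain ⟨h2, h3⟩ := hKab σ h1
          refine ⟨h3, ?_, ?_⟩
          · rintro ⟨h4, -⟩
            rw [mem_insert] at h4
            rcases h4 with h4 | h4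
            · exact hab h4
            · exact h2 h4
          · rwa [erase_right_comm, erase_insert h3, erase_eq_of_notMem h2]
      rwa [this] at hl
    have hvK : {v} ∈ K := by
      have h1 := (hL {v}).1 hv
      rw [hcl {v} (by simpa using Ne.symm hva) (by simpa using Ne.symm hvb)] at h1
      exact h1.2
    refine NonEvasive.step K v hvK (ihd (del K v) (hK.del v) ?_ ?_)
      (ihl (link K v) (hK.link hvK) ?_ ?_)
    · intro σ hσ
      exact hKab σ (mem_del.1 hσ).1
    · intro σ
      rw [mem_del, mem_del, hL]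
      have : v ∈ (σ.erase a).erase b ↔ v ∈ σ := by
        simp [mem_erase, hva, hvb]
      rw [this]
      tauto
    · intro σ hσ
      rw [mem_link hK] at hσ
      obtain ⟨h1, h2⟩ := hKab _ hσ.2
      exact ⟨fun h => h1 (mem_insert_of_mem h), fun h => h2 (mem_insert_of_mem h)⟩
    · intro σ
      rw [mem_link hLcx, mem_link hK, hL]
      have h1 : v ∈ (σ.erase a).erase b ↔ v ∈ σ := by
        simp [mem_erase, hva, hvb]
      have h2 : ((insert v σ).erase a).erase b = insert v ((σ.erase a).erase b) := by
        rw [erase_insert_of_ne hva, erase_insert_of_ne hvb]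
      have h3 : (a ∈ insert v σ ∧ b ∈ insert v σ) ↔ (a ∈ σ ∧ b ∈ σ) := by
        simp [mem_insert, Ne.symm hva, Ne.symm hvb]
      rw [h1, h2, h3]
      tauto

end Pool.Agent.H933R3
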