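import Mathlib
import Pool.Agent.H823R3.Pi1Cyclic

set_option autoImplicit false

/-!
# Spaces all of whose loops come from a circle
-/

namespace Pool.Agent.H933R3

open Set unitInterval Topology

theorem circle_pathConnected {C : Type*} [TopologicalSpace C] (h : C ≃ₜ Circle) :
    PathConnectedSpace C := by
  have e : AddCircle (2 * Real.pi) ≃ₜ C := AddCircle.homeomorphCircle'.trans h.symm
  have : Fact (0 < 2 * Real.pi) := ⟨by positivity⟩
  exact e.surjective.pathConnectedSpace e.continuous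

/-- if all loops of `Y` at `ι c` come from the circle `C`, then the fundamental group of `Y`
is cyclic -/
theorem isCyclic_of_circle {C Y : Type*} [TopologicalSpace C] [TopologicalSpace Y]
    (h : C ≃ₜ Circle) (ι : C(C, Y)) (c : C)
    (H : ∀ p : Path (ι c) (ι c), ∃ γ : Path c c, p.Homotopic (γ.map ι.continuous)) :
    IsCyclic (FundamentalGroup Y (ι c)) := by
  have hcc : Continuous (fun z : Circle => (z : ℂ)) := continuous_subtype_val
  let i : C(C, {z : ℂ // z ≠ 0}) :=
    ⟨fun x => ⟨(h x : ℂ), Circle.coe_ne_zero _⟩, Continuous.subtype_mk (hcc.comp h.continuous) _⟩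
  have hmem : ∀ z : {z : ℂ // z ≠ 0}, (z.1 / ‖z.1‖ : ℂ) ∈ Metric.sphere (0 : ℂ) 1 := by
    intro z
    rw [mem_sphere_zero_iff_norm, norm_div, Complex.norm_real, norm_norm,
        div_self (norm_ne_zero_iff.2 z.2)]
  let nc : {z : ℂ // z ≠ 0} → Circle := fun z => ⟨z.1 / ‖z.1‖, hmem z⟩
  have hnc : Continuous nc := by
    refine Continuous.subtype_mk ?_ _
    refine Continuous.div continuous_subtype_val (by fun_prop) ?_
    intro z
    simpa using z.2
  let r : C({z : ℂ // z ≠ 0}, C) := ⟨fun z => h.symm (nc z), h.symm.continuous.comp hnc⟩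
  have hri : ∀ x, r (i x) = x := by
    intro x
    have h1 : nc (i x) = h x := by
      have key : ∀ y : Circle, (y : ℂ) / ‖(y : ℂ)‖ = y := by
        intro y
        rw [Circle.norm_coe]
        simp
      exact Circle.ext (key (h x))
    show h.symm (nc (i x)) = x
    rw [h1, h.symm_apply_apply]
  obtain ⟨Φ, hΦ⟩ := Pool.Agent.H823R3.exists_surjective (Homeomorph.refl {z : ℂ // z ≠ 0}) (i c)
  let f : C({z : ℂ // z ≠ 0}, Y) := ι.comp r
  have hf : f (i c) = ι c := by
    show ι (r (i c)) = ι c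
    rw [hri]
  let Ψ := (FundamentalGroup.mapOfEq f hf).comp Φ
  refine isCyclic_of_surjective Ψ ?_
  intro g
  obtain ⟨p, rfl⟩ := Path.Homotopic.Quotient.mk_surjective g
  obtain ⟨γ, hγ⟩ := H p
  obtain ⟨m, hm⟩ := hΦ (Path.Homotopic.Quotient.mk (γ.map i.continuous))
  refine ⟨m, ?_⟩
  show FundamentalGroup.mapOfEq f hf (Φ m) = _
  rw [hm, FundamentalGroup.mapOfEq_apply, Path.Homotopic.Quotient.eq.2 hγ,
    ← Path.Homotopic.Quotient.mk_map, ← Path.Homotopic.Quotient.mk_cast]
  congr 1
  ext t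
  show ι (r (i (γ t))) = ι (γ t)
  rw [hri]

end Pool.Agent.H933R3
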