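import Mathlib
import Pool.Agent.H933R3.Defs

set_option autoImplicit false

/-!
# Spanning edges and knottedness: definitions
-/

namespace Pool.Agent.H933R3

/-- `K` is a triangulated circle. -/
def IsCircle {n : ℕ} (K : Finset (Finset (Fin n))) : Prop :=
  Nonempty (realization K ≃ₜ Circle)

/-- `{u, w}` is a spanning edge: the links of the vertices `u` and `w` are 2-balls (`u` and `w`
are boundary vertices) and the link of the edge `{u, w}` is a circle (the edge is interior). -/
structure IsSpanningEdge {n : ℕ} (K : Finset (Finset (Fin n))) (u w : Fin n) : Prop where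
  ne : u ≠ w
  edge : {u, w} ∈ K
  ball_left : IsBall 2 (link K u)
  ball_right : IsBall 2 (link K w)
  circle : IsCircle (link (link K u) w)

/-- the complement of the closed edge `[u, w]` in the realization of `K` -/
def edgeExterior {n : ℕ} (K : Finset (Finset (Fin n))) (u w : Fin n) : Set (Fin n → ℝ) :=
  realization K \ segment ℝ (Pi.single u 1) (Pi.single w 1)

/-- The edge `[u, w]` is knotted: the fundamental group of its complement (the knot group) is not
cyclic, for some base point. -/
def IsKnottedEdge {n : ℕ} (K : Finset (Finset (Fin n))) (u w : Fin n) : Prop :=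
  ∃ y : edgeExterior K u w, ¬ IsCyclic (FundamentalGroup (edgeExterior K u w) y)

end Pool.Agent.H933R3
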