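import Mathlib

set_option autoImplicit false

/-!
# Paths in star convex sets, subdivision, squares
-/

namespace Pool.Agent.H933R3

open Set unitInterval Topology

/-- two paths with the same ends in a star convex subset are homotopic -/
theorem star_homotopic {n : ℕ} {Ys S : Set (Fin n → ℝ)} (hS : S ⊆ Ys) {c : Fin n → ℝ}
    (hc : StarConvex ℝ c S) {a b : Ys} (p q : Path a b) (hp : ∀ t, (p t).1 ∈ S)
    (hq : ∀ t, (q t).1 ∈ S) : p.Homotopic q := by
  have hne : S.Nonempty := ⟨_, hp 0⟩
  have := hc.contractibleSpace hne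
  let ι : C(S, Ys) := ⟨fun x => ⟨x.1, hS x.2⟩, by fun_prop⟩
  let a' : S := ⟨a.1, by simpa using hp 0⟩
  let b' : S := ⟨b.1, by simpa using hp 1⟩
  let p' : Path a' b' := ⟨⟨fun t => ⟨(p t).1, hp t⟩, by fun_prop⟩,
    Subtype.ext (by simp [a']), Subtype.ext (by simp [b'])⟩
  let q' : Path a' b' := ⟨⟨fun t => ⟨(q t).1, hq t⟩, by fun_prop⟩,
    Subtype.ext (by simp [a']), Subtype.ext (by simp [b'])⟩
  exact (SimplyConnectedSpace.paths_homotopic p' q').map ι

/-- the straight path -/
noncomputable def lin {n : ℕ} {Ys : Set (Fin n → ℝ)} (a b : Ys)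
    (h : segment ℝ a.1 b.1 ⊆ Ys) : Path a b where
  toFun t := ⟨AffineMap.lineMap a.1 b.1 (t : ℝ), h (by
    rw [segment_eq_image_lineMap]; exact ⟨_, t.2, rfl⟩)⟩
  continuous_toFun := by
    refine Continuous.subtype_mk ?_ _
    exact AffineMap.lineMap_continuous.comp continuous_subtype_val
  source' := Subtype.ext (by simp)
  target' := Subtype.ext (by simp)

theorem lin_mem {n : ℕ} {Ys : Set (Fin n → ℝ)} (a b : Ys)
    (h : segment ℝ a.1 b.1 ⊆ Ys) (t : I) : (lin a b h t).1 ∈ segment ℝ a.1 b.1 := by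
  rw [segment_eq_image_lineMap]; exact ⟨_, t.2, rfl⟩

/-- transport along an arbitrary path, from transport along small paths -/
theorem transport_of_cover {Y : Type*} [TopologicalSpace Y] {ι : Type*} (U : ι → Set Y)
    (hU : ∀ i, IsOpen (U i)) (hcov : ∀ y, ∃ i, y ∈ U i) (x0 : Y)
    (G : ∀ y, Set (Path.Homotopic.Quotient x0 y))
    (hG : ∀ i (y y' : Y) (p : Path y y'), (∀ t, p t ∈ U i) → ∀ q ∈ G y,
      q.trans (Path.Homotopic.Quotient.mk p) ∈ G y')
    (y y' : Y) (p : Path y y') (q : Path.Homotopic.Quotient x0 y) (hq : q ∈ G y) :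
    q.trans (Path.Homotopic.Quotient.mk p) ∈ G y' := by
  obtain ⟨f, h0, h1⟩ := p
  subst h0
  subst h1
  set p : Path (f 0) (f 1) := ⟨f, rfl, rfl⟩ with hpdef
  have hfc : Continuous f := f.continuous
  obtain ⟨t, ht0, hmono, ⟨m, hm⟩, hc⟩ := exists_monotone_Icc_subset_open_cover_unitInterval
    (c := fun i => f ⁻¹' (U i)) (fun i => (hU i).preimage hfc)
    (by
      intro s _
      obtain ⟨i, hi⟩ := hcov (f s)
      exact mem_iUnion.2 ⟨i, hi⟩)
  have key : ∀ k : ℕ, ∀ s, s = t k →
      (q : Path.Homotopic.Quotient x0 (p 0)).trans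
        (Path.Homotopic.Quotient.mk (p.subpath 0 s)) ∈ G (p s) := by
    intro k
    induction k with
    | zero =>
      intro s hs
      rw [ht0] at hs
      subst hs
      rw [Path.subpath_self]
      have e : q.trans (Path.Homotopic.Quotient.mk (Path.refl (f.toFun 0))) = q :=
        Path.Homotopic.Quotient.trans_refl q
      have e2 : q.trans (Path.Homotopic.Quotient.mk (Path.refl (f.toFun 0))) ∈ G (f.toFun 0) := by
        rw [e]
        exact hq
      exact e2
    | succ k ih =>
      intro s hs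
      have h2 := ih (t k) rfl
      obtain ⟨i, hi⟩ := hc k
      have h3 := hG i _ _ (p.subpath (t k) s) ?_ _ h2
      · rw [Path.Homotopic.Quotient.trans_assoc, ← Path.Homotopic.Quotient.mk_trans] at h3
        rw [Path.Homotopic.Quotient.eq.2 ⟨Path.Homotopy.subpathTransSubpath p 0 (t k) s⟩] at h3
        exact h3
      · intro r
        have h4 : p.subpath (t k) s r ∈ p '' (Icc (t k) s) := by
          rw [← Path.range_subpath_of_le p (t k) s (by rw [hs]; exact hmono (Nat.le_succ k))]
          exact ⟨r, rfl⟩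
        obtain ⟨r', hr', hr2⟩ := h4
        rw [← hr2]
        rw [hs] at hr'
        exact hi hr'
  have h5 := key m 1 (hm m le_rfl).symm
  rw [Path.subpath_zero_one] at h5
  exact h5

/-- pushing the bottom side of a square to the other three sides -/
theorem square {Z : Type*} [TopologicalSpace Z] (Φ : C(I × I, Z)) {a b : Z} (p : Path a b)
    (hp : ∀ t, p t = Φ (t, 0)) (S : Set Z) (hl : ∀ s, Φ (0, s) ∈ S) (ht : ∀ t, Φ (t, 1) ∈ S)
    (hr : ∀ s, Φ (1, s) ∈ S) : ∃ q : Path a b, (∀ t, q t ∈ S) ∧ p.Homotopic q := by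
  let i : Path (0 : I) (1 : I) := ⟨ContinuousMap.id _, rfl, rfl⟩
  let bottom : Path ((0 : I), (0 : I)) ((1 : I), (0 : I)) := i.prod (Path.refl 0)
  let left : Path ((0 : I), (0 : I)) ((0 : I), (1 : I)) := (Path.refl 0).prod i
  let top : Path ((0 : I), (1 : I)) ((1 : I), (1 : I)) := i.prod (Path.refl 1)
  let right : Path ((1 : I), (0 : I)) ((1 : I), (1 : I)) := (Path.refl 1).prod i
  have : ContractibleSpace I := (convex_Icc (0 : ℝ) 1).contractibleSpace ⟨0, by simp⟩
  have hsc : Path.Homotopic bottom ((left.trans top).trans right.symm) :=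
    SimplyConnectedSpace.paths_homotopic _ _
  have ha : a = Φ (0, 0) := by rw [← hp, p.source]
  have hb : b = Φ (1, 0) := by rw [← hp, p.target]
  subst ha
  subst hb
  refine ⟨((left.trans top).trans right.symm).map Φ.continuous, ?_, ?_⟩
  · intro t
    have h1 : ∀ t, (left.trans top) t ∈ {z : I × I | Φ z ∈ S} := by
      intro t
      rw [Path.trans_apply]
      split_ifs
      · exact hl _
      · exact ht _
    show ((left.trans top).trans right.symm) t ∈ {z : I × I | Φ z ∈ S}
    rw [Path.trans_apply]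
    split_ifs
    · exact h1 _
    · exact hr _
  · have h2 : p = bottom.map Φ.continuous := by
      ext t
      rw [hp]
      rfl
    rw [h2]
    exact hsc.map Φ

end Pool.Agent.H933R3
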