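import Mathlib
import Pool.Agent.H933R3.Evas
import Pool.Agent.H933R3.KTop

set_option autoImplicit false

/-!
# Pushing paths in a ball minus a vertex towards the link of the vertex
-/

namespace Pool.Agent.H933R3

open Set unitInterval Topology

variable {n : ℕ} {L : Finset (Finset (Fin n))} {w : Fin n}

/-- radial projection from the vertex `w` -/
noncomputable def rad (w : Fin n) (x : Fin n → ℝ) : Fin n → ℝ :=
  fun i => if i = w then 0 else x i / (1 - x w)

theorem coord_le_one {x : Fin n → ℝ} (hx : x ∈ realization L) (i : Fin n) : x i ≤ 1 := by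
  rw [← hx.2.1]
  exact Finset.single_le_sum (fun j _ => hx.1 j) (Finset.mem_univ i)

theorem rad_nonneg {x : Fin n → ℝ} (hx : x ∈ realization L) (i : Fin n) : 0 ≤ rad w x i := by
  unfold rad
  split_ifs
  · exact le_rfl
  · exact div_nonneg (hx.1 i) (sub_nonneg.2 (coord_le_one hx w))

theorem rad_sum {x : Fin n → ℝ} (hx : x ∈ realization L) (hxw : x w ≠ 1) :
    ∑ i, rad w x i = 1 := by
  have h1 : ∑ i, rad w x i = ∑ i ∈ Finset.univ.erase w, x i / (1 - x w) := by
    rw [← Finset.sum_erase_add _ _ (Finset.mem_univ w)]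
    have h2 : rad w x w = 0 := by simp [rad]
    rw [h2, add_zero]
    refine Finset.sum_congr rfl fun i hi => ?_
    simp [rad, Finset.ne_of_mem_erase hi]
  rw [h1, ← Finset.sum_div, Finset.sum_erase_eq_sub (Finset.mem_univ w), hx.2.1]
  exact div_self (sub_ne_zero.2 (Ne.symm hxw))

theorem rad_mem_del (hL : IsCx L) {x : Fin n → ℝ} (hx : x ∈ realization L) (hxw : x w ≠ 1) :
    rad w x ∈ realization (del L w) := by
  obtain ⟨F, hF, hs⟩ := hx.2.2
  refine ⟨rad_nonneg hx, rad_sum hx hxw, F.erase w, ?_, ?_⟩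
  · rw [mem_del]
    exact ⟨hL.2 _ hF _ (Finset.erase_subset _ _), by simp⟩
  · intro i hi
    unfold rad
    split_ifs with h
    · rfl
    · rw [hs i (fun h' => hi (Finset.mem_erase.2 ⟨h, h'⟩)), zero_div]

theorem rad_mem_link (hL : IsCx L) {x : Fin n → ℝ} (hx : x ∈ realization L) (hxw : x w ≠ 1)
    (h0 : x w ≠ 0) : rad w x ∈ realization (link L w) := by
  obtain ⟨F, hF, hs⟩ := hx.2.2
  have hwF : w ∈ F := by
    by_contra h
    exact h0 (hs w h)
  refine ⟨rad_nonneg hx, rad_sum hx hxw, F.erase w, ?_, ?_⟩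
  · rw [mem_link hL, Finset.insert_erase hwF]
    exact ⟨by simp, hF⟩
  · intro i hi
    unfold rad
    split_ifs with h
    · rfl
    · rw [hs i (fun h' => hi (Finset.mem_erase.2 ⟨h, h'⟩)), zero_div]

theorem rad_eq_self {x : Fin n → ℝ} (h0 : x w = 0) : rad w x = x := by
  ext i
  unfold rad
  split_ifs with h
  · rw [h, h0]
  · rw [h0, sub_zero, div_one]

theorem vertex_unique {x : Fin n → ℝ} (hx : x ∈ realization L) (h1 : x w = 1) :
    x = Pi.single w 1 := by
  ext i
  by_cases hi : i = w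
  · subst hi
    simp [h1]
  · rw [Pi.single_eq_of_ne hi]
    have h2 : x w + x i ≤ ∑ j, x j := by
      rw [← Finset.sum_pair (Ne.symm hi)]
      exact Finset.sum_le_sum_of_subset_of_nonneg (Finset.subset_univ _) (fun j _ _ => hx.1 j)
    rw [hx.2.1, h1] at h2
    exact le_antisymm (by linarith) (hx.1 i)

theorem single_mem (hw : {w} ∈ L) : (Pi.single w 1 : Fin n → ℝ) ∈ realization L := by
  refine ⟨?_, ?_, {w}, hw, ?_⟩
  · intro i
    by_cases h : i = w
    · subst h; simp
    · simp [h]
  · simp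
  · intro i hi
    exact Pi.single_eq_of_ne (by simpa using hi) _

theorem mem_realization_of_combo (hL : IsCx L) {x : Fin n → ℝ} (hx : x ∈ realization (link L w))
    {l : ℝ} (h0 : 0 ≤ l) (h1 : l ≤ 1) :
    (fun i => (1 - l) * x i + l * (Pi.single w 1 : Fin n → ℝ) i) ∈ realization L := by
  obtain ⟨F, hF, hs⟩ := hx.2.2
  refine ⟨?_, ?_, insert w F, ((mem_link hL).1 hF).2, ?_⟩
  · intro i
    have h2 : (0 : ℝ) ≤ (Pi.single w 1 : Fin n → ℝ) i := by
      by_cases h : i = w
      · subst h; simp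
      · simp [h]
    have := hx.1 i
    have : 0 ≤ 1 - l := by linarith
    positivity
  · rw [Finset.sum_add_distrib, ← Finset.mul_sum, ← Finset.mul_sum, hx.2.1]
    simp
  · intro i hi
    rw [Finset.mem_insert, not_or] at hi
    show (1 - l) * x i + l * (Pi.single w 1 : Fin n → ℝ) i = 0
    rw [hs i hi.2, Pi.single_eq_of_ne hi.1]
    ring

theorem exists_shrink {d : ℕ} (hL : IsCx L) (hw : {w} ∈ L) (hB : IsBall d L) :
    ∃ (Ψ : C({x : realization L // x.1 w ≠ 1} × I, realization (del L w)))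
      (N : Set (realization L)), IsOpen N ∧ (⟨Pi.single w 1, single_mem hw⟩ : realization L) ∈ N ∧
      (∀ x, (Ψ (x, 0)).1 = rad w x.1.1) ∧
      (∀ x, x.1 ∈ N → ∀ s, (Ψ (x, s)).1 ∈ realization (link L w)) ∧
      ∀ x, (Ψ (x, 1)).1 ∈ realization (link L w) := by
  obtain ⟨h⟩ := hB
  let e : realization L := ⟨Pi.single w 1, single_mem hw⟩
  set c := h e with hc
  have hopen : IsOpen {z : Metric.closedBall (0 : EuclideanSpace ℝ (Fin d)) 1 |
      0 < (h.symm z).1 w} := by
    exact isOpen_lt continuous_const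
      ((continuous_apply w).comp (continuous_subtype_val.comp h.symm.continuous))
  have hcm : c ∈ {z : Metric.closedBall (0 : EuclideanSpace ℝ (Fin d)) 1 |
      0 < (h.symm z).1 w} := by
    show 0 < (h.symm c).1 w
    rw [hc, h.symm_apply_apply]
    simp [e]
  obtain ⟨δ, hδ, hball⟩ := Metric.isOpen_iff.1 hopen c hcm
  set τ0 : ℝ := min 1 (δ / 4) with hτ0
  have hτ0p : 0 < τ0 := lt_min one_pos (by positivity)
  have hτ01 : τ0 ≤ 1 := min_le_left _ _
  have hτ0δ : τ0 ≤ δ / 4 := min_le_right _ _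
  let τ : I → ℝ := fun s => 1 - s.1 * (1 - τ0)
  have hτc : Continuous τ := by fun_prop
  have hτp : ∀ s, 0 < τ s := by
    intro s
    have h1 := s.2.1
    have h2 := s.2.2
    show 0 < 1 - s.1 * (1 - τ0)
    nlinarith
  have hτ1 : ∀ s, τ s ≤ 1 := by
    intro s
    have h1 := s.2.1
    show 1 - s.1 * (1 - τ0) ≤ 1
    nlinarith
  have hmem : ∀ (z : Metric.closedBall (0 : EuclideanSpace ℝ (Fin d)) 1) (s : I),
      (1 - τ s) • c.1 + τ s • z.1 ∈ Metric.closedBall (0 : EuclideanSpace ℝ (Fin d)) 1 := by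
    intro z s
    exact (convex_closedBall (0 : EuclideanSpace ℝ (Fin d)) 1) c.2 z.2
      (sub_nonneg.2 (hτ1 s)) (hτp s).le (by ring)
  let mv : Metric.closedBall (0 : EuclideanSpace ℝ (Fin d)) 1 → I →
      Metric.closedBall (0 : EuclideanSpace ℝ (Fin d)) 1 :=
    fun z s => ⟨(1 - τ s) • c.1 + τ s • z.1, hmem z s⟩
  have hmvd : ∀ z s, dist (mv z s) c = τ s * dist z c := by
    intro z s
    rw [Subtype.dist_eq, Subtype.dist_eq, dist_eq_norm, dist_eq_norm]
    have : (1 - τ s) • c.1 + τ s • z.1 - c.1 = τ s • (z.1 - c.1) := by module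
    show ‖(1 - τ s) • c.1 + τ s • z.1 - c.1‖ = _
    rw [this, norm_smul, Real.norm_of_nonneg (hτp s).le]
  have hne : ∀ (x : {x : realization L // x.1 w ≠ 1}) (s : I),
      (h.symm (mv (h x.1) s)).1 w ≠ 1 := by
    intro x s h1
    have h2 : h.symm (mv (h x.1) s) = e := Subtype.ext (vertex_unique (h.symm _).2 h1)
    have h3 : mv (h x.1) s = c := by rw [hc, ← h2, h.apply_symm_apply]
    have h4 := hmvd (h x.1) s
    rw [h3, dist_self] at h4
    have h5 : dist (h x.1) c = 0 := by
      rcases mul_eq_zero.1 h4.symm with h6 | h6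
      · exact absurd h6 (hτp s).ne'
      · exact h6
    have h6 : x.1 = e := h.injective (dist_eq_zero.1 h5)
    apply x.2
    rw [h6]
    simp [e]
  have hmvc : Continuous (fun q : {x : realization L // x.1 w ≠ 1} × I =>
      h.symm (mv (h q.1.1) q.2)) := by
    refine h.symm.continuous.comp ?_
    refine Continuous.subtype_mk ?_ _
    have := h.continuous
    fun_prop
  have hdelmem : ∀ q : {x : realization L // x.1 w ≠ 1} × I,
      rad w (h.symm (mv (h q.1.1) q.2)).1 ∈ realization (del L w) := fun q =>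
    rad_mem_del hL (h.symm _).2 (hne q.1 q.2)
  refine ⟨⟨fun q => ⟨rad w (h.symm (mv (h q.1.1) q.2)).1, hdelmem q⟩, ?_⟩,
    {x | dist (h x) c < δ}, ?_, ?_, ?_, ?_, ?_⟩
  · refine Continuous.subtype_mk ?_ _
    refine continuous_pi fun i => ?_
    unfold rad
    split_ifs with hi
    · exact continuous_const
    · refine Continuous.div ?_ ?_ ?_
      · exact (continuous_apply i).comp (continuous_subtype_val.comp hmvc)
      · exact continuous_const.sub ((continuous_apply w).comp (continuous_subtype_val.comp hmvc))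
      · intro q
        exact sub_ne_zero.2 (Ne.symm (hne q.1 q.2))
  · have := h.continuous
    refine isOpen_lt ?_ continuous_const
    fun_prop
  · show dist (h e) c < δ
    rw [hc, dist_self]
    exact hδ
  · intro x
    show rad w (h.symm (mv (h x.1) 0)).1 = _
    have h1 : mv (h x.1) 0 = h x.1 := by
      apply Subtype.ext
      show (1 - τ 0) • c.1 + τ 0 • (h x.1).1 = (h x.1).1
      have : τ 0 = 1 := by simp [τ]
      rw [this]
      simp
    rw [h1, h.symm_apply_apply]
  · intro x hx s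
    show rad w (h.symm (mv (h x.1) s)).1 ∈ _
    refine rad_mem_link hL (h.symm _).2 (hne x s) ?_
    have h1 : mv (h x.1) s ∈ Metric.ball c δ := by
      rw [Metric.mem_ball, hmvd]
      have h2 : dist (h x.1) c < δ := hx
      have h3 : 0 ≤ dist (h x.1) c := dist_nonneg
      have h4 := hτ1 s
      nlinarith
    exact ne_of_gt (hball h1)
  · intro x
    show rad w (h.symm (mv (h x.1) 1)).1 ∈ _
    refine rad_mem_link hL (h.symm _).2 (hne x 1) ?_
    have h1 : mv (h x.1) 1 ∈ Metric.ball c δ := by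
      rw [Metric.mem_ball, hmvd]
      have h2 : τ 1 = τ0 := by simp [τ]
      have h3 : dist (h x.1) c ≤ 2 := by
        rw [Subtype.dist_eq]
        have h5 := dist_triangle_right (h x.1).1 c.1 0
        have h6 : dist (h x.1).1 (0 : EuclideanSpace ℝ (Fin d)) ≤ 1 := (h x.1).2
        have h7 : dist c.1 (0 : EuclideanSpace ℝ (Fin d)) ≤ 1 := c.2
        linarith
      have h4 : 0 ≤ dist (h x.1) c := dist_nonneg
      rw [h2]
      nlinarith
    exact ne_of_gt (hball h1)

end Pool.Agent.H933R3
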