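import Mathlib
import Pool.Agent.H933R3.KShrink

set_option autoImplicit false

/-!
# Pushing paths in a ball minus a vertex into the link of the vertex
-/

namespace Pool.Agent.H933R3

open Set unitInterval Topology

variable {n : ℕ} {L : Finset (Finset (Fin n))} {w : Fin n}

/-- the point `(1 - l) x + l w` -/
noncomputable def combo (w : Fin n) (x : Fin n → ℝ) (l : ℝ) : Fin n → ℝ :=
  fun i => (1 - l) * x i + l * (Pi.single w 1 : Fin n → ℝ) i

theorem rad_combo {x : Fin n → ℝ} (hx : x w = 0) {l : ℝ} (hl : l ≠ 1) :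
    rad w (combo w x l) = x := by
  ext i
  unfold rad combo
  split_ifs with h
  · rw [h, hx]
  · rw [Pi.single_eq_of_ne h, hx, Pi.single_eq_same]
    have : 1 - l ≠ 0 := sub_ne_zero.2 (Ne.symm hl)
    rw [mul_zero, mul_zero, add_zero, zero_add, mul_one, mul_comm]
    exact mul_div_cancel_right₀ _ this

theorem del_zero {x : Fin n → ℝ} (hx : x ∈ realization (del L w)) : x w = 0 := by
  obtain ⟨F, hF, hs⟩ := hx.2.2
  exact hs w (mem_del.1 hF).2

theorem del_sub {x : Fin n → ℝ} (hx : x ∈ realization (del L w)) : x ∈ realization L := by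
  obtain ⟨F, hF, hs⟩ := hx.2.2
  exact ⟨hx.1, hx.2.1, F, (mem_del.1 hF).1, hs⟩

theorem push_path {d : ℕ} (hL : IsCx L) (hw : {w} ∈ L) (hB : IsBall d L)
    {a b : realization (del L w)} (ha : a.1 ∈ realization (link L w))
    (hb : b.1 ∈ realization (link L w)) (p : Path a b) :
    ∃ q : Path a b, (∀ t, (q t).1 ∈ realization (link L w)) ∧ p.Homotopic q := by
  obtain ⟨Ψ, N, hN, heN, h0, h1, h2⟩ := exists_shrink hL hw hB
  let ca : ∀ x : Fin n → ℝ, x ∈ realization (link L w) → I → realization L :=
    fun x hx l => ⟨combo w x l.1, mem_realization_of_combo hL hx l.2.1 l.2.2⟩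
  have hca : ∀ x hx, Continuous (ca x hx) := by
    intro x hx
    refine Continuous.subtype_mk ?_ _
    refine continuous_pi fun i => ?_
    show Continuous fun l : I => (1 - l.1) * x i + l.1 * (Pi.single w 1 : Fin n → ℝ) i
    fun_prop
  have hca1 : ∀ x hx, ca x hx 1 ∈ N := by
    intro x hx
    have : ca x hx 1 = ⟨Pi.single w 1, single_mem hw⟩ := by
      apply Subtype.ext
      ext i
      simp [ca, combo]
    rw [this]
    exact heN
  obtain ⟨l, hl1, hla, hlb⟩ : ∃ l : I, l.1 < 1 ∧ ca a.1 ha l ∈ N ∧ ca b.1 hb l ∈ N := by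
    have ho : IsOpen (ca a.1 ha ⁻¹' N ∩ ca b.1 hb ⁻¹' N) :=
      (hN.preimage (hca a.1 ha)).inter (hN.preimage (hca b.1 hb))
    obtain ⟨ε, hε, hb'⟩ := Metric.isOpen_iff.1 ho 1 ⟨hca1 a.1 ha, hca1 b.1 hb⟩
    have hm : max 0 (1 - ε / 2) < 1 := max_lt one_pos (by linarith)
    refine ⟨⟨max 0 (1 - ε / 2), le_max_left _ _, hm.le⟩, hm, hb' ?_⟩
    rw [Metric.mem_ball, Subtype.dist_eq, Real.dist_eq]
    show |max 0 (1 - ε / 2) - 1| < ε
    rw [abs_lt]
    have := le_max_right 0 (1 - ε / 2)
    constructor <;> linarith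
  -- the reparametrisation
  let th : I → I := fun t => projIcc (0 : ℝ) 1 zero_le_one (3 * t.1 - 1)
  have hth : Continuous th := continuous_projIcc.comp (by fun_prop)
  have hth0 : th 0 = 0 := projIcc_of_le_left _ (by simp)
  have hth1 : th 1 = 1 := projIcc_of_right_le _ (by simp; norm_num)
  let la : I → ℝ := fun t => l.1 * max (max (1 - 3 * t.1) (3 * t.1 - 2)) 0
  have hlac : Continuous la := by fun_prop
  have hla0 : ∀ t, 0 ≤ la t := fun t => mul_nonneg l.2.1 (le_max_right _ _)
  have hlal : ∀ t, la t ≤ l.1 := by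
    intro t
    have : max (max (1 - 3 * t.1) (3 * t.1 - 2)) 0 ≤ 1 :=
      max_le (max_le (by linarith [t.2.1]) (by linarith [t.2.2])) zero_le_one
    have h3 := l.2.1
    show l.1 * _ ≤ l.1
    nlinarith
  have hend : ∀ t, la t = 0 ∨ th t = 0 ∨ th t = 1 := by
    intro t
    by_cases h3 : 1 - 3 * t.1 ≤ 0
    · by_cases h4 : 3 * t.1 - 2 ≤ 0
      · left
        show l.1 * max (max (1 - 3 * t.1) (3 * t.1 - 2)) 0 = 0
        rw [max_eq_right (max_le h3 h4), mul_zero]
      · right; right
        exact projIcc_of_right_le _ (by linarith)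
    · right; left
      exact projIcc_of_le_left _ (by linarith)
  have hmem : ∀ t, combo w (p (th t)).1 (la t) ∈ realization L := by
    intro t
    rcases hend t with h3 | h3 | h3
    · rw [h3]
      have : combo w (p (th t)).1 0 = (p (th t)).1 := by
        ext i
        simp [combo]
      rw [this]
      exact del_sub (p (th t)).2
    · rw [h3, p.source]
      exact mem_realization_of_combo hL ha (hla0 t) ((hlal t).trans hl1.le)
    · rw [h3, p.target]
      exact mem_realization_of_combo hL hb (hla0 t) ((hlal t).trans hl1.le)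
  have hne : ∀ t, combo w (p (th t)).1 (la t) w ≠ 1 := by
    intro t
    have h3 : combo w (p (th t)).1 (la t) w = la t := by
      simp [combo, del_zero (p (th t)).2]
    rw [h3]
    exact (lt_of_le_of_lt (hlal t) hl1).ne
  let ph : I → {x : realization L // x.1 w ≠ 1} := fun t =>
    ⟨⟨combo w (p (th t)).1 (la t), hmem t⟩, hne t⟩
  have hph : Continuous ph := by
    refine Continuous.subtype_mk (Continuous.subtype_mk ?_ _) _
    refine continuous_pi fun i => ?_
    have h3 : Continuous fun t => (p (th t)).1 i :=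
      (continuous_apply i).comp (continuous_subtype_val.comp (p.continuous.comp hth))
    exact ((continuous_const.sub hlac).mul h3).add (hlac.mul continuous_const)
  let Φ : C(I × I, realization (del L w)) :=
    ⟨fun q => Ψ (ph q.1, q.2), Ψ.continuous.comp ((hph.comp continuous_fst).prodMk continuous_snd)⟩
  have hsq : ∃ q : Path a b, (∀ t, q t ∈ {x | x.1 ∈ realization (link L w)}) ∧
      (p.reparam th hth hth0 hth1).Homotopic q := by
    refine square Φ (p.reparam th hth hth0 hth1) ?_ {x | x.1 ∈ realization (link L w)} ?_ ?_ ?_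
    · intro t
      apply Subtype.ext
      show (p (th t)).1 = (Ψ (ph t, 0)).1
      rw [h0]
      exact (rad_combo (del_zero (p (th t)).2) (lt_of_le_of_lt (hlal t) hl1).ne).symm
    · intro s
      show (Ψ (ph 0, s)).1 ∈ realization (link L w)
      refine h1 _ ?_ s
      have : (ph 0).1 = ca a.1 ha l := by
        apply Subtype.ext
        show combo w (p (th 0)).1 (la 0) = combo w a.1 l.1
        rw [hth0, p.source]
        have : la 0 = l.1 := by
          show l.1 * max (max (1 - 3 * (0 : I).1) (3 * (0 : I).1 - 2)) 0 = l.1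
          norm_num
        rw [this]
      rw [this]
      exact hla
    · intro t
      exact h2 _
    · intro s
      show (Ψ (ph 1, s)).1 ∈ realization (link L w)
      refine h1 _ ?_ s
      have : (ph 1).1 = ca b.1 hb l := by
        apply Subtype.ext
        show combo w (p (th 1)).1 (la 1) = combo w b.1 l.1
        rw [hth1, p.target]
        have : la 1 = l.1 := by
          show l.1 * max (max (1 - 3 * (1 : I).1) (3 * (1 : I).1 - 2)) 0 = l.1
          norm_num
        rw [this]
      rw [this]
      exact hlb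
  obtain ⟨q, hq1, hq2⟩ := hsq
  exact ⟨q, hq1, Path.Homotopic.trans ⟨Path.Homotopy.reparam p th hth hth0 hth1⟩ hq2⟩

/-- every point can be joined to the link -/
theorem join_link {d : ℕ} (hL : IsCx L) (hw : {w} ∈ L) (hB : IsBall d L)
    (a : realization (del L w)) :
    ∃ b : realization (del L w), b.1 ∈ realization (link L w) ∧ Nonempty (Path a b) := by
  obtain ⟨Ψ, N, hN, heN, h0, h1, h2⟩ := exists_shrink hL hw hB
  have hne : a.1 w ≠ 1 := by
    rw [del_zero a.2]
    exact zero_ne_one
  let x : {x : realization L // x.1 w ≠ 1} := ⟨⟨a.1, del_sub a.2⟩, hne⟩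
  refine ⟨Ψ (x, 1), h2 x, ⟨⟨⟨fun s => Ψ (x, s), ?_⟩, ?_, rfl⟩⟩⟩
  · exact Ψ.continuous.comp (continuous_const.prodMk continuous_id)
  · apply Subtype.ext
    show (Ψ (x, 0)).1 = a.1
    rw [h0]
    exact rad_eq_self (del_zero a.2)

end Pool.Agent.H933R3
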