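import Mathlib
import Pool.Agent.H933R3.EvasD
import Pool.Agent.H933R3.KDefs
import Pool.Agent.H933R3.KPush

set_option autoImplicit false

/-!
# The exterior of an edge
-/

namespace Pool.Agent.H933R3

open Set unitInterval Topology

variable {n : ℕ} {K : Finset (Finset (Fin n))} {u w : Fin n}

theorem sum_two_le {x : Fin n → ℝ} (h0 : ∀ i, 0 ≤ x i) (h1 : ∑ i, x i = 1) (huw : u ≠ w) :
    x u + x w ≤ 1 := by
  rw [← h1, ← Finset.sum_pair huw]
  exact Finset.sum_le_sum_of_subset_of_nonneg (Finset.subset_univ _) (fun j _ _ => h0 j)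

theorem sum_three_le {x : Fin n → ℝ} (h0 : ∀ i, 0 ≤ x i) (h1 : ∑ i, x i = 1) (huw : u ≠ w)
    {i : Fin n} (hi : i ≠ u) (hi' : i ≠ w) : x u + x w + x i ≤ 1 := by
  have h2 : ∑ j ∈ ({i, u, w} : Finset (Fin n)), x j = x i + (x u + x w) := by
    rw [Finset.sum_insert (by simp [hi, hi']), Finset.sum_pair huw]
  have h3 : ∑ j ∈ ({i, u, w} : Finset (Fin n)), x j ≤ ∑ j, x j :=
    Finset.sum_le_sum_of_subset_of_nonneg (Finset.subset_univ _) (fun j _ _ => h0 j)
  linarith

theorem mem_edgeExterior (huw : u ≠ w) {x : Fin n → ℝ} :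
    x ∈ edgeExterior K u w ↔ x ∈ realization K ∧ x u + x w < 1 := by
  constructor
  · rintro ⟨hx, hn⟩
    refine ⟨hx, lt_of_le_of_ne (sum_two_le hx.1 hx.2.1 huw) ?_⟩
    intro h
    apply hn
    refine ⟨x u, x w, hx.1 u, hx.1 w, h, ?_⟩
    ext i
    by_cases hiu : i = u
    · subst hiu
      simp [huw]
    · by_cases hiw : i = w
      · subst hiw
        simp [huw.symm]
      · have h1 := sum_three_le hx.1 hx.2.1 huw hiu hiw
        have h2 := hx.1 i
        have h3 : x i = 0 := by linarith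
        simp [hiu, hiw, h3]
  · rintro ⟨hx, hlt⟩
    refine ⟨hx, ?_⟩
    rintro ⟨a, b, ha, hb, hab, rfl⟩
    simp [huw, huw.symm] at hlt
    linarith

/-- the part of the exterior in the simplex `G` -/
def Sx (u w : Fin n) (G : Finset (Fin n)) : Set (Fin n → ℝ) :=
  {x | (∀ i, 0 ≤ x i) ∧ ∑ i, x i = 1 ∧ (∀ i, i ∉ G → x i = 0) ∧ x u + x w < 1}

theorem Sx_convex (G : Finset (Fin n)) : Convex ℝ (Sx u w G) := by
  intro x hx y hy a b ha hb hab
  refine ⟨?_, ?_, ?_, ?_⟩
  · intro i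
    exact add_nonneg (mul_nonneg ha (hx.1 i)) (mul_nonneg hb (hy.1 i))
  · simp only [Pi.add_apply, Pi.smul_apply, smul_eq_mul]
    rw [Finset.sum_add_distrib, ← Finset.mul_sum, ← Finset.mul_sum, hx.2.1, hy.2.1]
    linarith
  · intro i hi
    simp [hx.2.2.1 i hi, hy.2.2.1 i hi]
  · simp only [Pi.add_apply, Pi.smul_apply, smul_eq_mul]
    have h1 := hx.2.2.2
    have h2 := hy.2.2.2
    rcases eq_or_lt_of_le ha with h | h
    · subst h
      have : b = 1 := by linarith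
      subst this
      linarith
    · nlinarith

theorem Sx_sub (huw : u ≠ w) {G : Finset (Fin n)} (hG : G ∈ K) :
    Sx u w G ⊆ edgeExterior K u w := by
  intro x hx
  exact (mem_edgeExterior huw).2 ⟨⟨hx.1, hx.2.1, G, hG, hx.2.2.1⟩, hx.2.2.2⟩

theorem single_mem_Sx {G : Finset (Fin n)} {v : Fin n} (hv : v ∈ G) (hvu : v ≠ u)
    (hvw : v ≠ w) : (Pi.single v 1 : Fin n → ℝ) ∈ Sx u w G := by
  refine ⟨?_, ?_, ?_, ?_⟩
  · intro i
    by_cases h : i = v
    · subst h; simp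
    · simp [h]
  · simp
  · intro i hi
    have : i ≠ v := by
      rintro rfl
      exact hi hv
    exact Pi.single_eq_of_ne this _
  · rw [Pi.single_eq_of_ne hvu.symm, Pi.single_eq_of_ne hvw.symm]
    norm_num

/-- every point of the exterior is in some `Sx` -/
theorem exists_Sx (huw : u ≠ w) {x : Fin n → ℝ} (hx : x ∈ edgeExterior K u w) :
    ∃ G ∈ K, x ∈ Sx u w G := by
  obtain ⟨h1, h2⟩ := (mem_edgeExterior huw).1 hx
  obtain ⟨G, hG, hs⟩ := h1.2.2
  exact ⟨G, hG, h1.1, h1.2.1, hs, h2⟩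

theorem mem_of_pos {G : Finset (Fin n)} {x : Fin n → ℝ} (hx : x ∈ Sx u w G) {v : Fin n}
    (hv : 0 < x v) : v ∈ G := by
  by_contra h
  exact hv.ne' (hx.2.2.1 v h)

theorem exists_pos (huw : u ≠ w) {x : Fin n → ℝ} (hx : x ∈ edgeExterior K u w) :
    ∃ v, v ≠ u ∧ v ≠ w ∧ 0 < x v := by
  obtain ⟨h1, h2⟩ := (mem_edgeExterior huw).1 hx
  by_contra hcon
  push Not at hcon
  have h3 : ∑ i, x i = ∑ i ∈ ({u, w} : Finset (Fin n)), x i := by
    symm
    refine Finset.sum_subset (Finset.subset_univ _) ?_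
    intro i _ hi
    rw [Finset.mem_insert, Finset.mem_singleton, not_or] at hi
    exact le_antisymm (hcon i hi.1 hi.2) (h1.1 i)
  rw [Finset.sum_pair huw, h1.2.1] at h3
  linarith

/-- open star -/
def ostar (K : Finset (Finset (Fin n))) (v : Fin n) : Set (Fin n → ℝ) :=
  {x | x ∈ realization K ∧ 0 < x v}

theorem ostar_sub (huw : u ≠ w) {v : Fin n} (hvu : v ≠ u) (hvw : v ≠ w) :
    ostar K v ⊆ edgeExterior K u w := by
  intro x hx
  refine (mem_edgeExterior huw).2 ⟨hx.1, ?_⟩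
  have := sum_three_le hx.1.1 hx.1.2.1 huw hvu hvw
  linarith [hx.2]

theorem ostar_star (v : Fin n) : StarConvex ℝ (Pi.single v 1 : Fin n → ℝ) (ostar K v) := by
  intro y hy a b ha hb hab
  obtain ⟨⟨h0, h1, G, hG, hs⟩, hp⟩ := hy
  have hvG : v ∈ G := by
    by_contra h
    exact hp.ne' (hs v h)
  refine ⟨⟨?_, ?_, G, hG, ?_⟩, ?_⟩
  · intro i
    have h2 : (0 : ℝ) ≤ (Pi.single v 1 : Fin n → ℝ) i := by
      by_cases h : i = v
      · subst h; simp
      · simp [h]
    exact add_nonneg (mul_nonneg ha h2) (mul_nonneg hb (h0 i))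
  · simp only [Pi.add_apply, Pi.smul_apply, smul_eq_mul]
    rw [Finset.sum_add_distrib, ← Finset.mul_sum, ← Finset.mul_sum, h1]
    simp
    linarith
  · intro i hi
    have : i ≠ v := fun h => hi (h ▸ hvG)
    simp [this, hs i hi]
  · simp only [Pi.add_apply, Pi.smul_apply, smul_eq_mul, Pi.single_eq_same]
    rcases eq_or_lt_of_le ha with h | h
    · subst h
      have : b = 1 := by linarith
      subst this
      linarith
    · have := mul_nonneg hb hp.le
      linarith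

theorem frame_sub (huw : u ≠ w) : realization (del (link K u) w) ⊆ edgeExterior K u w := by
  intro x hx
  obtain ⟨h0, h1, F, hF, hs⟩ := hx
  have h2 := mem_del.1 hF
  have h3 : F ∈ K ∧ u ∉ F ∧ insert u F ∈ K := by simpa [link] using h2.1
  refine (mem_edgeExterior huw).2 ⟨⟨h0, h1, F, h3.1, hs⟩, ?_⟩
  rw [hs u h3.2.1, hs w h2.2]
  norm_num

theorem frame_sub' (huw : u ≠ w) : realization (del (link K w) u) ⊆ edgeExterior K u w := by
  intro x hx
  obtain ⟨h0, h1, F, hF, hs⟩ := hx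
  have h2 := mem_del.1 hF
  have h3 : F ∈ K ∧ w ∉ F ∧ insert w F ∈ K := by simpa [link] using h2.1
  refine (mem_edgeExterior huw).2 ⟨⟨h0, h1, F, h3.1, hs⟩, ?_⟩
  rw [hs w h3.2.1, hs u h2.2]
  norm_num

theorem link_link_comm (hK : IsCx K) (hu : {u} ∈ K) (hw : {w} ∈ K) :
    link (link K u) w = link (link K w) u := by
  ext F
  rw [mem_link (hK.link hu), mem_link hK, mem_link (hK.link hw), mem_link hK]
  rw [Finset.mem_insert, Finset.mem_insert, not_or, not_or, Finset.insert_comm u w F]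
  constructor
  · rintro ⟨h1, ⟨h2, h3⟩, h4⟩
    exact ⟨h3, ⟨fun h => h2 h.symm, h1⟩, h4⟩
  · rintro ⟨h1, ⟨h2, h3⟩, h4⟩
    exact ⟨h3, ⟨fun h => h2 h.symm, h1⟩, h4⟩

theorem link_link_sub_del (hK : IsCx K) (hu : {u} ∈ K) :
    realization (link (link K u) w) ⊆ realization (del (link K u) w) := by
  rintro x ⟨h0, h1, F, hF, hs⟩
  refine ⟨h0, h1, F, ?_, hs⟩
  rw [mem_link (hK.link hu)] at hF
  rw [mem_del]
  exact ⟨(hK.link hu).2 _ hF.2 _ (Finset.subset_insert _ _), hF.1⟩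

/-- pushing paths into the link of the edge -/
theorem push_in {Ys : Set (Fin n → ℝ)} (hK : IsCx K) (hu : {u} ∈ K) (huw : u ≠ w)
    (huwK : {u, w} ∈ K) (hB : IsBall 2 (link K u))
    (hsub : realization (del (link K u) w) ⊆ Ys) {a b : Ys}
    (ha : a.1 ∈ realization (link (link K u) w)) (hb : b.1 ∈ realization (link (link K u) w))
    (p : Path a b) (hp : ∀ t, (p t).1 ∈ realization (del (link K u) w)) :
    ∃ q : Path a b, (∀ t, (q t).1 ∈ realization (link (link K u) w)) ∧ p.Homotopic q := by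
  let ι : C(realization (del (link K u) w), Ys) := ⟨fun x => ⟨x.1, hsub x.2⟩, by fun_prop⟩
  let a' : realization (del (link K u) w) := ⟨a.1, by simpa using hp 0⟩
  let b' : realization (del (link K u) w) := ⟨b.1, by simpa using hp 1⟩
  let p' : Path a' b' := ⟨⟨fun t => ⟨(p t).1, hp t⟩, by fun_prop⟩,
    Subtype.ext (by simp [a']), Subtype.ext (by simp [b'])⟩
  have hwl : {w} ∈ link K u := (mem_link' hK).2 ⟨huw, huwK⟩
  obtain ⟨q, hq1, hq2⟩ := push_path (hK.link hu) hwl hB (a := a') (b := b') ha hb p'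
  exact ⟨q.map ι.continuous, hq1, hq2.map ι⟩

end Pool.Agent.H933R3
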