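import Mathlib
import Pool.Agent.H933R3.KGeo
import Pool.Agent.H933R3.KCirc

set_option autoImplicit false

/-!
# In a non-evasive complex, loops avoiding an edge can be pushed into the link of the edge
-/

namespace Pool.Agent.H933R3

open Set unitInterval Topology

variable {n : ℕ} {K : Finset (Finset (Fin n))} {u w : Fin n}

theorem lin_self {Ys : Set (Fin n → ℝ)} (a : Ys) (h : segment ℝ a.1 a.1 ⊆ Ys) :
    Path.Homotopic.Quotient.mk (lin a a h) = Path.Homotopic.Quotient.mk (Path.refl a) := by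
  congr 1
  ext t i
  show AffineMap.lineMap a.1 a.1 (t : ℝ) i = a.1 i
  simp

/-- transport of a set of classes along an edge -/
def psiT (Ys : Set (Fin n → ℝ)) (x0 : Ys) (pt : Fin n → Ys) (a b : Fin n)
    (S : Set (Path.Homotopic.Quotient x0 (pt a))) : Set (Path.Homotopic.Quotient x0 (pt b)) :=
  {q' | ∃ h : segment ℝ (pt a).1 (pt b).1 ⊆ Ys, ∃ q ∈ S,
    q' = q.trans (Path.Homotopic.Quotient.mk (lin (pt a) (pt b) h))}

/-- classes of paths in a given set -/
def colT (Ys : Set (Fin n → ℝ)) (x0 : Ys) (pt : Fin n → Ys) (fr : Fin n → Set (Fin n → ℝ))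
    (t v : Fin n) : Set (Path.Homotopic.Quotient x0 (pt v)) :=
  {q | ∃ p : Path x0 (pt v), (∀ s, (p s).1 ∈ fr t) ∧ Path.Homotopic.Quotient.mk p = q}

theorem seg_sub (huw : u ≠ w) {G : Finset (Fin n)} (hG : G ∈ K) {a b : Fin n → ℝ}
    (ha : a ∈ Sx u w G) (hb : b ∈ Sx u w G) : segment ℝ a b ⊆ edgeExterior K u w :=
  ((Sx_convex G).segment_subset ha hb).trans (Sx_sub huw hG)

theorem lin_Sx {Ys : Set (Fin n → ℝ)} {G : Finset (Fin n)} {a b : Ys}
    (ha : a.1 ∈ Sx u w G) (hb : b.1 ∈ Sx u w G) (h : segment ℝ a.1 b.1 ⊆ Ys) (t : I) :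
    (lin a b h t).1 ∈ Sx u w G :=
  (Sx_convex G).segment_subset ha hb (lin_mem a b h t)

theorem trans_mem {Ys : Set (Fin n → ℝ)} {S : Set (Fin n → ℝ)} {a b c : Ys} {p : Path a b}
    {q : Path b c} (hp : ∀ t, (p t).1 ∈ S) (hq : ∀ t, (q t).1 ∈ S) (t : I) :
    ((p.trans q) t).1 ∈ S := by
  rw [Path.trans_apply]
  split_ifs
  · exact hp _
  · exact hq _

theorem tri (huw : u ≠ w) {G : Finset (Fin n)} (hG : G ∈ K) {a b c : edgeExterior K u w}
    (ha : a.1 ∈ Sx u w G) (hb : b.1 ∈ Sx u w G) (hc : c.1 ∈ Sx u w G)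
    (h1 : segment ℝ a.1 b.1 ⊆ edgeExterior K u w) (h2 : segment ℝ b.1 c.1 ⊆ edgeExterior K u w)
    (h3 : segment ℝ a.1 c.1 ⊆ edgeExterior K u w) :
    (Path.Homotopic.Quotient.mk (lin a b h1)).trans (Path.Homotopic.Quotient.mk (lin b c h2)) = Path.Homotopic.Quotient.mk (lin a c h3) := by
  rw [← Path.Homotopic.Quotient.mk_trans]
  refine Path.Homotopic.Quotient.eq.2 ?_
  exact star_homotopic (Sx_sub huw hG) ((Sx_convex G).starConvex ha) _ _
    (trans_mem (lin_Sx ha hb h1) (lin_Sx hb hc h2)) (lin_Sx ha hc h3)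

theorem main_loops (hK : IsCx K) (hne : NonEvasive K) (huw : u ≠ w) (huwK : {u, w} ∈ K)
    (hBu : IsBall 2 (link K u)) (hBw : IsBall 2 (link K w)) {c0 : Fin n}
    (hc0 : {c0} ∈ link (link K u) w) (x0 : edgeExterior K u w) (hx0 : x0.1 = Pi.single c0 1)
    (p : Path x0 x0) : ∃ q : Path x0 x0, (∀ t, (q t).1 ∈ realization (link (link K u) w)) ∧
      p.Homotopic q := by
  have huK : {u} ∈ K := hK.2 _ huwK _ (by simp)
  have hwK : {w} ∈ K := hK.2 _ huwK _ (by simp)
  have hwuK : {w, u} ∈ K := by rwa [Finset.pair_comm]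
  have hLu := hK.link huK
  have hLw := hK.link hwK
  have hcomm := link_link_comm hK huK hwK
  have hc0' : c0 ≠ u ∧ c0 ≠ w ∧ {u, w, c0} ∈ K := by
    have h1 := (mem_link hLu).1 hc0
    have h2 := (mem_link hK).1 h1.2
    refine ⟨fun h => h2.1 (by simp [h]), fun h => h1.1 (by simp [h]), h2.2⟩
  obtain ⟨hc0u, hc0w, hc0K⟩ := hc0'
  have hptx : ∀ v : Fin n, ∃ y : edgeExterior K u w, v ≠ u → v ≠ w → {v} ∈ K →
      y.1 = Pi.single v 1 := by
    intro v
    by_cases h : v ≠ u ∧ v ≠ w ∧ {v} ∈ K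
    · exact ⟨⟨_, Sx_sub huw h.2.2 (single_mem_Sx (Finset.mem_singleton_self v) h.1 h.2.1)⟩,
        fun _ _ _ => rfl⟩
    · exact ⟨x0, fun h1 h2 h3 => absurd ⟨h1, h2, h3⟩ h⟩
  choose pt hpt using hptx
  let fr : Fin n → Set (Fin n → ℝ) := fun t =>
    if t = u then realization (del (link K u) w) else realization (del (link K w) u)
  have hfru : fr u = realization (del (link K u) w) := if_pos rfl
  have hfrw : fr w = realization (del (link K w) u) := if_neg huw.symm
  let T : Finset (Fin n) := {u, w}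
  have hT : ∀ v, v ∉ T ↔ v ≠ u ∧ v ≠ w := by
    intro v
    simp [T]
  have hT' : ∀ v, v ∈ T → v = u ∨ v = w := by
    intro v
    simp [T]
  -- vertices in `Sx`
  have hptS : ∀ v, v ∉ T → ∀ G : Finset (Fin n), G ∈ K → v ∈ G → (pt v).1 ∈ Sx u w G := by
    intro v hv G hG hvG
    rw [hT] at hv
    rw [hpt v hv.1 hv.2 (hK.2 _ hG _ (Finset.singleton_subset_iff.2 hvG))]
    exact single_mem_Sx hvG hv.1 hv.2
  -- simplices of the frame
  have hfrS : ∀ t ∈ T, ∀ G : Finset (Fin n), (∀ v ∈ G, v ∉ T) → insert t G ∈ K →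
      Sx u w G ⊆ fr t := by
    intro t ht G hG hGK x hx
    rcases hT' t ht with h | h
    · rw [h, hfru]
      rw [h] at hGK
      refine ⟨hx.1, hx.2.1, G, ?_, hx.2.2.1⟩
      rw [mem_del, mem_link hK]
      exact ⟨⟨fun h' => ((hT _).1 (hG _ h')).1 rfl, hGK⟩, fun h' => ((hT _).1 (hG _ h')).2 rfl⟩
    · rw [h, hfrw]
      rw [h] at hGK
      refine ⟨hx.1, hx.2.1, G, ?_, hx.2.2.1⟩
      rw [mem_del, mem_link hK]
      exact ⟨⟨fun h' => ((hT _).1 (hG _ h')).2 rfl, hGK⟩, fun h' => ((hT _).1 (hG _ h')).1 rfl⟩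
  -- points in the link of the edge
  have hlkS : ∀ v, v ∉ T → {u, w, v} ∈ K → (pt v).1 ∈ realization (link (link K u) w) := by
    intro v hv hvK
    have hv' := (hT v).1 hv
    rw [hpt v hv'.1 hv'.2 (hK.2 _ hvK _ (by simp))]
    refine single_mem ?_
    rw [mem_link hLu, mem_link hK]
    refine ⟨by simpa using hv'.2.symm, ?_, hvK⟩
    simp only [Finset.mem_insert, Finset.mem_singleton, not_or]
    exact ⟨huw, hv'.1.symm⟩
  have hx0l : x0.1 ∈ realization (link (link K u) w) := by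
    rw [hx0]
    exact single_mem hc0
  have hpu : ∀ v, v ∉ T → {u, w, v} ∈ K → ∀ p : Path x0 (pt v), (∀ s, (p s).1 ∈ fr u) →
      ∃ q : Path x0 (pt v), (∀ t, (q t).1 ∈ realization (link (link K u) w)) ∧
        p.Homotopic q := by
    intro v hv hvK p hp
    rw [hfru] at hp
    exact push_in hK huK huw huwK hBu (frame_sub huw) hx0l (hlkS v hv hvK) p hp
  have hpw : ∀ v, v ∉ T → {u, w, v} ∈ K → ∀ p : Path x0 (pt v), (∀ s, (p s).1 ∈ fr w) →
      ∃ q : Path x0 (pt v), (∀ t, (q t).1 ∈ realization (link (link K u) w)) ∧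
        p.Homotopic q := by
    intro v hv hvK p hp
    rw [hfrw] at hp
    rw [hcomm]
    exact push_in hK hwK huw.symm hwuK hBw (frame_sub' huw) (hcomm ▸ hx0l)
      (hcomm ▸ hlkS v hv hvK) p hp
  have hlu : realization (link (link K u) w) ⊆ fr u := by
    rw [hfru]
    exact link_link_sub_del hK huK
  have hlw : realization (link (link K u) w) ⊆ fr w := by
    rw [hfrw, hcomm]
    exact link_link_sub_del hK hwK
  have hcol : ∀ v, v ∉ T → {u, w, v} ∈ K →
      colT (edgeExterior K u w) x0 pt fr u v = colT (edgeExterior K u w) x0 pt fr w v := by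
    intro v hv hvK
    ext q
    constructor
    · rintro ⟨p, hp, rfl⟩
      obtain ⟨q, hq1, hq2⟩ := hpu v hv hvK p hp
      exact ⟨q, fun t => hlw (hq1 t), (Path.Homotopic.Quotient.eq.2 hq2).symm⟩
    · rintro ⟨p, hp, rfl⟩
      obtain ⟨q, hq1, hq2⟩ := hpw v hv hvK p hp
      exact ⟨q, fun t => hlu (hq1 t), (Path.Homotopic.Quotient.eq.2 hq2).symm⟩
  have hLS : LSD K T (psiT (edgeExterior K u w) x0 pt)
      (colT (edgeExterior K u w) x0 pt fr) := by
    refine ⟨?_, ?_, ?_, ?_⟩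
    · intro a ha haK S
      have hS := hptS a ha {a} haK (Finset.mem_singleton_self a)
      have h := seg_sub huw haK hS hS
      ext q'
      constructor
      · rintro ⟨h', q, hq, rfl⟩
        rw [lin_self]
        have e : q.trans (Path.Homotopic.Quotient.mk (Path.refl (pt a))) = q :=
          Path.Homotopic.Quotient.trans_refl q
        rw [e]
        exact hq
      · intro hq
        refine ⟨h, q', hq, ?_⟩
        rw [lin_self]
        exact (Path.Homotopic.Quotient.trans_refl q').symm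
    · intro a b c ha hb hc habc S
      have hSa := hptS a ha _ habc (by simp)
      have hSb := hptS b hb _ habc (by simp)
      have hSc := hptS c hc _ habc (by simp)
      have h1 := seg_sub huw habc hSa hSb
      have h2 := seg_sub huw habc hSb hSc
      have h3 := seg_sub huw habc hSa hSc
      ext q'
      constructor
      · rintro ⟨_, q1, ⟨_, q, hq, rfl⟩, rfl⟩
        refine ⟨h3, q, hq, ?_⟩
        rw [Path.Homotopic.Quotient.trans_assoc, tri huw habc hSa hSb hSc h1 h2 h3]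
      · rintro ⟨_, q, hq, rfl⟩
        refine ⟨h2, _, ⟨h1, q, hq, rfl⟩, ?_⟩
        rw [Path.Homotopic.Quotient.trans_assoc, tri huw habc hSa hSb hSc h1 h2 h3]
    · intro t ht a b ha hb htab
      have habK : {a, b} ∈ K := hK.2 _ htab _ (by intro z; simp; tauto)
      have hSa := hptS a ha _ habK (by simp)
      have hSb := hptS b hb _ habK (by simp)
      have h1 := seg_sub huw habK hSa hSb
      have h2 := seg_sub huw habK hSb hSa
      have h3 := seg_sub huw habK hSb hSb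
      have hfr := hfrS t ht {a, b} (by
        intro v hv
        simp only [Finset.mem_insert, Finset.mem_singleton] at hv
        rcases hv with rfl | rfl
        · exact ha
        · exact hb) htab
      ext q'
      constructor
      · rintro ⟨_, q, ⟨p, hp, rfl⟩, rfl⟩
        exact ⟨p.trans (lin (pt a) (pt b) h1),
          trans_mem hp (fun t => hfr (lin_Sx hSa hSb h1 t)), Path.Homotopic.Quotient.mk_trans _ _⟩
      · rintro ⟨p, hp, rfl⟩
        refine ⟨h1, Path.Homotopic.Quotient.mk (p.trans (lin (pt b) (pt a) h2)),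
          ⟨_, trans_mem hp (fun t => hfr (lin_Sx hSb hSa h2 t)), rfl⟩, ?_⟩
        rw [Path.Homotopic.Quotient.mk_trans, Path.Homotopic.Quotient.trans_assoc,
          tri huw habK hSb hSa hSb h2 h1 h3, lin_self]
        exact (Path.Homotopic.Quotient.trans_refl _).symm
    · intro t ht t' ht' a ha hK'
      rcases hT' t ht with h | h <;> rcases hT' t' ht' with h' | h'
      · rw [h, h']
      · subst h
        subst h'
        exact hcol a ha hK'
      · subst h
        subst h'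
        exact (hcol a ha (by rwa [Finset.insert_comm] at hK')).symm
      · rw [h, h']
  have hcl : ∀ t ∈ T, ∀ t' ∈ T, {t, t'} ∈ K := by
    intro t ht t' ht'
    rcases hT' t ht with h | h <;> rcases hT' t' ht' with h' | h' <;> rw [h, h']
    · simpa using huK
    · exact huwK
    · exact hwuK
    · simpa using hwK
  obtain ⟨g, hg1, hg2⟩ := ((nonEvasive_sectionsD hne hK).2 T _ _ _ hLS hcl).2
    ⟨u, by simp [T]⟩
  have hgc : g c0 = colT (edgeExterior K u w) x0 pt fr u c0 :=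
    hg2 u (by simp [T]) c0 ((hT _).2 ⟨hc0u, hc0w⟩)
      (hK.2 _ hc0K _ (by intro z; simp; tauto))
  have hec : pt c0 = x0 := by
    apply Subtype.ext
    rw [hx0, hpt c0 hc0u hc0w (hK.2 _ hc0K _ (by simp))]
  -- the section over the exterior
  let G : ∀ y : edgeExterior K u w, Set (Path.Homotopic.Quotient x0 y) := fun y =>
    {q | ∃ v, v ≠ u ∧ v ≠ w ∧ 0 < y.1 v ∧ ∃ q1 ∈ g v, ∃ p : Path (pt v) y,
      (∀ t, 0 < (p t).1 v) ∧ q = q1.trans (Path.Homotopic.Quotient.mk p)}
  have hG : ∀ (i : {v : Fin n // v ≠ u ∧ v ≠ w}) (y y' : edgeExterior K u w) (p : Path y y'),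
      (∀ t, p t ∈ {y : edgeExterior K u w | 0 < y.1 i.1}) → ∀ q ∈ G y,
      q.trans (Path.Homotopic.Quotient.mk p) ∈ G y' := by
    rintro ⟨v, hvu, hvw⟩ y y' p hp q ⟨v1, hv1u, hv1w, hy1, q1, hq1, p1, hp1, rfl⟩
    have hyv : 0 < y.1 v := by simpa using hp 0
    have hyv' : 0 < y'.1 v := by simpa using hp 1
    obtain ⟨F, hF, hyF⟩ := exists_Sx huw y.2
    have hvF := mem_of_pos hyF hyv
    have hv1F := mem_of_pos hyF hy1
    have hSv := hptS v ((hT _).2 ⟨hvu, hvw⟩) F hF hvF
    have hSv1 := hptS v1 ((hT _).2 ⟨hv1u, hv1w⟩) F hF hv1F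
    have h12 := seg_sub huw hF hSv1 hSv
    have h2y := seg_sub huw hF hSv hyF
    have h1y := seg_sub huw hF hSv1 hyF
    have hvK : {v} ∈ K := hK.2 _ hF _ (Finset.singleton_subset_iff.2 hvF)
    have hv1K : {v1} ∈ K := hK.2 _ hF _ (Finset.singleton_subset_iff.2 hv1F)
    have hv12 : {v1, v} ∈ K := hK.2 _ hF _ (by
      intro z hz
      simp only [Finset.mem_insert, Finset.mem_singleton] at hz
      rcases hz with rfl | rfl
      · exact hv1F
      · exact hvF)
    have hgv : q1.trans (Path.Homotopic.Quotient.mk (lin (pt v1) (pt v) h12)) ∈ g v := by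
      rw [hg1 v1 v ((hT _).2 ⟨hv1u, hv1w⟩) ((hT _).2 ⟨hvu, hvw⟩) hv12]
      exact ⟨h12, q1, hq1, rfl⟩
    have hseg : segment ℝ (pt v).1 y.1 ⊆ ostar K v := by
      rw [hpt v hvu hvw hvK]
      exact (ostar_star v).segment_subset ⟨y.2.1, hyv⟩
    have hseg1 : segment ℝ (pt v1).1 y.1 ⊆ ostar K v1 := by
      rw [hpt v1 hv1u hv1w hv1K]
      exact (ostar_star v1).segment_subset ⟨y.2.1, hy1⟩
    refine ⟨v, hvu, hvw, hyv', _, hgv, (lin (pt v) y h2y).trans p, ?_, ?_⟩
    · intro t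
      exact trans_mem (S := {x | 0 < x v}) (fun t => (hseg (lin_mem _ _ h2y t)).2) hp t
    · have e1 : Path.Homotopic.Quotient.mk p1 = Path.Homotopic.Quotient.mk (lin (pt v1) y h1y) :=
        Path.Homotopic.Quotient.eq.2 (star_homotopic (ostar_sub huw hv1u hv1w) (ostar_star v1)
          _ _ (fun t => ⟨(p1 t).2.1, hp1 t⟩) (fun t => hseg1 (lin_mem _ _ h1y t)))
      rw [e1, Path.Homotopic.Quotient.mk_trans, ← tri huw hF hSv1 hSv hyF h12 h2y h1y]
      simp only [Path.Homotopic.Quotient.trans_assoc]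
  have hcov : ∀ y : edgeExterior K u w, ∃ i : {v : Fin n // v ≠ u ∧ v ≠ w},
      y ∈ {y : edgeExterior K u w | 0 < y.1 i.1} := by
    intro y
    obtain ⟨v, h1, h2, h3⟩ := exists_pos huw y.2
    exact ⟨⟨v, h1, h2⟩, h3⟩
  have hopen : ∀ i : {v : Fin n // v ≠ u ∧ v ≠ w},
      IsOpen {y : edgeExterior K u w | 0 < y.1 i.1} := by
    intro i
    exact isOpen_lt continuous_const ((continuous_apply i.1).comp continuous_subtype_val)
  -- the class of the constant loop
  have hconst : ∀ (y0 : edgeExterior K u w) (e : y0 = x0),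
      (Path.Homotopic.Quotient.mk ((Path.refl x0).cast rfl e)).trans
        (Path.Homotopic.Quotient.mk ((Path.refl x0).cast e rfl)) = Path.Homotopic.Quotient.mk (Path.refl x0) := by
    rintro y0 rfl
    exact Path.Homotopic.Quotient.trans_refl _
  have hpos0 : 0 < x0.1 c0 := by
    rw [hx0]
    simp
  have hrefl : Path.Homotopic.Quotient.mk (Path.refl x0) ∈ G x0 := by
    refine ⟨c0, hc0u, hc0w, hpos0, Path.Homotopic.Quotient.mk ((Path.refl x0).cast rfl hec), ?_,
      (Path.refl x0).cast hec rfl, fun t => hpos0, (hconst _ hec).symm⟩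
    rw [hgc]
    exact ⟨_, fun t => hlu hx0l, rfl⟩
  have hfin := transport_of_cover _ hopen hcov x0 G hG x0 x0 p _ hrefl
  obtain ⟨v, hvu, hvw, hv0, q1, hq1, p1, hp1, he⟩ := hfin
  have hvc : v = c0 := by
    by_contra h
    rw [hx0, Pi.single_eq_of_ne h] at hv0
    exact lt_irrefl _ hv0
  subst hvc
  rw [hgc] at hq1
  obtain ⟨p2, hp2, rfl⟩ := hq1
  obtain ⟨p3, hp3, hp23⟩ := hpu v ((hT _).2 ⟨hvu, hvw⟩) hc0K p2 hp2
  have e1 : Path.Homotopic.Quotient.mk p1 = Path.Homotopic.Quotient.mk ((Path.refl x0).cast hec rfl) :=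
    Path.Homotopic.Quotient.eq.2 (star_homotopic (ostar_sub huw hvu hvw) (ostar_star v)
      _ _ (fun t => ⟨(p1 t).2.1, hp1 t⟩) (fun t => ⟨x0.2.1, hpos0⟩))
  refine ⟨p3.trans ((Path.refl x0).cast hec rfl), ?_, ?_⟩
  · exact trans_mem hp3 (fun t => hx0l)
  · refine Path.Homotopic.Quotient.eq.1 ?_
    rw [Path.Homotopic.Quotient.mk_trans, ← Path.Homotopic.Quotient.eq.2 hp23, ← e1, ← he]
    exact (Path.Homotopic.Quotient.refl_trans _).symm

end Pool.Agent.H933R3
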