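import Mathlib
import Pool.Agent.H933R3.KMain

set_option autoImplicit false

/-!
# The exterior of a spanning edge is path connected, its fundamental group is cyclic
-/

namespace Pool.Agent.H933R3

open Set unitInterval Topology

variable {n : ℕ} {K : Finset (Finset (Fin n))} {u w : Fin n}

/-- every vertex of the link of `u` is joined to the link of the edge -/
theorem joined_link {Ys : Set (Fin n → ℝ)} (hK : IsCx K) (hu : {u} ∈ K) (huw : u ≠ w)
    (huwK : {u, w} ∈ K) (hB : IsBall 2 (link K u))
    (hsub : realization (del (link K u) w) ⊆ Ys) (a : Ys)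
    (ha : a.1 ∈ realization (del (link K u) w)) :
    ∃ b : Ys, b.1 ∈ realization (link (link K u) w) ∧ Joined a b := by
  have hwl : {w} ∈ link K u := (mem_link' hK).2 ⟨huw, huwK⟩
  obtain ⟨b, hb, ⟨p⟩⟩ := join_link (hK.link hu) hwl hB ⟨a.1, ha⟩
  let ι : C(realization (del (link K u) w), Ys) := ⟨fun x => ⟨x.1, hsub x.2⟩, by fun_prop⟩
  exact ⟨⟨b.1, hsub b.2⟩, hb, ⟨p.map ι.continuous⟩⟩

theorem joined_all (hK : IsCx K) (hne : NonEvasive K) (hs : IsSpanningEdge K u w)
    (x0 : edgeExterior K u w) (hx0 : x0.1 ∈ realization (link (link K u) w))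
    (y : edgeExterior K u w) : Joined x0 y := by
  obtain ⟨huw, huwK, hBu, hBw, ⟨hC⟩⟩ := hs
  have huK : {u} ∈ K := hK.2 _ huwK _ (by simp)
  have hwK : {w} ∈ K := hK.2 _ huwK _ (by simp)
  have hwuK : {w, u} ∈ K := by rwa [Finset.pair_comm]
  have hcomm := link_link_comm hK huK hwK
  have hpc := circle_pathConnected hC
  have hsubC : realization (link (link K u) w) ⊆ edgeExterior K u w :=
    (link_link_sub_del hK huK).trans (frame_sub huw)
  let ι : C(realization (link (link K u) w), edgeExterior K u w) :=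
    ⟨fun x => ⟨x.1, hsubC x.2⟩, by fun_prop⟩
  have hCj : ∀ b : edgeExterior K u w, b.1 ∈ realization (link (link K u) w) →
      Joined x0 b := by
    intro b hb
    obtain ⟨p⟩ := hpc.joined ⟨x0.1, hx0⟩ ⟨b.1, hb⟩
    exact ⟨p.map ι.continuous⟩
  -- vertices
  have hconn := (nonEvasive_sectionsD hne hK).1.2
    (fun v => v = u ∨ v = w ∨ ∀ y : edgeExterior K u w, y.1 = Pi.single v 1 → Joined x0 y)
    (by
      intro a b hab hPa
      by_cases hbu : b = u
      · exact Or.inl hbu
      by_cases hbw : b = w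
      · exact Or.inr (Or.inl hbw)
      refine Or.inr (Or.inr fun y hy => ?_)
      have hbK : {b} ∈ K := hK.2 _ hab _ (by simp)
      by_cases hau : a = u
      · subst hau
        have h1 : y.1 ∈ realization (del (link K a) w) := by
          rw [hy]
          refine single_mem ?_
          rw [mem_del, mem_link' hK]
          exact ⟨⟨fun h => hbu h.symm, hab⟩, by simpa using fun h => hbw h.symm⟩
        obtain ⟨b', hb', hj⟩ := joined_link hK huK huw huwK hBu (frame_sub huw) y h1
        exact (hCj b' hb').trans hj.symm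
      by_cases haw : a = w
      · subst haw
        have h1 : y.1 ∈ realization (del (link K a) u) := by
          rw [hy]
          refine single_mem ?_
          rw [mem_del, mem_link' hK]
          exact ⟨⟨fun h => hbw h.symm, hab⟩, by simpa using fun h => hbu h.symm⟩
        obtain ⟨b', hb', hj⟩ := joined_link hK hwK huw.symm hwuK hBw (frame_sub' huw) y h1
        exact (hCj b' (hcomm ▸ hb')).trans hj.symm
      have hSa : (Pi.single a 1 : Fin n → ℝ) ∈ Sx u w {a, b} :=
        single_mem_Sx (by simp) hau haw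
      have hSb : (Pi.single b 1 : Fin n → ℝ) ∈ Sx u w {a, b} :=
        single_mem_Sx (by simp) hbu hbw
      rcases hPa with h | h | h
      · exact absurd h hau
      · exact absurd h haw
      · have hj := h ⟨_, Sx_sub huw hab hSa⟩ rfl
        refine hj.trans ⟨lin _ y ?_⟩
        rw [hy]
        exact seg_sub huw hab hSa hSb)
  obtain ⟨v, hvu, hvw, hv⟩ := exists_pos huw y.2
  obtain ⟨F, hF, hyF⟩ := exists_Sx huw y.2
  have hvF := mem_of_pos hyF hv
  have hvK : {v} ∈ K := hK.2 _ hF _ (Finset.singleton_subset_iff.2 hvF)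
  have hSv : (Pi.single v 1 : Fin n → ℝ) ∈ Sx u w F := single_mem_Sx hvF hvu hvw
  rcases hconn u v huK hvK (Or.inl rfl) with h | h | h
  · exact absurd h hvu
  · exact absurd h hvw
  · have hj := h ⟨_, Sx_sub huw hF hSv⟩ rfl
    exact hj.trans ⟨lin _ y (seg_sub huw hF hSv hyF)⟩

/-- the fundamental group of the exterior of a spanning edge in a non-evasive complex is cyclic -/
theorem isCyclic_exterior (hK : IsCx K) (hne : NonEvasive K) (hs : IsSpanningEdge K u w)
    (y : edgeExterior K u w) : IsCyclic (FundamentalGroup (edgeExterior K u w) y) := by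
  have hs' := hs
  obtain ⟨huw, huwK, hBu, hBw, ⟨hC⟩⟩ := hs
  have huK : {u} ∈ K := hK.2 _ huwK _ (by simp)
  have hsubC : realization (link (link K u) w) ⊆ edgeExterior K u w :=
    (link_link_sub_del hK huK).trans (frame_sub huw)
  let ι : C(realization (link (link K u) w), edgeExterior K u w) :=
    ⟨fun x => ⟨x.1, hsubC x.2⟩, by fun_prop⟩
  -- a vertex of the circle
  obtain ⟨c0, hc0⟩ : ∃ c0, {c0} ∈ link (link K u) w := by
    obtain ⟨h0, h1, F, hF, hsF⟩ := (hC.symm 1).2
    have hFne : F.Nonempty := by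
      rw [Finset.nonempty_iff_ne_empty]
      rintro rfl
      have : ∑ i, (hC.symm 1).1 i = 0 := Finset.sum_eq_zero fun i _ => hsF i (by simp)
      rw [this] at h1
      exact zero_ne_one h1
    obtain ⟨c0, hc0⟩ := hFne
    exact ⟨c0, ((hK.link huK).link ((mem_link' hK).2 ⟨huw, huwK⟩)).2 _ hF _
      (Finset.singleton_subset_iff.2 hc0)⟩
  let c : realization (link (link K u) w) := ⟨Pi.single c0 1, single_mem hc0⟩
  have hcyc : IsCyclic (FundamentalGroup (edgeExterior K u w) (ι c)) := by
    refine isCyclic_of_circle hC ι c ?_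
    intro p
    obtain ⟨q, hq1, hq2⟩ := main_loops hK hne huw huwK hBu hBw hc0 (ι c) rfl p
    refine ⟨⟨⟨fun t => ⟨(q t).1, hq1 t⟩, by fun_prop⟩, ?_, ?_⟩, hq2⟩
    · apply Subtype.ext
      show (q 0).1 = c.1
      rw [q.source]
      rfl
    · apply Subtype.ext
      show (q 1).1 = c.1
      rw [q.target]
      rfl
  obtain ⟨p⟩ := joined_all hK hne hs' (ι c) c.2 y
  exact (FundamentalGroup.fundamentalGroupMulEquivOfPath p).isCyclic.1 hcyc

end Pool.Agent.H933R3
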