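import Mathlib
import Pool.Agent.H933R3.Evas

set_option autoImplicit false

/-!
# Locally constructible complexes
-/

namespace Pool.Agent.H933R3

open Finset

variable {V : Type} [DecidableEq V]

/-! ### An obstruction to local constructibility -/

/-- invariants of all stages -/
theorem LCStage.inv {d : ℕ} {K 𝓕 G : Finset (Finset V)} (h : LCStage d K 𝓕 G) :
    (∀ F ∈ 𝓕, IsFacet K F) ∧ (∀ R ∈ G, R.card = d) ∧
      ∀ R ∈ G, ∃ F ∈ 𝓕, ∃ F' ∈ 𝓕, F ≠ F' ∧ R ⊆ F ∧ R ⊆ F' := by
  induction h with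
  | start F hF =>
    refine ⟨fun X hX => ?_, by simp, by simp⟩
    rw [mem_singleton] at hX
    rw [hX]; exact hF
  | attach 𝓕 G F F' R h hF hF' hn hR h1 h2 hG ih =>
    obtain ⟨i1, i2, i3⟩ := ih
    refine ⟨?_, ?_, ?_⟩
    · intro X hX
      rcases mem_insert.1 hX with rfl | hX
      · exact hF'
      · exact i1 X hX
    · intro X hX
      rcases mem_insert.1 hX with rfl | hX
      · exact hR
      · exact i2 X hX
    · intro X hX
      rcases mem_insert.1 hX with rfl | hX
      · exact ⟨F, mem_insert_of_mem hF, F', mem_insert_self _ _, fun h => hn (h ▸ hF), h1, h2⟩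
      · obtain ⟨A, hA, B, hB, h3⟩ := i3 X hX
        exact ⟨A, mem_insert_of_mem hA, B, mem_insert_of_mem hB, h3⟩
  | glue 𝓕 G F F' R A h hF hF' hne hR h1 h2 hG hA hAR hs ih =>
    obtain ⟨i1, i2, i3⟩ := ih
    refine ⟨i1, ?_, ?_⟩
    · intro X hX
      rcases mem_insert.1 hX with rfl | hX
      · exact hR
      · exact i2 X hX
    · intro X hX
      rcases mem_insert.1 hX with rfl | hX
      · exact ⟨F, hF, F', hF', hne, h1, h2⟩
      · exact i3 X hX

/-- a flat section of the local system `ψ` (on the complement of the vertex set `T`) on the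
complex glued from `𝓕` along `G` -/
structure Sec {α : Type} (T : Finset V) (ψ : V → V → α → α) (𝓕 G : Finset (Finset V))
    (s : Finset V → V → α) : Prop where
  flat : ∀ F ∈ 𝓕, ∀ u ∈ F, ∀ v ∈ F, u ∉ T → v ∉ T → s F v = ψ u v (s F u)
  glued : ∀ R ∈ G, ∀ F ∈ 𝓕, ∀ F' ∈ 𝓕, R ⊆ F → R ⊆ F' → ∀ y ∈ R, y ∉ T → s F y = s F' y

omit [DecidableEq V] in
theorem Sec.same {α : Type} {T : Finset V} {ψ : V → V → α → α} {𝓕 G : Finset (Finset V)}
    {s : Finset V → V → α} (hs : Sec T ψ 𝓕 G s) {A F F' : Finset V} (h : SameFace 𝓕 G A F F')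
    {y : V} (hy : y ∈ A) (hyT : y ∉ T) : s F y = s F' y := by
  induction h with
  | refl => rfl
  | tail _ hbc ih =>
    obtain ⟨hX, hY, R, hR, hA, h1, h2⟩ := hbc
    exact ih.trans (hs.glued R hR _ hX _ hY h1 h2 y (hA hy) hyT)

theorem inter_eq {d : ℕ} {F F' R : Finset V} (hF : F.card = d + 1) (hF' : F'.card = d + 1)
    (hne : F ≠ F') (hR : R.card = d) (h1 : R ⊆ F) (h2 : R ⊆ F') : R = F ∩ F' := by
  apply eq_of_subset_of_card_le (subset_inter h1 h2)
  rw [hR]
  by_contra hcon
  push Not at hcon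
  have h3 : (F ∩ F').card ≤ F.card := card_le_card inter_subset_left
  have h4 : F ∩ F' = F := eq_of_subset_of_card_le inter_subset_left (by omega)
  have h5 : F ⊆ F' := by rw [← h4]; exact inter_subset_right
  exact hne (eq_of_subset_of_card_le h5 (by omega))

/-- Hypotheses on a local system `ψ` on `K` minus `T` and a section `col` near the interior
`(d-2)`-face `T`. -/
structure Twist {α : Type} (d : ℕ) (K : Finset (Finset V)) (T : Finset V) (ψ : V → V → α → α)
    (col : V → α) : Prop where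
  card : T.card + 1 = d
  refl : ∀ F, IsFacet K F → ∀ u ∈ F, u ∉ T → ∀ c, ψ u u c = c
  comp : ∀ F, IsFacet K F → ∀ u ∈ F, ∀ v ∈ F, ∀ w ∈ F, u ∉ T → v ∉ T → w ∉ T →
    ∀ c, ψ v w (ψ u v c) = ψ u w c
  flat : ∀ F, IsFacet K F → T ⊆ F → ∀ u ∈ F, ∀ v ∈ F, u ∉ T → v ∉ T → ψ u v (col u) = col v
  three : ∀ X Y Z W, IsFacet K X → IsFacet K Y → IsFacet K Z → IsFacet K W →
    T ⊆ X → T ⊆ Y → T ⊆ Z → T ⊆ W → X = Y ∨ X = Z ∨ X = W ∨ Y = Z ∨ Y = W ∨ Z = W

/-- the two alternatives for the sections on a stage -/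
def Alt {α : Type} (K : Finset (Finset V)) (T : Finset V) (ψ : V → V → α → α)
    (col : V → α) (𝓕 G : Finset (Finset V)) : Prop :=
  (∀ F0 ∈ 𝓕, ∀ u0 ∈ F0, u0 ∉ T → ∀ c, ∃ s, Sec T ψ 𝓕 G s ∧ s F0 u0 = c) ∨
  ((∀ X, IsFacet K X → T ⊆ X → X ∈ 𝓕) ∧ ∃ s, Sec T ψ 𝓕 G s ∧
    ∀ X ∈ 𝓕, T ⊆ X → ∀ u ∈ X, u ∉ T → s X u = col u)

theorem exists_not_mem {d : ℕ} {T R : Finset V} (hT : T.card + 1 = d) (hR : R.card = d) :
    ∃ y ∈ R, y ∉ T := by
  by_contra hcon
  push Not at hcon
  have h1 : R ⊆ T := hcon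
  have := card_le_card h1
  omega

/-- extension of a section over a new simplex -/
theorem Sec.extend {α : Type} {d : ℕ} {K : Finset (Finset V)} {T : Finset V}
    {ψ : V → V → α → α} {col : V → α} (hT : Twist d K T ψ col)
    (h2K : AtMostTwo d K) {𝓕 G : Finset (Finset V)} (h : LCStage d K 𝓕 G) {F F' R : Finset V}
    (hF : F ∈ 𝓕) (hF' : IsFacet K F') (hn : F' ∉ 𝓕) (hR : R.card = d) (h1 : R ⊆ F) (h2 : R ⊆ F')
    {s : Finset V → V → α} (hs : Sec T ψ 𝓕 G s) {y : V} (hy : y ∈ R) (hyT : y ∉ T) :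
    ∃ s', Sec T ψ (insert F' 𝓕) (insert R G) s' ∧ (∀ X ∈ 𝓕, s' X = s X) ∧
      ∀ u, s' F' u = ψ y u (s F y) := by
  classical
  obtain ⟨i1, i2, i3⟩ := h.inv
  refine ⟨fun X u => if X = F' then ψ y u (s F y) else s X u, ⟨?_, ?_⟩, ?_, ?_⟩
  · intro X hX u hu v hv huT hvT
    by_cases hXF : X = F'
    · subst hXF
      rw [if_pos rfl, if_pos rfl, hT.comp X hF' y (h2 hy) u hu v hv hyT huT hvT]
    · rw [if_neg hXF, if_neg hXF]
      exact hs.flat X ((mem_insert.1 hX).resolve_left hXF) u hu v hv huT hvT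
  · have key : ∀ R' ∈ insert R G, ∀ X ∈ 𝓕, R' ⊆ X → R' ⊆ F' → ∀ z ∈ R', z ∉ T →
        s X z = ψ y z (s F y) := by
      intro R' hR' X hX hRX hRF' z hz hzT
      have hR'c : R'.card = d := by
        rcases mem_insert.1 hR' with rfl | h3
        · exact hR
        · exact i2 R' h3
      rcases mem_insert.1 hR' with rfl | h3
      · -- `X = F`
        have hXF : X = F := by
          rcases h2K R' hR'c X F F' (i1 X hX) (i1 F hF) hF' hRX h1 h2 with h4 | h4 | h4
          · exact h4
          · exact absurd (h4 ▸ hX) hn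
          · exact absurd (h4 ▸ hF) hn
        subst hXF
        exact hs.flat X hF y (h1 hy) z (h1 hz) hyT hzT
      · -- impossible: three facets
        exfalso
        obtain ⟨A, hA, B, hB, hAB, hRA, hRB⟩ := i3 R' h3
        rcases h2K R' hR'c A B F' (i1 A hA) (i1 B hB) hF' hRA hRB hRF' with h4 | h4 | h4
        · exact hAB h4
        · exact hn (h4 ▸ hA)
        · exact hn (h4 ▸ hB)
    intro R' hR' X hX Y hY hRX hRY z hz hzT
    by_cases hXF : X = F'
    · by_cases hYF : Y = F'
      · rw [hXF, hYF]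
      · rw [if_pos hXF, if_neg hYF]
        exact (key R' hR' Y ((mem_insert.1 hY).resolve_left hYF) hRY (hXF ▸ hRX) z hz hzT).symm
    · by_cases hYF : Y = F'
      · rw [if_neg hXF, if_pos hYF]
        exact key R' hR' X ((mem_insert.1 hX).resolve_left hXF) hRX (hYF ▸ hRY) z hz hzT
      · rw [if_neg hXF, if_neg hYF]
        rcases mem_insert.1 hR' with rfl | h3
        · have hXF1 : X = F := by
            rcases h2K R' hR X F F' (i1 X ((mem_insert.1 hX).resolve_left hXF)) (i1 F hF) hF' hRX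
              h1 h2 with h4 | h4 | h4
            · exact h4
            · exact absurd h4 hXF
            · exact absurd (h4 ▸ hF) hn
          have hYF1 : Y = F := by
            rcases h2K R' hR Y F F' (i1 Y ((mem_insert.1 hY).resolve_left hYF)) (i1 F hF) hF' hRY
              h1 h2 with h4 | h4 | h4
            · exact h4
            · exact absurd h4 hYF
            · exact absurd (h4 ▸ hF) hn
          rw [hXF1, hYF1]
        · exact hs.glued R' h3 X ((mem_insert.1 hX).resolve_left hXF) Y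
            ((mem_insert.1 hY).resolve_left hYF) hRX hRY z hz hzT
  · intro X hX
    funext u
    show (if X = F' then ψ y u (s F y) else s X u) = s X u
    rw [if_neg]
    rintro rfl
    exact hn hX
  · intro u
    show (if F' = F' then ψ y u (s F y) else s F' u) = ψ y u (s F y)
    rw [if_pos rfl]

/-- extension of a section over an identification -/
theorem Sec.glue {α : Type} {d : ℕ} {K : Finset (Finset V)} {T : Finset V}
    {ψ : V → V → α → α} (h2K : AtMostTwo d K)
    {𝓕 G : Finset (Finset V)} (h : LCStage d K 𝓕 G) {F F' R : Finset V}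
    (hF : F ∈ 𝓕) (hF' : F' ∈ 𝓕) (hne : F ≠ F') (hR : R.card = d) (h1 : R ⊆ F) (h2 : R ⊆ F')
    {s : Finset V → V → α} (hs : Sec T ψ 𝓕 G s) {y : V} (hy : y ∈ R) (hyT : y ∉ T)
    (he : s F y = s F' y) : Sec T ψ 𝓕 (insert R G) s := by
  obtain ⟨i1, i2, i3⟩ := h.inv
  refine ⟨hs.flat, ?_⟩
  have hz : ∀ z ∈ R, z ∉ T → s F z = s F' z := by
    intro z hz hzT
    rw [hs.flat F hF y (h1 hy) z (h1 hz) hyT hzT, hs.flat F' hF' y (h2 hy) z (h2 hz) hyT hzT, he]
  intro R' hR' X hX Y hY hRX hRY z hzR hzT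
  rcases mem_insert.1 hR' with rfl | h3
  · have hX2 : X = F ∨ X = F' := by
      rcases h2K R' hR X F F' (i1 X hX) (i1 F hF) (i1 F' hF') hRX h1 h2 with h4 | h4 | h4
      · exact Or.inl h4
      · exact Or.inr h4
      · exact absurd h4 hne
    have hY2 : Y = F ∨ Y = F' := by
      rcases h2K R' hR Y F F' (i1 Y hY) (i1 F hF) (i1 F' hF') hRY h1 h2 with h4 | h4 | h4
      · exact Or.inl h4
      · exact Or.inr h4
      · exact absurd h4 hne
    rcases hX2 with rfl | rfl <;> rcases hY2 with rfl | rfl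
    · rfl
    · exact hz z hzR hzT
    · exact (hz z hzR hzT).symm
    · rfl
  · exact hs.glued R' h3 X hX Y hY hRX hRY z hzR hzT

theorem alt_stage {α : Type} {d : ℕ} {K : Finset (Finset V)} {T : Finset V}
    {ψ : V → V → α → α} {col : V → α} (hT : Twist d K T ψ col)
    (hcard : ∀ F, IsFacet K F → F.card = d + 1) (h2K : AtMostTwo d K)
    {𝓕 G : Finset (Finset V)} (h : LCStage d K 𝓕 G) : Alt K T ψ col 𝓕 G := by
  induction h with
  | start F hF =>
    left
    intro F0 hF0 u0 hu0 hu0T c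
    rw [mem_singleton] at hF0
    subst hF0
    refine ⟨fun _ u => ψ u0 u c, ⟨?_, by simp⟩, hT.refl F0 hF u0 hu0 hu0T c⟩
    intro X hX u hu v hv huT hvT
    rw [mem_singleton] at hX
    subst hX
    exact (hT.comp X hF u0 hu0 u hu v hv hu0T huT hvT c).symm
  | attach 𝓕 G F F' R h hF hF' hn hR h1 h2 hG ih =>
    obtain ⟨y, hy, hyT⟩ := exists_not_mem hT.card hR
    rcases ih with ih | ⟨ih1, s, hs, ih2⟩
    · left
      intro F0 hF0 u0 hu0 hu0T c
      by_cases hF0F : F0 = F'
      · subst hF0F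
        obtain ⟨s, hs, hsv⟩ := ih F hF y (h1 hy) hyT (ψ u0 y c)
        obtain ⟨s', hs', -, h4⟩ := hs.extend hT h2K h hF hF' hn hR h1 h2 hy hyT
        refine ⟨s', hs', ?_⟩
        rw [h4, hsv, hT.comp F0 hF' u0 hu0 y (h2 hy) u0 hu0 hu0T hyT hu0T,
          hT.refl F0 hF' u0 hu0 hu0T]
      · have hF0' := (mem_insert.1 hF0).resolve_left hF0F
        obtain ⟨s, hs, hsv⟩ := ih F0 hF0' u0 hu0 hu0T c
        obtain ⟨s', hs', h3, -⟩ := hs.extend hT h2K h hF hF' hn hR h1 h2 hy hyT
        exact ⟨s', hs', by rw [h3 F0 hF0', hsv]⟩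
    · right
      refine ⟨fun X hX hTX => mem_insert_of_mem (ih1 X hX hTX), ?_⟩
      obtain ⟨s', hs', h3, -⟩ := hs.extend hT h2K h hF hF' hn hR h1 h2 hy hyT
      refine ⟨s', hs', ?_⟩
      intro X hX hTX u hu huT
      have hX' : X ∈ 𝓕 := by
        rcases mem_insert.1 hX with rfl | hX
        · exact absurd (ih1 X hF' hTX) hn
        · exact hX
      rw [h3 X hX']
      exact ih2 X hX' hTX u hu huT
  | glue 𝓕 G F F' R A h hF hF' hne hR h1 h2 hG hA hAR hsame ih =>
    obtain ⟨i1, i2, i3⟩ := h.inv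
    by_cases hAT : ∃ y ∈ A, y ∉ T
    · obtain ⟨y, hy, hyT⟩ := hAT
      rcases ih with ih | ⟨ih1, s, hs, ih2⟩
      · left
        intro F0 hF0 u0 hu0 hu0T c
        obtain ⟨s, hs, hsv⟩ := ih F0 hF0 u0 hu0 hu0T c
        exact ⟨s, hs.glue h2K h hF hF' hne hR h1 h2 (hAR hy) hyT (hs.same hsame hy hyT), hsv⟩
      · right
        exact ⟨ih1, s, hs.glue h2K h hF hF' hne hR h1 h2 (hAR hy) hyT (hs.same hsame hy hyT), ih2⟩
    · push Not at hAT
      have hAT' : A = T := by
        apply eq_of_subset_of_card_le hAT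
        have := hT.card
        omega
      subst hAT'
      obtain ⟨y, hy, hyT⟩ := exists_not_mem hT.card hR
      have hTF : A ⊆ F := hAR.trans h1
      have hTF' : A ⊆ F' := hAR.trans h2
      rcases ih with ih | ⟨ih1, s, hs, ih2⟩
      · right
        obtain ⟨s, hs, hsv⟩ := ih F hF y (h1 hy) hyT (col y)
        have hsF : ∀ u ∈ F, u ∉ A → s F u = col u := by
          intro u hu huT
          rw [hs.flat F hF y (h1 hy) u hu hyT huT, hsv]
          exact hT.flat F (i1 F hF) hTF y (h1 hy) u hu hyT huT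
        -- propagate along the class of `A`
        have hprop : ∀ X, SameFace 𝓕 G A F X → X ∈ 𝓕 ∧ A ⊆ X ∧ ∀ u ∈ X, u ∉ A → s X u = col u := by
          intro X hX
          induction hX with
          | refl => exact ⟨hF, hTF, hsF⟩
          | tail _ hbc ih =>
            obtain ⟨hX1, hY, R', hR', hA', h3, h4⟩ := hbc
            obtain ⟨z, hz, hzT⟩ := exists_not_mem hT.card (i2 R' hR')
            refine ⟨hY, hA'.trans h4, ?_⟩
            intro u hu huT
            rw [hs.flat _ hY z (h4 hz) u hu hzT huT,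
              ← hs.glued R' hR' _ hX1 _ hY h3 h4 z hz hzT, ih.2.2 z (h3 hz) hzT]
            exact hT.flat _ (i1 _ hY) (hA'.trans h4) z (h4 hz) u hu hzT huT
        have hall : ∀ X, IsFacet K X → A ⊆ X → SameFace 𝓕 G A F X := by
          intro X hX hAX
          by_contra hcon
          have hXF : X ≠ F := by
            rintro rfl
            exact hcon Relation.ReflTransGen.refl
          have hXF' : X ≠ F' := by
            rintro rfl
            exact hcon hsame
          have : ∀ Y, SameFace 𝓕 G A F Y → Y = F := by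
            intro Y hY
            induction hY with
            | refl => rfl
            | @tail b c hab hbc ih =>
              subst ih
              by_contra hc
              have hcC : SameFace 𝓕 G A b c := hab.tail hbc
              obtain ⟨hX1, hY, R', hR', hA', h3, h4⟩ := hbc
              have hcX : X ≠ c := by
                rintro rfl
                exact hcon hcC
              rcases hT.three X b F' c hX (i1 b hX1) (i1 F' hF') (i1 c hY) hAX
                (hA'.trans h3) hTF' (hA'.trans h4) with h5 | h5 | h5 | h5 | h5 | h5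
              · exact hXF h5
              · exact hXF' h5
              · exact hcX h5
              · exact hne h5
              · exact hc h5.symm
              · subst h5
                have e1 := inter_eq (hcard b (i1 b hX1)) (hcard F' (i1 F' hF')) hne hR h1 h2
                have e2 := inter_eq (hcard b (i1 b hX1)) (hcard F' (i1 F' hF')) hne (i2 R' hR') h3 h4
                rw [← e2] at e1
                exact hG (e1 ▸ hR')
          exact hne (this F' hsame).symm
        refine ⟨fun X hX hAX => (hprop X (hall X hX hAX)).1, s, ?_, ?_⟩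
        · refine hs.glue h2K h hF hF' hne hR h1 h2 hy hyT ?_
          rw [hsF y (h1 hy) hyT, (hprop F' hsame).2.2 y (h2 hy) hyT]
        · intro X hX hAX
          exact (hprop X (hall X (i1 X hX) hAX)).2.2
      · right
        refine ⟨ih1, s, ?_, ih2⟩
        refine hs.glue h2K h hF hF' hne hR h1 h2 hy hyT ?_
        rw [ih2 F hF hTF y (h1 hy) hyT, ih2 F' hF' hTF' y (h2 hy) hyT]

/-- In a locally constructible complex every local system on the complement of an interior
`(d-2)`-face `T` that has a flat section around `T` has a global flat section. -/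
theorem IsLC.section {α : Type} [Nonempty α] {d : ℕ} {K : Finset (Finset V)} {T : Finset V}
    {ψ : V → V → α → α} {col : V → α} (hLC : IsLC d K) (hK : IsCx K) (hT : Twist d K T ψ col) :
    ∃ g : V → α, ∀ u v, u ∉ T → v ∉ T → {u, v} ∈ K → g v = ψ u v (g u) := by
  classical
  obtain ⟨hcard, h2K, 𝓕, G, hst, hall, hfin⟩ := hLC
  obtain ⟨i1, i2, i3⟩ := hst.inv
  have hsec : ∃ s, Sec T ψ 𝓕 G s := by
    rcases alt_stage hT hcard h2K hst with h | ⟨-, s, hs, -⟩
    · by_cases hne : ∃ F0 ∈ 𝓕, ∃ u0 ∈ F0, u0 ∉ T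
      · obtain ⟨F0, hF0, u0, hu0, hu0T⟩ := hne
        obtain ⟨s, hs, -⟩ := h F0 hF0 u0 hu0 hu0T (Classical.arbitrary α)
        exact ⟨s, hs⟩
      · push Not at hne
        refine ⟨fun _ _ => Classical.arbitrary α, ⟨?_, ?_⟩⟩
        · intro F hF u hu v _ huT
          exact absurd (hne F hF u hu) huT
        · intro R hR F hF F' hF' h1 h2 y hy hyT
          rfl
    · exact ⟨s, hs⟩
  obtain ⟨s, hs⟩ := hsec
  have hfacet : ∀ σ ∈ K, ∃ F, IsFacet K F ∧ σ ⊆ F := by
    intro σ hσ
    obtain ⟨F, hF, hmax⟩ := exists_max_image (K.filter (fun F => σ ⊆ F)) card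
      ⟨σ, mem_filter.2 ⟨hσ, Subset.refl _⟩⟩
    rw [mem_filter] at hF
    refine ⟨F, ⟨hF.1, ?_⟩, hF.2⟩
    intro H hH hFH
    exact (eq_of_subset_of_card_le hFH (hmax H (mem_filter.2 ⟨hH, hF.2.trans hFH⟩))).symm
  let g : V → α := fun v => if h : {v} ∈ K then s (hfacet _ h).choose v else Classical.arbitrary α
  have hg : ∀ F ∈ 𝓕, ∀ v ∈ F, v ∉ T → g v = s F v := by
    intro F hF v hv hvT
    have hvK : {v} ∈ K := hK.2 F (i1 F hF).1 _ (singleton_subset_iff.2 hv)
    have hc := (hfacet _ hvK).choose_spec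
    show (if h : {v} ∈ K then s (hfacet _ h).choose v else Classical.arbitrary α) = s F v
    rw [dif_pos hvK]
    exact hs.same (hfin {v} hvK _ (hall _ hc.1) F hF hc.2 (singleton_subset_iff.2 hv))
      (mem_singleton_self v) hvT
  refine ⟨g, ?_⟩
  intro u v huT hvT huv
  obtain ⟨F, hF, hFuv⟩ := hfacet _ huv
  have hF' := hall F hF
  have hu : u ∈ F := hFuv (by simp)
  have hv : v ∈ F := hFuv (by simp)
  rw [hg F hF' u hu huT, hg F hF' v hv hvT]
  exact hs.flat F hF' u hu v hv huT hvT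

end Pool.Agent.H933R3
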