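import Mathlib
import Pool.Agent.H933R3.LC
import Pool.Agent.H933R3.Chain

set_option autoImplicit false

/-!
# Checkers for pseudomanifolds and for local constructions
-/

namespace Pool.Agent.H933R3

open Finset

theorem card_decF (n m : ℕ) : (decF n m).card = (bitsN n m).length := by
  have h : (decF n m).map Fin.valEmbedding = (bitsN n m).toFinset := by
    ext i
    rw [mem_map, List.mem_toFinset, mem_bitsN]
    constructor
    · rintro ⟨j, hj, rfl⟩
      exact ⟨j.2, mem_decF.1 hj⟩
    · rintro ⟨h1, h2⟩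
      exact ⟨⟨i, h1⟩, mem_decF.2 h2, rfl⟩
  rw [← card_map Fin.valEmbedding, h, List.toFinset_card_of_nodup]
  exact (List.nodup_range).filter _

theorem decF_inj {n m m' : ℕ} (hm : m < 2 ^ n) (hm' : m' < 2 ^ n) (h : decF n m = decF n m') :
    m = m' := by
  rw [← enc_decF hm, ← enc_decF hm', h]

theorem decF_land (n m m' : ℕ) : decF n (m &&& m') = decF n m ∩ decF n m' := by
  ext i
  rw [mem_inter, mem_decF, mem_decF, mem_decF, Nat.testBit_land, Bool.and_eq_true]

/-- all masks in `l` are masks of `(d+1)`-subsets of `Fin n` -/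
def pureB (n d : ℕ) (l : List ℕ) : Bool :=
  l.all (fun m => decide (m < 2 ^ n) && ((bitsN n m).length == d + 1))

theorem pureB_spec {n d : ℕ} {l : List ℕ} (h : pureB n d l = true) {m : ℕ} (hm : m ∈ l) :
    m < 2 ^ n ∧ (decF n m).card = d + 1 := by
  rw [pureB, List.all_eq_true] at h
  have := h m hm
  rw [Bool.and_eq_true, decide_eq_true_eq, beq_iff_eq] at this
  exact ⟨this.1, by rw [card_decF, this.2]⟩

theorem isFacet_cx {n d : ℕ} {l : List ℕ} (h : pureB n d l = true) {F : Finset (Fin n)} :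
    IsFacet (cx n l) F ↔ ∃ m ∈ l, F = decF n m := by
  constructor
  · intro hF
    obtain ⟨m, hm, h1⟩ := mem_cx.1 hF.1
    exact ⟨m, hm, (hF.2 _ (mem_cx.2 ⟨m, hm, Subset.refl _⟩) h1).symm⟩
  · rintro ⟨m, hm, rfl⟩
    refine ⟨mem_cx.2 ⟨m, hm, Subset.refl _⟩, ?_⟩
    intro H hH hmH
    obtain ⟨m', hm', h1⟩ := mem_cx.1 hH
    have h2 : decF n m = decF n m' := by
      apply eq_of_subset_of_card_le (hmH.trans h1)
      rw [(pureB_spec h hm).2, (pureB_spec h hm').2]
    apply Subset.antisymm _ hmH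
    rw [h2]; exact h1

theorem pure_cx {n d : ℕ} {l : List ℕ} (h : pureB n d l = true) (F : Finset (Fin n))
    (hF : IsFacet (cx n l) F) : F.card = d + 1 := by
  obtain ⟨m, hm, rfl⟩ := (isFacet_cx h).1 hF
  exact (pureB_spec h hm).2

def twoB (n d : ℕ) (l : List ℕ) : Bool :=
  l.all fun a => l.all fun b => a == b || decide ((bitsN n (a &&& b)).length < d) ||
    l.all fun c => a == c || b == c || decide ((bitsN n (a &&& b &&& c)).length < d)

theorem atMostTwo_cx {n d : ℕ} {l : List ℕ} (h : pureB n d l = true) (h2 : twoB n d l = true) :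
    AtMostTwo d (cx n l) := by
  intro R hR X Y Z hX hY hZ h4 h5 h6
  obtain ⟨a, ha, rfl⟩ := (isFacet_cx h).1 hX
  obtain ⟨b, hb, rfl⟩ := (isFacet_cx h).1 hY
  obtain ⟨c, hc, rfl⟩ := (isFacet_cx h).1 hZ
  rw [twoB, List.all_eq_true] at h2
  have h7 := h2 a ha
  rw [List.all_eq_true] at h7
  have h8 := h7 b hb
  simp only [Bool.or_eq_true, beq_iff_eq, decide_eq_true_eq, List.all_eq_true] at h8
  rcases h8 with (h8 | h8) | h8
  · left; rw [h8]
  · exfalso
    rw [← card_decF, decF_land] at h8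
    have := card_le_card (subset_inter h4 h5)
    omega
  · rcases h8 c hc with (h9 | h9) | h9
    · right; left; rw [h9]
    · right; right; rw [h9]
    · exfalso
      rw [← card_decF, decF_land, decF_land] at h9
      have := card_le_card (subset_inter (subset_inter h4 h5) h6)
      omega

/-! ### Local constructions -/

/-- simplices adjacent to `cur` through glued ridges containing `A` -/
def newB (Fb Gb A : ℕ) (l cur : List ℕ) : List ℕ :=
  l.filter (fun X => Fb.testBit X && !cur.contains X &&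
      cur.any (fun Y => Gb.testBit (Y &&& X) && (A &&& (Y &&& X) == A)))

/-- simplices reachable from `cur` through glued ridges containing `A` -/
def grow (Fb Gb A : ℕ) (l : List ℕ) : ℕ → List ℕ → List ℕ
  | 0, cur => cur
  | k + 1, cur => if (newB Fb Gb A l cur).isEmpty then cur
      else grow Fb Gb A l k (cur ++ newB Fb Gb A l cur)

theorem mem_fam_dec {n N m : ℕ} (hm : m < 2 ^ n) : decF n m ∈ fam n N ↔ N.testBit m = true := by
  rw [mem_fam, enc_decF hm]

theorem decF_subset {n m m' : ℕ} (hm : m < 2 ^ n) (h : m &&& m' = m) : decF n m ⊆ decF n m' := by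
  rw [subset_decF, enc_decF hm]; exact h

theorem grow_sound {n Fb Gb A : ℕ} (hA : A < 2 ^ n) {l : List ℕ} (hl : ∀ m ∈ l, m < 2 ^ n)
    {F : Finset (Fin n)} (k : ℕ) : ∀ cur : List ℕ,
    (∀ m ∈ cur, m < 2 ^ n ∧ decF n m ∈ fam n Fb ∧
      SameFace (fam n Fb) (fam n Gb) (decF n A) F (decF n m)) →
    ∀ m ∈ grow Fb Gb A l k cur, m < 2 ^ n ∧ decF n m ∈ fam n Fb ∧
      SameFace (fam n Fb) (fam n Gb) (decF n A) F (decF n m) := by
  induction k with
  | zero => exact fun cur h => h
  | succ k ih =>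
    intro cur h
    rw [grow]
    split_ifs
    · exact h
    apply ih
    intro m hm
    rcases List.mem_append.1 hm with hm | hm
    · exact h m hm
    · rw [newB, List.mem_filter, Bool.and_eq_true, Bool.and_eq_true, List.any_eq_true] at hm
      obtain ⟨hml, ⟨hmF, -⟩, Y, hY, hY2⟩ := hm
      rw [Bool.and_eq_true, beq_iff_eq] at hY2
      have hmn := hl m hml
      obtain ⟨hYn, hYF, hYs⟩ := h Y hY
      have hmF' := (mem_fam_dec hmn).2 hmF
      have hRn : Y &&& m < 2 ^ n := Nat.and_lt_two_pow _ hmn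
      refine ⟨hmn, hmF', hYs.tail ⟨hYF, hmF', decF n (Y &&& m), (mem_fam_dec hRn).2 hY2.1,
        decF_subset hA hY2.2, ?_, ?_⟩⟩
      · rw [decF_land]; exact inter_subset_left
      · rw [decF_land]; exact inter_subset_right

theorem SameFace.symm {V : Type} {𝓕 G : Finset (Finset V)} {A F F' : Finset V}
    (h : SameFace 𝓕 G A F F') : SameFace 𝓕 G A F' F := by
  induction h with
  | refl => exact Relation.ReflTransGen.refl
  | tail _ hbc ih =>
    obtain ⟨h1, h2, R, hR, h3, h4, h5⟩ := hbc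
    exact Relation.ReflTransGen.head ⟨h2, h1, R, hR, h3, h5, h4⟩ ih

/-- one step of a local construction: attach the simplex `F'` to `F` if `A = 0`, and otherwise
identify the common ridge of `F` and `F'`, the two copies of which share the face `A` -/
def stepLC (n d : ℕ) (l : List ℕ) (st : ℕ × ℕ) (p : ℕ × ℕ × ℕ) : Bool :=
  st.1.testBit p.1 && decide (p.1 < 2 ^ n) && decide (p.2.1 < 2 ^ n) &&
    ((bitsN n (p.1 &&& p.2.1)).length == d) && !(st.2.testBit (p.1 &&& p.2.1)) &&
    (if p.2.2 = 0 then l.contains p.2.1 && !(st.1.testBit p.2.1)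
      else st.1.testBit p.2.1 && !(p.1 == p.2.1) && decide (p.2.2 < 2 ^ n) &&
        ((bitsN n p.2.2).length + 1 == d) && (p.2.2 &&& (p.1 &&& p.2.1) == p.2.2) &&
        (grow st.1 st.2 p.2.2 (l.filter (fun m => p.2.2 &&& m == p.2.2)) l.length
          [p.1]).contains p.2.1)

def nextLC (st : ℕ × ℕ) (p : ℕ × ℕ × ℕ) : ℕ × ℕ :=
  (if p.2.2 = 0 then st.1 ||| 2 ^ p.2.1 else st.1, st.2 ||| 2 ^ (p.1 &&& p.2.1))

/-- all copies of the face `A` are identified -/
def allSame (st : ℕ × ℕ) (l : List ℕ) (A : ℕ) : Bool :=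
  match l.filter (fun m => A &&& m == A) with
  | [] => true
  | m :: l' => l'.all (fun m' => (grow st.1 st.2 A l' l'.length [m]).contains m')

def finLC (n : ℕ) (l : List ℕ) (N : ℕ) (st : ℕ × ℕ) : Bool :=
  l.all (fun m => st.1.testBit m) &&
    (List.range (2 ^ n)).all (fun A => !(N.testBit A) || allSame st l A)

def checkLC (n d : ℕ) (l : List ℕ) (N : ℕ) : ℕ × ℕ → List (ℕ × ℕ × ℕ) → Bool
  | st, [] => finLC n l N st
  | st, p :: ps => stepLC n d l st p && checkLC n d l N (nextLC st p) ps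

theorem fam_insert {n N m : ℕ} (hm : m < 2 ^ n) :
    fam n (N ||| 2 ^ m) = insert (decF n m) (fam n N) := by
  ext σ
  rw [mem_insert, mem_fam, mem_fam, Nat.testBit_lor, Nat.testBit_two_pow, Bool.or_eq_true,
    decide_eq_true_eq]
  have e1 : σ = decF n m ↔ m = enc σ := by
    constructor
    · rintro rfl; exact (enc_decF hm).symm
    · rintro rfl; exact (decF_enc σ).symm
  rw [e1, or_comm]

theorem fam_zero (n : ℕ) : fam n 0 = ∅ := by
  ext σ
  rw [mem_fam]
  simp

theorem step_sound {n d : ℕ} {l : List ℕ} (h : pureB n d l = true) {st : ℕ × ℕ}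
    {p : ℕ × ℕ × ℕ} (hst : LCStage d (cx n l) (fam n st.1) (fam n st.2))
    (hp : stepLC n d l st p = true) :
    LCStage d (cx n l) (fam n (nextLC st p).1) (fam n (nextLC st p).2) := by
  obtain ⟨F, F', A⟩ := p
  simp only [stepLC, Bool.and_eq_true, decide_eq_true_eq, beq_iff_eq, Bool.not_eq_true'] at hp
  obtain ⟨⟨⟨⟨⟨h1, h2⟩, h3⟩, h4⟩, h5⟩, h6⟩ := hp
  have hl : ∀ m ∈ l, m < 2 ^ n := fun m hm => (pureB_spec h hm).1
  have hRn : F &&& F' < 2 ^ n := Nat.and_lt_two_pow _ h3
  have hF := (mem_fam_dec h2).2 h1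
  have hR : decF n (F &&& F') ∉ fam n st.2 := by
    rw [mem_fam_dec hRn, h5]; decide
  have hRc : (decF n (F &&& F')).card = d := by rw [card_decF, h4]
  have hRF : decF n (F &&& F') ⊆ decF n F := by rw [decF_land]; exact inter_subset_left
  have hRF' : decF n (F &&& F') ⊆ decF n F' := by rw [decF_land]; exact inter_subset_right
  by_cases hA : A = 0
  · rw [if_pos hA, Bool.and_eq_true, Bool.not_eq_true'] at h6
    have hF'l : F' ∈ l := by simpa using h6.1
    have e1 : (nextLC st (F, F', A)).1 = st.1 ||| 2 ^ F' := by simp [nextLC, hA]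
    have e2 : (nextLC st (F, F', A)).2 = st.2 ||| 2 ^ (F &&& F') := rfl
    rw [e1, e2, fam_insert h3, fam_insert hRn]
    refine LCStage.attach _ _ (decF n F) _ _ hst hF ((isFacet_cx h).2 ⟨F', hF'l, rfl⟩) ?_ hRc hRF
      hRF' hR
    rw [mem_fam_dec h3, h6.2]; decide
  · rw [if_neg hA] at h6
    simp only [Bool.and_eq_true, decide_eq_true_eq, beq_iff_eq, Bool.not_eq_true',
      beq_eq_false_iff_ne] at h6
    obtain ⟨⟨⟨⟨⟨h7, h8⟩, h9⟩, h10⟩, h11⟩, h12⟩ := h6
    have e1 : (nextLC st (F, F', A)).1 = st.1 := by simp [nextLC, hA]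
    have e2 : (nextLC st (F, F', A)).2 = st.2 ||| 2 ^ (F &&& F') := rfl
    rw [e1, e2, fam_insert hRn]
    have hF' := (mem_fam_dec h3).2 h7
    refine LCStage.glue _ _ (decF n F) (decF n F') _ (decF n A) hst hF hF'
      (fun he => h8 (decF_inj h2 h3 he)) hRc hRF hRF' hR (by rw [card_decF, h10])
      (decF_subset h9 h11) ?_
    refine (grow_sound h9 (fun m hm => hl m (List.mem_of_mem_filter hm)) l.length [F] ?_ F'
      (by simpa using h12)).2.2
    intro m hm
    rw [List.mem_singleton] at hm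
    subst hm
    exact ⟨h2, hF, Relation.ReflTransGen.refl⟩

theorem check_sound {n d : ℕ} {l : List ℕ} (h : pureB n d l = true) {N : ℕ}
    (hN : cx n l = fam n N) (ps : List (ℕ × ℕ × ℕ)) : ∀ st : ℕ × ℕ,
    LCStage d (cx n l) (fam n st.1) (fam n st.2) → checkLC n d l N st ps = true →
    ∃ 𝓕 G : Finset (Finset (Fin n)), LCStage d (cx n l) 𝓕 G ∧
      (∀ F, IsFacet (cx n l) F → F ∈ 𝓕) ∧
      ∀ A ∈ cx n l, ∀ F ∈ 𝓕, ∀ F' ∈ 𝓕, A ⊆ F → A ⊆ F' → SameFace 𝓕 G A F F' := by
  induction ps with
  | nil =>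
    intro st hst hc
    have hl : ∀ m ∈ l, m < 2 ^ n := fun m hm => (pureB_spec h hm).1
    rw [checkLC, finLC, Bool.and_eq_true, List.all_eq_true, List.all_eq_true] at hc
    obtain ⟨h1, h2⟩ := hc
    refine ⟨fam n st.1, fam n st.2, hst, ?_, ?_⟩
    · intro F hF
      obtain ⟨m, hm, rfl⟩ := (isFacet_cx h).1 hF
      exact (mem_fam_dec (hl m hm)).2 (h1 m hm)
    · intro A hA F hF F' hF' hAF hAF'
      have hAn : enc A < 2 ^ n := enc_lt A
      have h3 := h2 (enc A) (List.mem_range.2 hAn)
      rw [hN, mem_fam] at hA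
      rw [hA, Bool.not_true, Bool.false_or] at h3
      have hinv := hst.inv
      obtain ⟨a, ha, rfl⟩ := (isFacet_cx h).1 (hinv.1 F hF)
      obtain ⟨b, hb, rfl⟩ := (isFacet_cx h).1 (hinv.1 F' hF')
      rw [subset_decF] at hAF hAF'
      rw [allSame] at h3
      have ha' : a ∈ l.filter (fun m => enc A &&& m == enc A) := by
        rw [List.mem_filter]; exact ⟨ha, by simpa using hAF⟩
      have hb' : b ∈ l.filter (fun m => enc A &&& m == enc A) := by
        rw [List.mem_filter]; exact ⟨hb, by simpa using hAF'⟩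
      have hsub : ∀ m ∈ l.filter (fun m => enc A &&& m == enc A), m ∈ l := fun m hm =>
        List.mem_of_mem_filter hm
      generalize l.filter (fun m => enc A &&& m == enc A) = L at h3 ha' hb' hsub
      cases L with
      | nil => simp at ha'
      | cons m L =>
        have hm := hsub m (by simp)
        have hmn := hl m hm
        have hkey : ∀ c ∈ m :: L, SameFace (fam n st.1) (fam n st.2) (decF n (enc A)) (decF n m)
            (decF n c) := by
          intro c hc
          rcases List.mem_cons.1 hc with rfl | hc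
          · exact Relation.ReflTransGen.refl
          · have h4 := List.all_eq_true.1 h3 c hc
            refine (grow_sound hAn (fun x hx => hl x (hsub x (List.mem_cons_of_mem _ hx)))
              L.length [m] ?_ c (by simpa using h4)).2.2
            intro x hx
            rw [List.mem_singleton] at hx
            subst hx
            exact ⟨hmn, (mem_fam_dec hmn).2 (h1 x hm), Relation.ReflTransGen.refl⟩
        rw [decF_enc] at hkey
        exact (hkey a ha').symm.trans (hkey b hb')
  | cons p ps ih =>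
    intro st hst hc
    rw [checkLC, Bool.and_eq_true] at hc
    exact ih _ (step_sound h hst hc.1) hc.2

/-- soundness of the certificate for local constructibility -/
theorem isLC_of_check {n d : ℕ} {l : List ℕ} (h : pureB n d l = true) (h2 : twoB n d l = true)
    {F0 : ℕ} (hF0 : F0 ∈ l) {ps : List (ℕ × ℕ × ℕ)}
    (hc : checkLC n d l (bitset (faceMasks n l)) (2 ^ F0, 0) ps = true) : IsLC d (cx n l) := by
  refine ⟨pure_cx h, atMostTwo_cx h h2, check_sound h (cx_eq_fam n l) ps (2 ^ F0, 0) ?_ hc⟩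
  have e : fam n (2 ^ F0) = {decF n F0} := by
    have := fam_insert (n := n) (N := 0) (pureB_spec h hF0).1
    rw [Nat.zero_or, fam_zero] at this
    rw [this]; rfl
  show LCStage d (cx n l) (fam n (2 ^ F0)) (fam n 0)
  rw [e, fam_zero]
  exact LCStage.start _ ((isFacet_cx h).2 ⟨F0, hF0, rfl⟩)

end Pool.Agent.H933R3
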