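import Mathlib
import Pool.Agent.H933R3.Defs

set_option autoImplicit false

/-!
# Stacking all facets, vertex-decomposability and shellability: definitions and main induction
-/

namespace Pool.Agent.H933R3

open Finset

section defs

variable {V : Type} [DecidableEq V]

/-- all facets have the same cardinality -/
def IsPure (K : Finset (Finset V)) : Prop :=
  ∀ F G : Finset V, IsFacet K F → IsFacet K G → F.card = G.card

/-- vertex-decomposable complexes (Provan–Billera) -/
inductive VertexDecomposable : Finset (Finset V) → Prop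
  | simplex (F : Finset V) : VertexDecomposable F.powerset
  | shed (K : Finset (Finset V)) (v : V) (hK : IsCx K) (hp : IsPure K) (hv : {v} ∈ K)
      (hl : VertexDecomposable (link K v)) (hd : VertexDecomposable (del K v))
      (hs : ∀ F, IsFacet (link K v) F → ¬ IsFacet (del K v) F) : VertexDecomposable K

open Classical in
/-- the complex `⟨F⟩ ∩ ⋃_{G ∈ l} ⟨G⟩` -/
noncomputable def meet (F : Finset V) (l : List (Finset V)) : Finset (Finset V) :=
  F.powerset.filter (fun A => ∃ G ∈ l, A ⊆ G)

/-- `l = [F_1, …, F_m]` is a shelling order: for every `j ≥ 2` all facets of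
`⟨F_j⟩ ∩ ⋃_{i < j} ⟨F_i⟩` have one element less than `F_j`.
(For `j = 1` the condition is void, as `meet F [] = ∅`.) -/
inductive IsShelling : List (Finset V) → Prop
  | nil : IsShelling []
  | snoc (l : List (Finset V)) (F : Finset V) (hl : IsShelling l)
      (hF : ∀ R, IsFacet (meet F l) R → R.card + 1 = F.card) : IsShelling (l ++ [F])

/-- shellable complexes -/
def Shellable (K : Finset (Finset V)) : Prop :=
  IsPure K ∧ ∃ l : List (Finset V), l.Nodup ∧ (∀ F, F ∈ l ↔ IsFacet K F) ∧ IsShelling l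

open Classical in
/-- The complex obtained from `K` by stacking all facets: the facets `F` are removed, and for
every facet `F` a new vertex `w_F = Sum.inr F` is added, together with the faces `{w_F} ∪ G` for
the proper faces `G` of `F`. -/
noncomputable def stackAll (K : Finset (Finset V)) : Finset (Finset (V ⊕ Finset V)) :=
  (K.filter (fun G => ¬ IsFacet K G)).image (fun G => G.image Sum.inl) ∪
    (K.filter (fun F => IsFacet K F)).biUnion
      (fun F => F.ssubsets.image (fun G => insert (Sum.inr F) (G.image Sum.inl)))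

end defs

section basic

variable {V : Type} [DecidableEq V]

theorem IsCx.del' {K : Finset (Finset V)} (h : IsCx K) (v : V) : IsCx (del K v) := by
  refine ⟨mem_filter.2 ⟨h.1, notMem_empty v⟩, ?_⟩
  intro σ hσ τ hτ
  rw [Pool.Agent.H933R3.del, mem_filter] at hσ ⊢
  exact ⟨h.2 σ hσ.1 τ hτ, fun hv => hσ.2 (hτ hv)⟩

theorem IsCx.link' {K : Finset (Finset V)} (h : IsCx K) {v : V} (hv : {v} ∈ K) :
    IsCx (link K v) := by
  refine ⟨mem_filter.2 ⟨h.1, notMem_empty v, by simpa using hv⟩, ?_⟩
  intro σ hσ τ hτ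
  rw [Pool.Agent.H933R3.link, mem_filter] at hσ ⊢
  exact ⟨h.2 σ hσ.1 τ hτ, fun hv => hσ.2.1 (hτ hv), h.2 _ hσ.2.2 _ (insert_subset_insert v hτ)⟩

theorem mem_del' {K : Finset (Finset V)} {v : V} {σ : Finset V} :
    σ ∈ del K v ↔ σ ∈ K ∧ v ∉ σ := by
  rw [del, mem_filter]

theorem mem_link' {K : Finset (Finset V)} (h : IsCx K) {v : V} {σ : Finset V} :
    σ ∈ link K v ↔ v ∉ σ ∧ insert v σ ∈ K := by
  rw [link, mem_filter]
  exact ⟨fun h => h.2, fun h' => ⟨h.2 _ h'.2 _ (subset_insert v σ), h'⟩⟩

/-- every face is contained in a facet -/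
theorem exists_facet {K : Finset (Finset V)} {σ : Finset V} (h : σ ∈ K) :
    ∃ τ, IsFacet K τ ∧ σ ⊆ τ := by
  obtain ⟨τ, hτ, hmax⟩ := (K.filter (fun τ => σ ⊆ τ)).exists_max_image Finset.card
    ⟨σ, mem_filter.2 ⟨h, Subset.refl σ⟩⟩
  rw [mem_filter] at hτ
  refine ⟨τ, ⟨hτ.1, fun G hG hτG => ?_⟩, hτ.2⟩
  exact (eq_of_subset_of_card_le hτG (hmax G (mem_filter.2 ⟨hG, hτ.2.trans hτG⟩))).symm

theorem VertexDecomposable.pure {K : Finset (Finset V)} (h : VertexDecomposable K) : IsPure K := by
  cases h with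
  | simplex F =>
    intro A B hA hB
    have h1 : F = A := hA.2 F (mem_powerset.2 (Subset.refl F)) (mem_powerset.1 hA.1)
    have h2 : F = B := hB.2 F (mem_powerset.2 (Subset.refl F)) (mem_powerset.1 hB.1)
    rw [← h1, ← h2]
  | shed _ v hK hp hv hl hd hs => exact hp

/-- if all facets of `K` have `n + 1` elements, then the same holds for the deletion of a shedding
vertex -/
theorem shed_pure {K : Finset (Finset V)} {x : V} {n : ℕ} (hK : IsCx K)
    (hp : ∀ σ ∈ K, ∃ τ ∈ K, σ ⊆ τ ∧ τ.card = n + 1) (hmax : ∀ σ ∈ K, σ.card ≤ n + 1)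
    (hx : {x} ∈ K) (hd : IsPure (del K x))
    (hs : ∀ F, IsFacet (link K x) F → ¬ IsFacet (del K x) F) :
    ∀ σ ∈ del K x, ∃ τ ∈ del K x, σ ⊆ τ ∧ τ.card = n + 1 := by
  -- a face of the deletion with `n + 1` elements
  obtain ⟨τ, hτ, hxτ, hcard⟩ := hp _ hx
  have hxτ' : x ∈ τ := hxτ (mem_singleton_self x)
  have h1 : τ.erase x ∈ link K x := by
    rw [mem_link' hK]
    refine ⟨notMem_erase x τ, ?_⟩
    rw [insert_erase hxτ']
    exact hτ
  obtain ⟨ρ, hρ, hρ'⟩ := exists_facet h1
  have h2 : n ≤ ρ.card := by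
    have := card_le_card hρ'
    rw [card_erase_of_mem hxτ', hcard] at this
    simpa using this
  have hρl := (mem_link' hK).1 hρ.1
  have hρd : ρ ∈ del K x := mem_del'.2 ⟨hK.2 _ hρl.2 _ (subset_insert x ρ), hρl.1⟩
  have h3 : ∃ G ∈ del K x, ρ ⊆ G ∧ G ≠ ρ := by
    by_contra hcon
    push Not at hcon
    exact hs ρ hρ ⟨hρd, hcon⟩
  obtain ⟨G, hG, hρG, hne⟩ := h3
  have h4 : ρ.card < G.card := card_lt_card ⟨hρG, fun h => hne (Subset.antisymm h hρG)⟩
  obtain ⟨F, hF, hGF⟩ := exists_facet hG
  have h5 : F.card = n + 1 := by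
    have h6 := hmax F (mem_del'.1 hF.1).1
    have h7 := card_le_card hGF
    omega
  intro σ hσ
  obtain ⟨τ', hτ', hστ'⟩ := exists_facet hσ
  exact ⟨τ', hτ'.1, hστ', (hd τ' F hτ' hF).trans h5⟩

/-- the condition on a new facet in a shelling -/
def Good (F : Finset V) (l : List (Finset V)) : Prop :=
  ∀ G ∈ l, ∃ R : Finset V, R ⊆ F ∧ R.card + 1 = F.card ∧ F ∩ G ⊆ R ∧ ∃ G' ∈ l, R ⊆ G'

theorem Good.literal {F : Finset V} {l : List (Finset V)} (h : Good F l) :
    ∀ R, IsFacet (meet F l) R → R.card + 1 = F.card := by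
  intro R hR
  obtain ⟨hR1, hR2⟩ := hR
  rw [meet, mem_filter, mem_powerset] at hR1
  obtain ⟨hRF, G, hG, hRG⟩ := hR1
  obtain ⟨R', hR'F, hcard, hsub, G', hG', hR'G'⟩ := h G hG
  have h1 : R' = R := by
    refine hR2 R' ?_ ?_
    · rw [meet, mem_filter, mem_powerset]
      exact ⟨hR'F, G', hG', hR'G'⟩
    · exact (subset_inter hRF hRG).trans hsub
  rw [← h1]
  exact hcard

/-- shelling orders, with the condition `Good` -/
inductive Sh : List (Finset V) → Prop
  | nil : Sh []
  | snoc (l : List (Finset V)) (F : Finset V) (hl : Sh l) (hF : Good F l) : Sh (l ++ [F])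

theorem Sh.isShelling {l : List (Finset V)} (h : Sh l) : IsShelling l := by
  induction h with
  | nil => exact IsShelling.nil
  | snoc l F hl hF ih => exact IsShelling.snoc l F ih hF.literal

/-- distinct singletons in any order -/
theorem sh_of_card_one (l : List (Finset V)) (hn : l.Nodup) (h1 : ∀ F ∈ l, F.card = 1) : Sh l := by
  induction l using List.reverseRecOn with
  | nil => exact Sh.nil
  | append_singleton l F ih =>
    rw [List.nodup_append] at hn
    refine Sh.snoc l F (ih hn.1 fun G hG => h1 G (List.mem_append_left _ hG)) ?_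
    intro G hG
    have hF : F.card = 1 := h1 F (List.mem_append_right _ (List.mem_singleton_self F))
    have hG1 : G.card = 1 := h1 G (List.mem_append_left _ hG)
    have hne : G ≠ F := hn.2.2 G hG F (List.mem_singleton_self F)
    refine ⟨∅, empty_subset F, by simp [hF], ?_, G, hG, empty_subset G⟩
    obtain ⟨a, rfl⟩ := card_eq_one.1 hF
    obtain ⟨b, rfl⟩ := card_eq_one.1 hG1
    intro x hx
    rw [mem_inter, mem_singleton, mem_singleton] at hx
    exact absurd (by rw [← hx.1, ← hx.2]) hne

theorem Sh.append_map {l l' : List (Finset V)} {v : V} (hl : Sh l) (hl' : Sh l')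
    (h1 : ∀ F ∈ l, v ∉ F) (h2 : ∀ F ∈ l', v ∉ F)
    (h3 : ∀ H ∈ l', l ≠ [] → ∃ F ∈ l, H ⊆ F) : Sh (l ++ l'.map (insert v)) := by
  induction hl' with
  | nil => simpa using hl
  | snoc l0 H hl0 hH ih =>
    rw [List.map_append, ← List.append_assoc]
    have hH' : H ∈ l0 ++ [H] := List.mem_append_right _ (List.mem_singleton_self H)
    have hvH : v ∉ H := h2 H hH'
    refine Sh.snoc _ _ (ih (fun F hF => h2 F (List.mem_append_left _ hF))
      (fun F hF => h3 F (List.mem_append_left _ hF))) ?_
    intro G hG0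
    rcases List.mem_append.1 hG0 with hG | hG
    · obtain ⟨F, hF, hHF⟩ := h3 H hH' (List.ne_nil_of_mem hG)
      refine ⟨H, subset_insert v H, (card_insert_of_notMem hvH).symm, ?_, F,
        List.mem_append_left _ hF, hHF⟩
      intro x hx
      rw [mem_inter, mem_insert] at hx
      rcases hx.1 with hxv | hx'
      · rw [hxv] at hx
        exact absurd hx.2 (h1 G hG)
      · exact hx'
    · obtain ⟨H', hH', rfl⟩ := List.mem_map.1 hG
      obtain ⟨R, hR, hcard, hsub, H'', hH'', hR''⟩ := hH H' hH'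
      refine ⟨insert v R, insert_subset_insert v hR, ?_, ?_, insert v H'',
        List.mem_append_right _ (List.mem_map.2 ⟨H'', hH'', rfl⟩), insert_subset_insert v hR''⟩
      · rw [card_insert_of_notMem hvH, card_insert_of_notMem (fun h => hvH (hR h)), hcard]
      · intro x hx
        rw [mem_inter, mem_insert, mem_insert] at hx
        rw [mem_insert]
        by_cases hxv : x = v
        · exact Or.inl hxv
        · right
          refine hsub (mem_inter.2 ⟨?_, ?_⟩)
          · exact hx.1.resolve_left hxv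
          · exact hx.2.resolve_left hxv

end basic

end Pool.Agent.H933R3
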