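import Mathlib
import Pool.Agent.H933R3.Stack

set_option autoImplicit false

/-!
# If the stacked complex is vertex-decomposable then the complex is shellable: the induction
-/

namespace Pool.Agent.H933R3

open Finset

variable {V ι : Type} [DecidableEq V] [DecidableEq ι]

/-- a set of old vertices -/
def lo (ι : Type) [DecidableEq ι] (G : Finset V) : Finset (V ⊕ ι) := G.image Sum.inl

/-- a set of old vertices, together with the new vertex `i` -/
def hi (i : ι) (G : Finset V) : Finset (V ⊕ ι) := insert (Sum.inr i) (G.image Sum.inl)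

@[simp] theorem inl_mem_lo {G : Finset V} {v : V} : Sum.inl v ∈ lo ι G ↔ v ∈ G := by
  simp [lo]

@[simp] theorem inr_mem_lo {G : Finset V} {i : ι} : Sum.inr i ∈ lo ι G ↔ False := by
  simp [lo]

@[simp] theorem inl_mem_hi {G : Finset V} {v : V} {i : ι} : Sum.inl v ∈ hi i G ↔ v ∈ G := by
  simp [hi]

@[simp] theorem inr_mem_hi {G : Finset V} {i j : ι} : Sum.inr j ∈ hi i G ↔ j = i := by
  simp [hi]

theorem card_lo (G : Finset V) : (lo ι G).card = G.card :=
  card_image_of_injective _ Sum.inl_injective

theorem card_hi (i : ι) (G : Finset V) : (hi i G).card = G.card + 1 := by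
  rw [hi, card_insert_of_notMem (by simp), card_image_of_injective _ Sum.inl_injective]

theorem lo_subset {G : Finset V} {σ : Finset (V ⊕ ι)} :
    lo ι G ⊆ σ ↔ ∀ v ∈ G, Sum.inl v ∈ σ := by
  constructor
  · intro h v hv
    exact h (inl_mem_lo.2 hv)
  · rintro h (v | i) hx
    · exact h v (inl_mem_lo.1 hx)
    · simp at hx

theorem hi_subset {i : ι} {G : Finset V} {σ : Finset (V ⊕ ι)} :
    hi i G ⊆ σ ↔ Sum.inr i ∈ σ ∧ ∀ v ∈ G, Sum.inl v ∈ σ := by
  constructor
  · intro h
    exact ⟨h (by simp), fun v hv => h (by simpa using hv)⟩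
  · rintro ⟨h1, h2⟩ (v | j) hx
    · exact h2 v (inl_mem_hi.1 hx)
    · rw [inr_mem_hi] at hx
      rw [hx]
      exact h1

theorem lo_inj {G G' : Finset V} (h : lo ι G = lo ι G') : G = G' :=
  image_injective Sum.inl_injective h

/-- the structure of the complexes occurring in a decomposition of a stacked complex -/
structure HS (n : ℕ) (φ : ι → Finset V) (Γ : Finset (Finset (V ⊕ ι))) : Prop where
  cx : IsCx Γ
  form : ∀ σ ∈ Γ, (∃ G : Finset V, σ = lo ι G ∧ G.card ≤ n) ∨
    (∃ (i : ι) (G : Finset V), σ = hi i G ∧ G ⊂ φ i)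
  full : ∀ i, {Sum.inr i} ∈ Γ → ∀ G, G ⊂ φ i → (∀ v ∈ G, {Sum.inl v} ∈ Γ) → hi i G ∈ Γ
  card : ∀ i, {Sum.inr i} ∈ Γ → (φ i).card = n + 1
  inj : ∀ i j, {Sum.inr i} ∈ Γ → {Sum.inr j} ∈ Γ → φ i = φ j → i = j
  pure : ∀ σ ∈ Γ, ∃ τ ∈ Γ, σ ⊆ τ ∧ τ.card = n + 1

variable {n : ℕ} {φ : ι → Finset V} {Γ : Finset (Finset (V ⊕ ι))}

theorem HS.max (h : HS n φ Γ) : ∀ σ ∈ Γ, σ.card ≤ n + 1 := by
  intro σ hσ
  rcases h.form σ hσ with ⟨G, rfl, hG⟩ | ⟨i, G, rfl, hG⟩
  · rw [card_lo]; omega
  · rw [card_hi]
    have h1 : {Sum.inr i} ∈ Γ := h.cx.2 _ hσ _ (by simp)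
    have h2 := card_lt_card hG
    rw [h.card i h1] at h2
    omega

theorem HS.sub {σ : Finset (V ⊕ ι)} (h : HS n φ Γ) (hσ : σ ∈ Γ) {x : V ⊕ ι} (hx : x ∈ σ) :
    {x} ∈ Γ := h.cx.2 _ hσ _ (singleton_subset_iff.2 hx)

theorem HS.top (h : HS n φ Γ) {σ : Finset (V ⊕ ι)} (hσ : σ ∈ Γ) :
    ∃ (i : ι) (G : Finset V), σ ⊆ hi i G ∧ hi i G ∈ Γ ∧ G ⊂ φ i ∧ G.card = n := by
  obtain ⟨τ, hτ, hsub, hcard⟩ := h.pure σ hσ
  rcases h.form τ hτ with ⟨G, rfl, hG⟩ | ⟨i, G, rfl, hG⟩
  · rw [card_lo] at hcard; omega
  · rw [card_hi] at hcard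
    exact ⟨i, G, hsub, hτ, hG, by omega⟩

theorem HS.del (h : HS n φ Γ) {x : V ⊕ ι} (hx : {x} ∈ Γ) (hd : IsPure (del Γ x))
    (hs : ∀ F, IsFacet (link Γ x) F → ¬ IsFacet (Pool.Agent.H933R3.del Γ x) F) :
    HS n φ (Pool.Agent.H933R3.del Γ x) where
  cx := h.cx.del' x
  form := fun σ hσ => h.form σ (mem_del'.1 hσ).1
  full := by
    intro i hi' G hG hv
    rw [mem_del'] at hi' ⊢
    refine ⟨h.full i hi'.1 G hG fun v hv' => (mem_del'.1 (hv v hv')).1, ?_⟩
    rcases x with v | j
    · rw [inl_mem_hi]
      intro hvG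
      exact (mem_del'.1 (hv v hvG)).2 (mem_singleton_self _)
    · rw [inr_mem_hi]
      intro hji
      exact hi'.2 (by rw [hji]; exact mem_singleton_self _)
  card := fun i hi' => h.card i (mem_del'.1 hi').1
  inj := fun i j hi' hj' => h.inj i j (mem_del'.1 hi').1 (mem_del'.1 hj').1
  pure := shed_pure h.cx h.pure h.max hx hd hs

/-- when the old vertex `v` is shed, the simplices `φ j` containing `v` have all their vertices -/
theorem HS.full_of_del (h : HS n φ Γ) {v : V} (hv : {Sum.inl v} ∈ Γ)
    (h' : HS n φ (Pool.Agent.H933R3.del Γ (Sum.inl v))) {j : ι} (hj : {Sum.inr j} ∈ Γ)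
    (hvj : v ∈ φ j) : ∀ u ∈ φ j, {Sum.inl u} ∈ Γ := by
  have h1 : {Sum.inr j} ∈ Pool.Agent.H933R3.del Γ (Sum.inl v) := mem_del'.2 ⟨hj, by simp⟩
  obtain ⟨k, G, hsub, hmem, hG, hcard⟩ := h'.top h1
  have hk : j = k := by
    have := hsub (mem_singleton_self _)
    simpa using this
  subst hk
  have hvG : v ∉ G := fun hvG => (mem_del'.1 hmem).2 (by simpa using hvG)
  have hGe : G = (φ j).erase v := by
    apply eq_of_subset_of_card_le
    · intro u hu
      rw [mem_erase]
      exact ⟨fun huv => hvG (huv ▸ hu), hG.1 hu⟩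
    · rw [card_erase_of_mem hvj, h.card j hj, hcard]
      simp
  intro u hu
  by_cases huv : u = v
  · rw [huv]; exact hv
  · refine h.sub (mem_del'.1 hmem).1 ?_
    rw [inl_mem_hi, hGe, mem_erase]
    exact ⟨huv, hu⟩

theorem HS.link (hn : 2 ≤ n) (h : HS n φ Γ) {v : V} (hv : {Sum.inl v} ∈ Γ)
    (h' : HS n φ (Pool.Agent.H933R3.del Γ (Sum.inl v))) :
    HS (n - 1) (fun j => (φ j).erase v) (Pool.Agent.H933R3.link Γ (Sum.inl v)) := by
  -- new vertices in the link
  have key : ∀ j, {Sum.inr j} ∈ Pool.Agent.H933R3.link Γ (Sum.inl v) →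
      {Sum.inr j} ∈ Γ ∧ v ∈ φ j := by
    intro j hj
    rw [mem_link' h.cx] at hj
    refine ⟨h.sub hj.2 (by simp), ?_⟩
    rcases h.form _ hj.2 with ⟨G, hG, -⟩ | ⟨i, G, hG, hGi⟩
    · have : Sum.inr j ∈ lo ι G := by rw [← hG]; simp
      simp at this
    · have h1 : Sum.inr j ∈ hi i G := by rw [← hG]; simp
      have h2 : Sum.inl v ∈ hi i G := by rw [← hG]; simp
      rw [inr_mem_hi] at h1
      rw [inl_mem_hi] at h2
      rw [h1]
      exact hGi.1 h2
  refine ⟨h.cx.link' hv, ?_, ?_, ?_, ?_, ?_⟩
  · intro σ hσ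
    rw [mem_link' h.cx] at hσ
    have hσe : σ = (insert (Sum.inl v) σ).erase (Sum.inl v) := (erase_insert hσ.1).symm
    rcases h.form _ hσ.2 with ⟨G, hG, hGc⟩ | ⟨i, G, hG, hGi⟩
    · left
      have hvG : v ∈ G := by
        have : Sum.inl v ∈ lo ι G := by rw [← hG]; simp
        simpa using this
      refine ⟨G.erase v, ?_, ?_⟩
      · rw [hσe, hG]
        ext (u | k)
        · simp
        · simp
      · rw [card_erase_of_mem hvG]
        omega
    · right
      have hvG : v ∈ G := by
        have : Sum.inl v ∈ hi i G := by rw [← hG]; simp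
        simpa using this
      refine ⟨i, G.erase v, ?_, ?_⟩
      · rw [hσe, hG]
        ext (u | k)
        · simp
        · simp
      · refine ⟨erase_subset_erase v hGi.1, fun hcon => hGi.2 ?_⟩
        intro u hu
        by_cases huv : u = v
        · rw [huv]; exact hvG
        · exact (mem_erase.1 (hcon (mem_erase.2 ⟨huv, hu⟩))).2
  · intro j hj G hG _
    obtain ⟨hj1, hj2⟩ := key j hj
    have hvG : v ∉ G := fun hvG => (mem_erase.1 (hG.1 hvG)).1 rfl
    have h1 : insert v G ⊂ φ j := by
      refine ⟨insert_subset hj2 fun u hu => (mem_erase.1 (hG.1 hu)).2, fun hcon => hG.2 ?_⟩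
      intro u hu
      rw [mem_erase] at hu
      exact (mem_insert.1 (hcon hu.2)).resolve_left hu.1
    have h2 : hi j (insert v G) ∈ Γ :=
      h.full j hj1 _ h1 fun u hu => h.full_of_del hv h' hj1 hj2 u (h1.1 hu)
    rw [mem_link' h.cx]
    refine ⟨by simpa using hvG, ?_⟩
    convert h2 using 1
    ext (u | k)
    · simp
    · simp
  · intro j hj
    obtain ⟨hj1, hj2⟩ := key j hj
    rw [card_erase_of_mem hj2, h.card j hj1]
    omega
  · intro i j hi' hj' hij
    obtain ⟨hi1, hi2⟩ := key i hi'
    obtain ⟨hj1, hj2⟩ := key j hj'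
    apply h.inj i j hi1 hj1
    rw [← insert_erase hi2, ← insert_erase hj2]
    exact congrArg (insert v) hij
  · intro σ hσ
    rw [mem_link' h.cx] at hσ
    obtain ⟨τ, hτ, hsub, hcard⟩ := h.pure _ hσ.2
    have hvτ : Sum.inl v ∈ τ := hsub (mem_insert_self _ _)
    refine ⟨τ.erase (Sum.inl v), ?_, ?_, ?_⟩
    · rw [mem_link' h.cx, insert_erase hvτ]
      exact ⟨notMem_erase _ _, hτ⟩
    · intro x hx
      rw [mem_erase]
      exact ⟨fun hxv => hσ.1 (hxv ▸ hx), hsub (mem_insert_of_mem hx)⟩
    · rw [card_erase_of_mem hvτ, hcard]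
      omega

/-- The main induction. -/
theorem main_induction (h : VertexDecomposable Γ) :
    ∀ (n : ℕ) (φ : ι → Finset V), 1 ≤ n → HS n φ Γ → ∃ l : List (Finset V), l.Nodup ∧
      (∀ F, F ∈ l ↔ ∃ i, {Sum.inr i} ∈ Γ ∧ φ i = F ∧ ∀ v ∈ F, {Sum.inl v} ∈ Γ) ∧ Sh l ∧
      ((l = [] ∧ ∃ W : Finset V, W.card = n ∧ ∀ v, {Sum.inl v} ∈ Γ ↔ v ∈ W) ∨
        (∀ G : Finset V, G.card = n → lo ι G ∈ Γ → ∃ F ∈ l, G ⊆ F)) := by
  induction h with
  | simplex σ =>
    intro n φ hn h
    obtain ⟨i, G, hsub, hmem, hG, hcard⟩ := h.top (mem_powerset.2 (Subset.refl σ))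
    have hσ : σ = hi i G := Subset.antisymm hsub (mem_powerset.1 hmem)
    have hW : ∀ v, {Sum.inl v} ∈ σ.powerset ↔ v ∈ G := by
      intro v
      rw [mem_powerset, singleton_subset_iff, hσ, inl_mem_hi]
    refine ⟨[], List.nodup_nil, ?_, Sh.nil, Or.inl ⟨rfl, G, hcard, hW⟩⟩
    intro F
    constructor
    · intro hF
      simp at hF
    · rintro ⟨j, hj, rfl, hF⟩
      exfalso
      have h1 : φ j ⊆ G := fun v hv => (hW v).1 (hF v hv)
      have h2 := card_le_card h1
      rw [h.card j hj] at h2
      omega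
  | shed Γ x hK hp hx hl hd hs ihl ihd =>
    intro n φ hn h
    have h' := h.del hx hd.pure hs
    obtain ⟨l', hnd, hmem', hsh', halt⟩ := ihd n φ hn h'
    rcases x with v | i
    · -- an old vertex is shed
      have hdel : ∀ u, {Sum.inl u} ∈ del Γ (Sum.inl v) ↔ {Sum.inl u} ∈ Γ ∧ u ≠ v := by
        intro u
        rw [mem_del', mem_singleton]
        simp [eq_comm]
      have hdel2 : ∀ j, {Sum.inr j} ∈ del Γ (Sum.inl v) ↔ {Sum.inr j} ∈ Γ := by
        intro j
        rw [mem_del']
        simp
      -- the shelling of the link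
      obtain ⟨l'', hnd'', hmem'', hsh''⟩ : ∃ l'' : List (Finset V), l''.Nodup ∧
          (∀ F, F ∈ l'' ↔ ∃ j, {Sum.inr j} ∈ Γ ∧ v ∈ φ j ∧ (φ j).erase v = F) ∧ Sh l'' := by
        rcases Nat.lt_or_ge n 2 with hn2 | hn2
        · -- the link is 0-dimensional
          have hn1 : n = 1 := by omega
          subst hn1
          classical
          -- the set of the new vertices
          set J : Finset ι := (Γ.biUnion id).toRight with hJ
          have hJm : ∀ j, {Sum.inr j} ∈ Γ → j ∈ J := by
            intro j hj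
            rw [hJ, mem_toRight, mem_biUnion]
            exact ⟨_, hj, mem_singleton_self _⟩
          set S : Finset (Finset V) :=
            (J.filter (fun j => {Sum.inr j} ∈ Γ ∧ v ∈ φ j)).image (fun j => (φ j).erase v) with hS
          have hSm : ∀ F, F ∈ S ↔ ∃ j, {Sum.inr j} ∈ Γ ∧ v ∈ φ j ∧ (φ j).erase v = F := by
            intro F
            rw [hS, mem_image]
            constructor
            · rintro ⟨j, hj, rfl⟩
              rw [mem_filter] at hj
              exact ⟨j, hj.2.1, hj.2.2, rfl⟩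
            · rintro ⟨j, hj1, hj2, rfl⟩
              exact ⟨j, mem_filter.2 ⟨hJm j hj1, hj1, hj2⟩, rfl⟩
          refine ⟨S.toList, nodup_toList S, ?_, ?_⟩
          · intro F
            rw [mem_toList]
            exact hSm F
          · apply sh_of_card_one _ (nodup_toList S)
            intro F hF
            rw [mem_toList, hSm] at hF
            obtain ⟨j, hj1, hj2, rfl⟩ := hF
            rw [card_erase_of_mem hj2, h.card j hj1]
        · have hlink := h.link hn2 hx h'
          obtain ⟨l'', hnd'', hmem'', hsh'', -⟩ := ihl (n - 1) _ (by omega) hlink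
          refine ⟨l'', hnd'', ?_, hsh''⟩
          intro F
          rw [hmem'']
          constructor
          · rintro ⟨j, hj, rfl, -⟩
            rw [mem_link' hK] at hj
            refine ⟨j, h.sub hj.2 (by simp), ?_, rfl⟩
            rcases h.form _ hj.2 with ⟨G, hG, -⟩ | ⟨i, G, hG, hGi⟩
            · have : Sum.inr j ∈ lo ι G := by rw [← hG]; simp
              simp at this
            · have h1 : Sum.inr j ∈ hi i G := by rw [← hG]; simp
              have h2 : Sum.inl v ∈ hi i G := by rw [← hG]; simp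
              rw [inr_mem_hi] at h1
              rw [inl_mem_hi] at h2
              rw [h1]
              exact hGi.1 h2
          · rintro ⟨j, hj1, hj2, rfl⟩
            have hfull := h.full_of_del hx h' hj1 hj2
            have hc := h.card j hj1
            refine ⟨j, ?_, rfl, ?_⟩
            · rw [mem_link' hK]
              refine ⟨by simp, ?_⟩
              have h1 : ({v} : Finset V) ⊂ φ j := by
                refine ⟨singleton_subset_iff.2 hj2, fun hcon => ?_⟩
                have := card_le_card hcon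
                rw [hc, card_singleton] at this
                omega
              have h2 := h.full j hj1 _ h1 (fun u hu => hfull u (h1.1 hu))
              refine h.cx.2 _ h2 _ ?_
              intro y hy
              rw [mem_insert, mem_singleton] at hy
              rcases hy with rfl | rfl
              · simp
              · simp
            · intro u hu
              rw [mem_erase] at hu
              rw [mem_link' hK]
              refine ⟨by simpa using fun h => hu.1 h.symm, ?_⟩
              have h1 : ({v, u} : Finset V) ⊂ φ j := by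
                refine ⟨insert_subset hj2 (singleton_subset_iff.2 hu.2), fun hcon => ?_⟩
                have := card_le_card hcon
                have h3 := card_le_two (a := v) (b := u)
                omega
              have h2 := h.full j hj1 _ h1 (fun w hw => hfull w (h1.1 hw))
              refine h.cx.2 _ h2 _ ?_
              intro y hy
              rw [mem_insert, mem_singleton] at hy
              rcases hy with rfl | rfl
              · simp
              · simp
      have hv1 : ∀ F ∈ l', v ∉ F := by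
        intro F hF hvF
        obtain ⟨j, -, -, h3⟩ := (hmem' F).1 hF
        exact ((hdel v).1 (h3 v hvF)).2 rfl
      have hv2 : ∀ F ∈ l'', v ∉ F := by
        intro F hF hvF
        obtain ⟨j, -, -, rfl⟩ := (hmem'' F).1 hF
        exact notMem_erase _ _ hvF
      -- membership in the new list
      have hmem : ∀ F, F ∈ l' ++ l''.map (insert v) ↔
          ∃ i, {Sum.inr i} ∈ Γ ∧ φ i = F ∧ ∀ v ∈ F, {Sum.inl v} ∈ Γ := by
        intro F
        rw [List.mem_append, hmem']
        constructor
        · rintro (⟨j, h1, h2, h3⟩ | hF)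
          · exact ⟨j, (hdel2 j).1 h1, h2, fun u hu => ((hdel u).1 (h3 u hu)).1⟩
          · obtain ⟨H, hH, rfl⟩ := List.mem_map.1 hF
            obtain ⟨j, h1, h2, rfl⟩ := (hmem'' H).1 hH
            rw [insert_erase h2]
            exact ⟨j, h1, rfl, h.full_of_del hx h' h1 h2⟩
        · rintro ⟨j, h1, rfl, h3⟩
          by_cases hvj : v ∈ φ j
          · right
            rw [List.mem_map]
            exact ⟨(φ j).erase v, (hmem'' _).2 ⟨j, h1, hvj, rfl⟩, insert_erase hvj⟩
          · left
            refine ⟨j, (hdel2 j).2 h1, rfl, fun u hu => (hdel u).2 ⟨h3 u hu, ?_⟩⟩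
            rintro rfl
            exact hvj hu
      -- simplices containing `v`
      have hvΓ : ∀ G : Finset V, v ∈ G → lo ι G ∈ Γ →
          ∃ j, {Sum.inr j} ∈ Γ ∧ G ⊆ φ j ∧ v ∈ φ j := by
        intro G hvG hG
        obtain ⟨j, G', hsub, hmemΓ, hG', -⟩ := h.top hG
        have h1 : G ⊆ G' := by
          intro u hu
          have := hsub (inl_mem_lo.2 hu)
          simpa using this
        exact ⟨j, h.sub hmemΓ (by simp), h1.trans hG'.1, hG'.1 (h1 hvG)⟩
      refine ⟨l' ++ l''.map (insert v), ?_, hmem, ?_, Or.inr ?_⟩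
      · rw [List.nodup_append]
        refine ⟨hnd, ?_, ?_⟩
        · refine List.Nodup.map_on ?_ hnd''
          intro A hA B hB hAB
          have := congrArg (fun X => X.erase v) hAB
          simpa [erase_insert (hv2 A hA), erase_insert (hv2 B hB)] using this
        · intro A hA B hB hAB
          obtain ⟨H, -, rfl⟩ := List.mem_map.1 hB
          apply hv1 A hA
          rw [hAB]
          exact mem_insert_self _ _
      · refine Sh.append_map hsh' hsh'' hv1 hv2 ?_
        intro H hH hne
        obtain ⟨j, h1, h2, rfl⟩ := (hmem'' H).1 hH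
        rcases halt with ⟨h0, -⟩ | halt
        · exact absurd h0 hne
        · refine halt _ ?_ ?_
          · rw [card_erase_of_mem h2, h.card j h1]
            rfl
          · have hss : (φ j).erase v ⊂ φ j := erase_ssubset h2
            have h4 : hi j ((φ j).erase v) ∈ Γ :=
              h.full j h1 _ hss fun u hu => h.full_of_del hx h' h1 h2 u (hss.1 hu)
            rw [mem_del']
            refine ⟨h.cx.2 _ h4 _ (lo_subset.2 fun u hu => by simpa using hu), by simp⟩
      · intro G hGc hG
        by_cases hvG : v ∈ G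
        · obtain ⟨j, h1, h2, h3⟩ := hvΓ G hvG hG
          refine ⟨φ j, (hmem _).2 ⟨j, h1, rfl, h.full_of_del hx h' h1 h3⟩, h2⟩
        · have hGd : lo ι G ∈ del Γ (Sum.inl v) := by
            rw [mem_del']
            exact ⟨hG, by simpa using hvG⟩
          rcases halt with ⟨h0, W, hWc, hW⟩ | halt
          · -- `G` is the set of all remaining old vertices
            obtain ⟨j, h1, -, h3⟩ := hvΓ {v} (mem_singleton_self v) (by simpa [lo] using hx)
            have hfull := h.full_of_del hx h' h1 h3
            have hGW : G = W := by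
              apply eq_of_subset_of_card_le
              · intro u hu
                exact (hW u).1 (h'.sub hGd (by simpa using hu))
              · rw [hWc, hGc]
            have h5 : (φ j).erase v = W := by
              apply eq_of_subset_of_card_le
              · intro u hu
                rw [mem_erase] at hu
                exact (hW u).1 ((hdel u).2 ⟨hfull u hu.2, hu.1⟩)
              · rw [hWc, card_erase_of_mem h3, h.card j h1]
                rfl
            refine ⟨φ j, (hmem _).2 ⟨j, h1, rfl, hfull⟩, ?_⟩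
            rw [hGW, ← h5]
            exact erase_subset _ _
          · obtain ⟨F, hF, hGF⟩ := halt G hGc hGd
            exact ⟨F, List.mem_append_left _ hF, hGF⟩
    · -- a new vertex is shed
      have hdel : ∀ u, {Sum.inl u} ∈ del Γ (Sum.inr i) ↔ {Sum.inl u} ∈ Γ := by
        intro u
        rw [mem_del']
        simp
      have hdel2 : ∀ j, {Sum.inr j} ∈ del Γ (Sum.inr i) ↔ {Sum.inr j} ∈ Γ ∧ j ≠ i := by
        intro j
        rw [mem_del', mem_singleton]
        simp [eq_comm]
      have hlo : ∀ G : Finset V, lo ι G ∈ Γ → lo ι G ∈ del Γ (Sum.inr i) := by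
        intro G hG
        rw [mem_del']
        exact ⟨hG, by simp⟩
      by_cases hfull : ∀ v ∈ φ i, {Sum.inl v} ∈ Γ
      · have hnotin : φ i ∉ l' := by
          intro hin
          obtain ⟨j, hj, hj2, -⟩ := (hmem' _).1 hin
          rw [hdel2] at hj
          exact hj.2 (h.inj j i hj.1 hx hj2)
        have halt' : ∀ G : Finset V, G.card = n → lo ι G ∈ Γ → ∃ F ∈ l', G ⊆ F := by
          rcases halt with ⟨h0, W, hWc, hW⟩ | halt
          · exfalso
            have h1 : φ i ⊆ W := fun v hv => (hW v).1 ((hdel v).2 (hfull v hv))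
            have h2 := card_le_card h1
            rw [h.card i hx] at h2
            omega
          · exact fun G h1 h2 => halt G h1 (hlo G h2)
        have hmem : ∀ F, F ∈ l' ++ [φ i] ↔
            ∃ i, {Sum.inr i} ∈ Γ ∧ φ i = F ∧ ∀ v ∈ F, {Sum.inl v} ∈ Γ := by
          intro F
          rw [List.mem_append, List.mem_singleton, hmem']
          constructor
          · rintro (⟨j, h1, h2, h3⟩ | rfl)
            · exact ⟨j, ((hdel2 j).1 h1).1, h2, fun u hu => (hdel u).1 (h3 u hu)⟩
            · exact ⟨i, hx, rfl, hfull⟩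
          · rintro ⟨j, h1, rfl, h3⟩
            by_cases hji : j = i
            · right; rw [hji]
            · left
              exact ⟨j, (hdel2 j).2 ⟨h1, hji⟩, rfl, fun u hu => (hdel u).2 (h3 u hu)⟩
        refine ⟨l' ++ [φ i], ?_, hmem, ?_, Or.inr ?_⟩
        · rw [List.nodup_append]
          refine ⟨hnd, List.nodup_singleton _, ?_⟩
          intro A hA B hB hAB
          rw [List.mem_singleton] at hB
          rw [← hB, ← hAB] at hnotin
          exact hnotin hA
        · refine Sh.snoc _ _ hsh' ?_
          intro F hF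
          obtain ⟨j, hj, hj2, -⟩ := (hmem' _).1 hF
          rw [hdel2] at hj
          have hFc : F.card = n + 1 := by rw [← hj2]; exact h.card j hj.1
          have hic : (φ i).card = n + 1 := h.card i hx
          have hex : ∃ v ∈ φ i, v ∉ F := by
            by_contra hcon
            push Not at hcon
            have : φ i = F := eq_of_subset_of_card_le hcon (by omega)
            exact hnotin (this ▸ hF)
          obtain ⟨v, hv, hvF⟩ := hex
          have hss : (φ i).erase v ⊂ φ i := erase_ssubset hv
          have h4 : hi i ((φ i).erase v) ∈ Γ :=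
            h.full i hx _ hss fun u hu => hfull u (hss.1 hu)
          have h5 : lo ι ((φ i).erase v) ∈ Γ :=
            h.cx.2 _ h4 _ (lo_subset.2 fun u hu => by simpa using hu)
          obtain ⟨F', hF', hsub⟩ := halt' _ (by rw [card_erase_of_mem hv, hic]; rfl) h5
          refine ⟨(φ i).erase v, hss.1, ?_, ?_, F', hF', hsub⟩
          · rw [card_erase_of_mem hv, hic]
            rfl
          · intro u hu
            rw [mem_inter] at hu
            rw [mem_erase]
            refine ⟨?_, hu.1⟩
            rintro rfl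
            exact hvF hu.2
        · intro G h1 h2
          obtain ⟨F, hF, hGF⟩ := halt' G h1 h2
          exact ⟨F, List.mem_append_left _ hF, hGF⟩
      · refine ⟨l', hnd, ?_, hsh', ?_⟩
        · intro F
          rw [hmem']
          constructor
          · rintro ⟨j, h1, h2, h3⟩
            exact ⟨j, ((hdel2 j).1 h1).1, h2, fun u hu => (hdel u).1 (h3 u hu)⟩
          · rintro ⟨j, h1, rfl, h3⟩
            refine ⟨j, (hdel2 j).2 ⟨h1, ?_⟩, rfl, fun u hu => (hdel u).2 (h3 u hu)⟩
            rintro rfl
            exact hfull h3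
        · rcases halt with ⟨h0, W, hWc, hW⟩ | halt
          · exact Or.inl ⟨h0, W, hWc, fun u => (hdel u).symm.trans (hW u)⟩
          · exact Or.inr fun G h1 h2 => halt G h1 (hlo G h2)

end Pool.Agent.H933R3
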