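import Mathlib
import Pool.Agent.H933R3.EvB
import Pool.Agent.H933R3.Ball

set_option autoImplicit false

/-!
# The suspension of the evasive 3-ball: a collapsible evasive 4-ball
-/

namespace Pool.Agent.H933R3

open Finset Pool.Agent.Helper175.NS

/-- facets of the suspension -/
def Fm : List ℕ := Bm.map (fun m => m ||| 2 ^ 13) ++ Bm.map (fun m => m ||| 2 ^ 14)

def collSeq : List (ℕ × ℕ) := [
  (16391, 4), (16395, 6), (16451, 9), (579, 13), (8199, 4), (16961, 10), (1601, 13), (16406, 8),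
  (8213, 12), (8206, 10), (16458, 12), (9281, 8), (17473, 8), (12305, 5), (16899, 4), (9792, 11),
  (9222, 8), (16398, 10), (20546, 7), (4145, 14), (8259, 3), (16658, 11), (9474, 7), (20552, 8),
  (11328, 4), (278, 13), (20672, 4), (8770, 11), (4304, 13), (16433, 10), (8400, 11), (16660, 12),
  (8265, 8), (17984, 11), (329, 14), (20490, 10), (9729, 4), (20800, 5), (20752, 3), (12368, 5),
  (2256, 14), (4424, 13), (20500, 0), (21506, 7), (9536, 5), (8205, 11), (16914, 11), (19008, 1),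
  (8707, 4), (9226, 12), (17665, 7), (17538, 8), (18624, 1), (10306, 7), (1073, 13), (10754, 4),
  (4448, 13), (8457, 11), (12298, 6), (9473, 7), (16770, 11), (12354, 7), (18512, 10),
  (12418, 10), (20513, 11), (8577, 11), (6177, 13), (21632, 3), (8304, 10), (16397, 11),
  (12552, 4), (1376, 14), (18960, 10), (17537, 5), (12576, 2), (17544, 5), (4372, 13), (9744, 11),
  (8466, 11), (20740, 5), (16649, 11), (8484, 10), (10512, 3), (12432, 3), (17456, 6), (22560, 2),
  (2328, 14), (9249, 7), (8578, 11), (20616, 4), (16552, 11), (14337, 2), (18576, 3), (9228, 5),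
  (13320, 7), (18437, 12), (14368, 2), (9352, 5), (4208, 14), (16913, 10), (8236, 11), (2092, 14),
  (2433, 14), (8353, 11), (18465, 7), (1316, 14), (16428, 10), (8344, 11), (17668, 1), (8360, 11),
  (16897, 10), (4176, 14), (6176, 2), (12290, 10), (20482, 7), (7, 4), (16404, 0), (1089, 8),
  (515, 4), (16912, 10), (265, 11), (9218, 7), (49, 13), (1281, 7), (16394, 10), (276, 13),
  (67, 3), (9728, 11), (1600, 11), (14336, 2), (4129, 13), (8706, 4), (11, 13), (8195, 4),
  (8204, 11), (1344, 14), (1537, 4), (20544, 5), (529, 13), (16389, 12), (14, 10), (8202, 6),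
  (9224, 5), (4416, 13), (8225, 11), (21504, 3), (208, 14), (1034, 12), (8336, 11), (22, 13),
  (20608, 4), (8232, 11), (8720, 11), (577, 13), (8257, 8), (530, 11), (10752, 6), (4240, 3),
  (12289, 2), (8449, 11), (8212, 12), (8258, 7), (5122, 7), (2624, 1), (1154, 8), (74, 12),
  (73, 14), (385, 14), (4162, 7), (8201, 11), (44, 10), (2576, 10), (16393, 11), (16449, 8),
  (4116, 0), (8322, 11), (4168, 13), (17920, 11), (2081, 7), (16641, 11), (13312, 7), (274, 11),
  (8198, 8), (11264, 4), (5128, 7), (8264, 8), (328, 14), (8450, 11), (2320, 14), (2562, 14),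
  (4232, 13), (8328, 11), (1160, 5), (4101, 11), (8210, 11), (6145, 14), (6148, 14), (1064, 14),
  (20481, 4), (16898, 6), (16656, 3), (12296, 4), (168, 11), (2192, 3), (386, 11), (18433, 7),
  (2066, 14), (16424, 11), (19, 14), (2184, 14), (8209, 10), (4288, 13), (2177, 13), (8321, 10),
  (16513, 5), (16520, 4), (161, 10), (12352, 5), (8512, 5), (2306, 14), (8384, 11), (8480, 10),
  (2240, 1), (1036, 14), (194, 14), (16704, 5), (16514, 11), (13, 11), (16450, 11), (1041, 14),
  (10304, 4), (20484, 5), (8197, 11), (10244, 5), (8272, 10), (9232, 5), (1312, 14), (2084, 14),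
  (8288, 10), (16396, 11), (8240, 12), (1057, 14), (18464, 7), (4144, 14), (12320, 2),
  (16544, 10), (10272, 7), (8352, 10), (17536, 8), (10368, 8), (8228, 10), (1072, 6), (16768, 11),
  (20496, 3), (1408, 13), (18496, 10), (17664, 1), (16642, 2), (16390, 10), (10256, 3),
  (16644, 5), (20512, 8), (16408, 11), (18448, 10), (9220, 8), (112, 14), (18688, 3), (4120, 8),
  (2128, 10), (10496, 3), (16464, 10), (4132, 8), (262, 10), (4368, 13), (1060, 14), (20488, 8),
  (12292, 8), (8216, 8), (17472, 5), (6144, 14), (48, 14), (6, 10), (136, 4), (192, 14),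
  (8196, 8), (5120, 7), (3, 14), (129, 10), (4100, 8), (80, 10), (9, 11), (65, 8), (258, 10),
  (18, 14), (20480, 8), (513, 13), (4160, 5), (8194, 11), (1032, 14), (528, 10), (20, 0),
  (72, 14), (320, 5), (8704, 6), (4097, 4), (12, 11), (1026, 14), (4112, 13), (257, 11),
  (144, 14), (8256, 10), (514, 6), (576, 14), (10, 12), (33, 14), (8224, 10), (16512, 11),
  (1536, 11), (4104, 8), (16448, 5), (2560, 14), (4098, 7), (8208, 8), (17, 14), (16385, 10),
  (96, 10), (16400, 10), (66, 11), (1088, 11), (130, 11), (1025, 13), (40, 11), (4128, 8),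
  (4224, 13), (4352, 13), (272, 3), (16386, 11), (2080, 7), (24, 11), (160, 10), (8193, 11),
  (2049, 2), (2064, 10), (1152, 13), (3072, 14), (2052, 14), (2176, 8), (2304, 3), (384, 13),
  (10240, 3), (1056, 14), (9216, 8), (1280, 2), (17408, 2), (2056, 14), (16388, 5), (260, 5),
  (8200, 8), (16416, 8), (16392, 8), (2, 11), (64, 11), (512, 14), (8, 8), (4096, 13), (16, 10),
  (2048, 14), (1024, 2), (128, 13), (1, 2), (8192, 8), (16384, 8), (4, 5), (32, 8)]

set_option maxRecDepth 100000 in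
theorem coll_ok : collB 15 8 (bitset (faceMasks 15 Fm)) collSeq = true := by decide +kernel

theorem collapsible_susp : Collapsible (cx 15 Fm) := by
  rw [cx_eq_fam]
  refine collB_sound 15 8 collSeq _ ?_ coll_ok
  rw [← cx_eq_fam]
  exact isCx_cx (by decide)

theorem decF_lor {n m : ℕ} (x : Fin n) : decF n (m ||| 2 ^ (x : ℕ)) = insert x (decF n m) := by
  ext i
  rw [mem_insert, mem_decF, mem_decF, Nat.testBit_lor, Nat.testBit_two_pow, Bool.or_eq_true,
    decide_eq_true_eq, Fin.ext_iff]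
  constructor
  · rintro (h | h)
    · exact Or.inr h
    · exact Or.inl h.symm
  · rintro (h | h)
    · exact Or.inr h.symm
    · exact Or.inl h

theorem not_mem_big {n : ℕ} {m : ℕ} (hm : m ∈ Bm) {x : Fin n} (hx : 13 ≤ (x : ℕ)) :
    x ∉ decF n m := by
  intro h
  have h1 := mem_dec_of hm h
  have h2 := dec_lt (Bm_small m hm) x h1
  omega

theorem mem_Fm {σ : Finset (Fin 15)} : σ ∈ cx 15 Fm ↔
    ∃ m ∈ Bm, σ ⊆ insert 13 (decF 15 m) ∨ σ ⊆ insert 14 (decF 15 m) := by
  rw [mem_cx]
  constructor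
  · rintro ⟨m, hm, h⟩
    rw [Fm, List.mem_append, List.mem_map, List.mem_map] at hm
    rcases hm with ⟨m', hm', rfl⟩ | ⟨m', hm', rfl⟩
    · exact ⟨m', hm', Or.inl ((decF_lor (13 : Fin 15)) ▸ h)⟩
    · exact ⟨m', hm', Or.inr ((decF_lor (14 : Fin 15)) ▸ h)⟩
  · rintro ⟨m, hm, h | h⟩
    · refine ⟨m ||| 2 ^ 13, ?_, (decF_lor (13 : Fin 15)).symm ▸ h⟩
      rw [Fm, List.mem_append, List.mem_map]
      exact Or.inl ⟨m, hm, rfl⟩
    · refine ⟨m ||| 2 ^ 14, ?_, (decF_lor (14 : Fin 15)).symm ▸ h⟩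
      rw [Fm, List.mem_append, List.mem_map, List.mem_map]
      exact Or.inr ⟨m, hm, rfl⟩

theorem isSusp_Fm : IsSusp (13 : Fin 15) 14 (cx 15 Bm) (cx 15 Fm) := by
  intro σ
  rw [mem_Fm, mem_cx]
  constructor
  · rintro ⟨m, hm, h | h⟩
    · refine ⟨?_, m, hm, ?_⟩
      · rintro ⟨_, h2⟩
        have h3 := h h2
        rw [mem_insert] at h3
        rcases h3 with h3 | h3
        · exact absurd h3 (by decide)
        · exact not_mem_big hm (by decide) h3
      · intro x hx
        rw [mem_erase, mem_erase] at hx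
        exact mem_of_mem_insert_of_ne (h hx.2.2) hx.2.1
    · refine ⟨?_, m, hm, ?_⟩
      · rintro ⟨h2, _⟩
        have h3 := h h2
        rw [mem_insert] at h3
        rcases h3 with h3 | h3
        · exact absurd h3 (by decide)
        · exact not_mem_big hm (by decide) h3
      · intro x hx
        rw [mem_erase, mem_erase] at hx
        exact mem_of_mem_insert_of_ne (h hx.2.2) hx.1
  · rintro ⟨h1, m, hm, h2⟩
    refine ⟨m, hm, ?_⟩
    by_cases h14 : (14 : Fin 15) ∈ σ
    · right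
      intro x hx
      rw [mem_insert]
      by_cases hx14 : x = 14
      · exact Or.inl hx14
      · right
        refine h2 (mem_erase.2 ⟨hx14, mem_erase.2 ⟨?_, hx⟩⟩)
        rintro rfl
        exact h1 ⟨hx, h14⟩
    · left
      intro x hx
      rw [mem_insert]
      by_cases hx13 : x = 13
      · exact Or.inl hx13
      · right
        refine h2 (mem_erase.2 ⟨?_, mem_erase.2 ⟨hx13, hx⟩⟩)
        rintro rfl
        exact h14 hx

theorem evasive_susp : ¬ NonEvasive (cx 15 Fm) := by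
  intro h
  refine evasive_B 15 (by norm_num) (nonEvasive_of_susp (by decide) h _ (isCx_cx (by decide)) ?_
    isSusp_Fm)
  intro σ hσ
  obtain ⟨m, hm, h1⟩ := mem_cx.1 hσ
  exact ⟨fun h => not_mem_big hm (by decide) (h1 h), fun h => not_mem_big hm (by decide) (h1 h)⟩

/-! ### The homeomorphism -/

/-- the two facets of the suspension of a tetrahedron -/
def L2 : Finset (Finset ℕ) := {s4 ∪ {64}, s4 ∪ {65}}

theorem old_L2 : Old L2 := by
  intro F hF n hn
  rw [L2, mem_insert, mem_singleton] at hF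
  rcases hF with rfl | rfl <;> rw [mem_union, mem_s4, mem_singleton] at hn <;> omega

/-- renaming of the vertices -/
def ren (i : Fin 15) : ℕ := if (i : ℕ) < 13 then i else i + 51

theorem ren_injective : Function.Injective ren := by
  intro i j h
  unfold ren at h
  have := i.2
  have := j.2
  apply Fin.ext
  split_ifs at h <;> omega

theorem image_ren {m : ℕ} (hm : m ∈ Bm) : (decF 15 m).image ren = dec m := by
  ext k
  rw [mem_image]
  constructor
  · rintro ⟨i, hi, rfl⟩
    have h1 := mem_dec_of hm hi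
    have h2 := dec_lt (Bm_small m hm) _ h1
    rw [ren, if_pos h2]
    exact h1
  · intro hk
    have h2 := dec_lt (Bm_small m hm) _ hk
    refine ⟨⟨k, by omega⟩, ?_, by rw [ren, if_pos h2]⟩
    rw [mem_decF]
    rw [mem_dec] at hk
    exact hk.2

/-- the facets, as a finite set of finite sets -/
def Fs : Finset (Finset (Fin 15)) := (Fm.map (decF 15)).toFinset

theorem s4_sub_L2 : ∀ F ∈ L2, s4 ⊆ F := by
  intro F hF
  rw [L2, mem_insert, mem_singleton] at hF
  rcases hF with rfl | rfl <;> exact subset_union_left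

theorem Fs_image : Fs.image (fun F => F.image ren) = Sub L2 (decL Bm) := by
  have e1 : ∀ m ∈ Bm, (decF 15 (m ||| 2 ^ 13)).image ren = dec m ∪ {64} := by
    intro m hm
    rw [show decF 15 (m ||| 2 ^ 13) = insert 13 (decF 15 m) from decF_lor (13 : Fin 15),
      image_insert, image_ren hm]
    rw [union_comm]; rfl
  have e2 : ∀ m ∈ Bm, (decF 15 (m ||| 2 ^ 14)).image ren = dec m ∪ {65} := by
    intro m hm
    rw [show decF 15 (m ||| 2 ^ 14) = insert 14 (decF 15 m) from decF_lor (14 : Fin 15),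
      image_insert, image_ren hm]
    rw [union_comm]; rfl
  have d1 : (s4 ∪ {64}) \ s4 = {64} := by decide
  have d2 : (s4 ∪ {65}) \ s4 = {65} := by decide
  ext A
  rw [mem_image, mem_Sub]
  constructor
  · rintro ⟨F, hF, rfl⟩
    right
    rw [Fs, List.mem_toFinset, List.mem_map] at hF
    obtain ⟨m, hm, rfl⟩ := hF
    rw [Fm, List.mem_append, List.mem_map, List.mem_map] at hm
    rcases hm with ⟨m', hm', rfl⟩ | ⟨m', hm', rfl⟩
    · exact ⟨s4 ∪ {64}, by simp [L2], subset_union_left, dec m', mem_decL.2 ⟨m', hm', rfl⟩,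
        by rw [d1, e1 m' hm']⟩
    · exact ⟨s4 ∪ {65}, by simp [L2], subset_union_left, dec m', mem_decL.2 ⟨m', hm', rfl⟩,
        by rw [d2, e2 m' hm']⟩
  · rintro (⟨h1, h2⟩ | ⟨F, hF, -, β, hβ, rfl⟩)
    · exact absurd (s4_sub_L2 A h1) h2
    · obtain ⟨m, hm, rfl⟩ := mem_decL.1 hβ
      rw [L2, mem_insert, mem_singleton] at hF
      rcases hF with rfl | rfl
      · refine ⟨decF 15 (m ||| 2 ^ 13), ?_, by rw [d1, e1 m hm]⟩
        rw [Fs, List.mem_toFinset, List.mem_map]
        refine ⟨_, ?_, rfl⟩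
        rw [Fm, List.mem_append, List.mem_map]
        exact Or.inl ⟨m, hm, rfl⟩
      · refine ⟨decF 15 (m ||| 2 ^ 14), ?_, by rw [d2, e2 m hm]⟩
        rw [Fs, List.mem_toFinset, List.mem_map]
        refine ⟨_, ?_, rfl⟩
        rw [Fm, List.mem_append, List.mem_map, List.mem_map]
        exact Or.inr ⟨m, hm, rfl⟩

theorem L2_star : star ({({64, 65, 1, 2, 3} : Finset ℕ)} : Finset (Finset ℕ)) {64, 65} 0 = L2 := by
  decide +kernel

theorem Fs_ball : Nonempty (Sp Fs ≃ₜ Metric.closedBall (0 : EuclideanSpace ℝ (Fin 4)) 1) := by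
  obtain ⟨e1⟩ := relabel_homeo Fs ren univ (fun F _ => subset_univ F) ren_injective.injOn
  rw [Fs_image] at e1
  obtain ⟨e2⟩ := sub_homeo L2 old_L2
  obtain ⟨e3⟩ := star_homeo ({({64, 65, 1, 2, 3} : Finset ℕ)} : Finset (Finset ℕ)) {64, 65} 0
    (by simp) (by intro F hF; rw [mem_singleton] at hF; subst hF; decide) (by decide)
  rw [L2_star] at e3
  obtain ⟨e4⟩ := simplex_ball ({64, 65, 1, 2, 3} : Finset ℕ) 4 (by decide)
  exact ⟨((e1.symm.trans e2).trans e3).trans e4⟩

theorem mem_Fs {F : Finset (Fin 15)} : F ∈ Fs ↔ ∃ m ∈ Fm, decF 15 m = F := by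
  rw [Fs, List.mem_toFinset, List.mem_map]

theorem realization_eq : {x : Fin 15 → ℝ | (∀ i, 0 ≤ x i) ∧ ∑ i, x i = 1 ∧
    ∃ σ ∈ cx 15 Fm, ∀ i, i ∉ σ → x i = 0} = Sp Fs := by
  ext x
  constructor
  · rintro ⟨h0, h1, σ, hσ, h2⟩
    obtain ⟨m, hm, h3⟩ := mem_cx.1 hσ
    refine ⟨h0, decF 15 m, mem_Fs.2 ⟨m, hm, rfl⟩, fun i hi => h2 i (fun h => hi (h3 h)), ?_⟩
    rw [← h1]
    exact sum_subset (subset_univ _) (fun i _ hi => h2 i (fun h => hi (h3 h)))
  · rintro ⟨h0, F, hF, h1, h2⟩
    obtain ⟨m, hm, rfl⟩ := mem_Fs.1 hF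
    refine ⟨h0, ?_, decF 15 m, mem_cx.2 ⟨m, hm, Subset.refl _⟩, h1⟩
    rw [← h2]
    exact (sum_subset (subset_univ _) (fun i _ hi => h1 i hi)).symm

end Pool.Agent.H933R3
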